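import Pool.Agent.N996.FP.Ext3
import Pool.Agent.N996.BP.Ext2
import Pool.Agent.Y121.AHS.Defs
import Pool.Agent.Y133.Half.PwDefs

/-!
# Abelian varieties over number fields: periods, Tate modules and Tate classes on the powers

`𝒱` is the class of smooth projective varieties over an algebraic closure `k ⊆ ℂ` of a number field,
`T` is their singular cohomology `Y ↦ H(Y(ℂ), ℚ)`, with its Hodge structure, and `L = ℚ_ℓ`. By the
comparison theorem the `ℓ`-adic cohomology of a variety `Y` is `L ⊗ H(Y(ℂ), ℚ)`, in symbols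
`HL T.W L Y`, which is `Ext K L A` for the algebra `A = H(Y(ℂ), ℚ)` over `K = ℚ`. `X` is an abelian
variety with an equation over the number field, `Γ` is the Galois group of the number field, and
`pw X n` is the product of `n + 1` copies of `X`.

The first homology of `X` over `ℚ` is `H`, its tangent space is `S` and the period map is
`per : H → S`. The Tate module of `X` is the vector space `M` over `L`; it contains the homology (the
map `ι`), and `M = L ⊗ H` in the theorem.
-/

open CategoryTheory AlgebraicGeometry TensorProduct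

universe u

namespace Pool.Agent.V7H7.TP.D

open Pool.Agent.H914 Pool.Agent.H914.VarClass Pool.Agent.H914.VarClass.Obj
  Pool.Agent.H914.WeilCohomology Pool.Agent.Y121.AHS
open Pool.Agent.Y133.Half (pw)

section Per

variable {H S : Type} [AddCommGroup H] [Module ℚ H] [AddCommGroup S] [Module ℂ S]

/-- `E : H × H → ℚ` is the Riemann form of a polarization: the restriction of the imaginary part of
a positive definite Hermitian form (linear in the first variable) on the tangent space. -/
def IsRiemann (per : H →+ S) (E : H → H → ℚ) : Prop :=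
  ∃ Ψ : S → S → ℂ, (∀ u', IsLinearMap ℂ fun u => Ψ u u') ∧
    (∀ u u', Ψ u' u = starRingEnd ℂ (Ψ u u')) ∧ (∀ u, u ≠ 0 → 0 < (Ψ u u).re) ∧
    ∀ v w, (Ψ (per v) (per w)).im = E v w

/-- `per : H → S` is the period map of a complex abelian variety with the Riemann form `E`: its image
spans `S` over `ℝ`, and `dim_ℚ H = 2 dim_ℂ S < ∞` (so that `H ⊗ ℝ = S`). -/
def IsAbelian (per : H →+ S) (E : H → H → ℚ) : Prop :=
  FiniteDimensional ℚ H ∧ FiniteDimensional ℂ S ∧ Submodule.span ℝ (Set.range per) = ⊤ ∧
    Module.finrank ℚ H = 2 * Module.finrank ℂ S ∧ IsRiemann per E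

/-- `a` is an endomorphism of the abelian variety (up to isogeny), with the action `Ψ` on the tangent
space. -/
def IsEndo (per : H →+ S) (a : H →ₗ[ℚ] H) (Ψ : S →ₗ[ℂ] S) : Prop := ∀ v, Ψ (per v) = per (a v)

end Per

section Tensors

variable {H S U Γ : Type} [AddCommGroup H] [Module ℚ H] [AddCommGroup S] [Module ℂ S]
  [AddCommGroup U] [Module ℂ U] [Group Γ]

/-- The value of the multilinear form `φ` in `2 m` variables on `U`. -/
def ev {m : ℕ} (φ : MultilinearMap ℂ (fun _ : Fin m × Fin 2 => U) ℂ) (v : Fin m × Fin 2 → U) : ℂ :=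
  φ v

/-- The trace of `A`. -/
noncomputable def tr (A : Module.End ℂ U) : ℂ := LinearMap.trace ℂ U A

/-- A subgroup of finite index acts on the multilinear form `φ` in `2 m` variables on `U` through the
`m`-th power of the character `c`. -/
def IsTateTensor (r : Γ → U → U) (c : Γ → ℂ) (m : ℕ)
    (φ : MultilinearMap ℂ (fun _ : Fin m × Fin 2 => U) ℂ) : Prop :=
  ∃ Δ : Subgroup Γ, Δ.FiniteIndex ∧ ∀ s ∈ Δ, ∀ v, ev φ (fun k => r s (v k)) = c s ^ m * ev φ v

/-- The derivation given by `h` acts on `φ` as the multiplication by `m`. -/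
def ActsAs (h : U → U) (m : ℕ) (φ : MultilinearMap ℂ (fun _ : Fin m × Fin 2 => U) ℂ) : Prop :=
  ∀ v, ∑ k, ev φ (Function.update v k (h (v k))) = m * ev φ v

/-- `h` is a Hodge–Tate element for the embedding of the number field into `ℂ = L^alg` given by `σ`:
an endomorphism of `U = ℂ ⊗ M` with the weights zero and one, which acts as `m` on the Tate tensors
of weight `m`, such that the trace of each endomorphism `a` of `X` on the part of weight one is the
conjugate under `σ` of its trace on the tangent space. The group acts on `U` by `r`, `c` is the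
cyclotomic character, and `κ : H → U`. -/
def IsHodgeTate (per : H →+ S) (κ : H → U) (r : Γ → U → U) (c : Γ → ℂ) (σ : ℂ ≃+* ℂ)
    (h : Module.End ℂ U) : Prop :=
  (∀ v, h (h v) = h v) ∧ (∀ m φ, IsTateTensor r c m φ → ActsAs h m φ) ∧
    ∀ a A Ψ, (∀ v, A (κ v) = κ (a v)) → IsEndo per a Ψ → tr (A ∘ₗ h) = σ (tr Ψ)

/-- Tate, Raynaud, Fontaine: there are Hodge–Tate elements. Serre, Pink: they generate the Lie algebra
of the image of `Γ`, so the tensors on which they act as on Tate tensors are Tate tensors, and the
endomorphisms which commute with them commute with a subgroup of finite index. -/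
def HodgeTatePink (per : H →+ S) (κ : H → U) (r : Γ → U → U) (c : Γ → ℂ) : Prop :=
  (∀ σ, ∃ h, IsHodgeTate per κ r c σ h) ∧
    (∀ m φ, (∀ σ h, IsHodgeTate per κ r c σ h → ActsAs h m φ) → IsTateTensor r c m φ) ∧
      ∀ f : U →ₗ[ℂ] U, (∀ σ h, IsHodgeTate per κ r c σ h → ∀ v, f (h v) = h (f v)) →
        ∃ Δ : Subgroup Γ, Δ.FiniteIndex ∧ ∀ s ∈ Δ, ∀ v, f (r s v) = r s (f v)

end Tensors

section Tate

variable {H S L M Γ : Type} [AddCommGroup H] [Module ℚ H] [AddCommGroup S] [Module ℂ S]
  [Field L] [Algebra L ℂ] [AddCommGroup M] [Module L M] [Group Γ]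

/-- The endomorphism `A` of the Tate module commutes with the elements of `Δ`. -/
def Commutes (ρ : Representation L Γ M) (Δ : Subgroup Γ) (A : Module.End L M) : Prop :=
  ∀ s ∈ Δ, ∀ v, ρ s (A v) = A (ρ s v)

/-- The known properties of the Tate module. -/
structure IsTateModule (per : H →+ S) (E : H → H → ℚ) (ι : H → M) (ρ : Representation L Γ M)
    (χ : Γ →* L) : Prop where
  /-- the Weil pairing -/
  weil : ∃ ω : M →ₗ[L] M →ₗ[L] L, (∀ u v, ω (ι u) (ι v) = (E u v : L)) ∧
    ∀ s u v, ω (ρ s u) (ρ s v) = χ s * ω u v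
  /-- the endomorphisms of `X` are defined over a finite extension -/
  endo : ∀ a A Ψ, IsEndo per a Ψ → (∀ v, A (ι v) = ι (a v)) →
    ∃ Δ : Subgroup Γ, Δ.FiniteIndex ∧ Commutes ρ Δ A
  /-- Faltings: the Tate module is semisimple, also over finite extensions -/
  semisimple : ∀ Δ : Subgroup Γ, Δ.FiniteIndex → ∀ U : Submodule L M,
    (∀ s ∈ Δ, ∀ u ∈ U, ρ s u ∈ U) →
      ∃ U' : Submodule L M, (∀ s ∈ Δ, ∀ u ∈ U', ρ s u ∈ U') ∧ IsCompl U U'
  /-- Faltings: the endomorphisms of the Tate module over finite extensions are combinations of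
  endomorphisms of `X` -/
  faltings : ∀ Δ : Subgroup Γ, Δ.FiniteIndex → ∀ B : Module.End L M, Commutes ρ Δ B →
    B ∈ Submodule.span L {A | ∃ a Ψ, IsEndo per a Ψ ∧ ∀ v, A (ι v) = ι (a v)}
  /-- the Hodge–Tate decomposition, and the theorem of Serre and Pink -/
  pink : HodgeTatePink per (fun v => (1 : ℂ) ⊗ₜ[L] ι v) (fun s => (ρ s).baseChange ℂ)
    fun s => algebraMap L ℂ (χ s)

end Tate

section Alg

variable {K L A B H M Γ : Type} [Field K] [Ring A] [Algebra K A] [Ring B] [Algebra K B]
  [AddCommGroup H] [Field L] [CharZero L] [Algebra K L] [AddCommGroup M] [Module L M] [Group Γ]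

/-- `f` is a duality of rational vector spaces between `H` and the part `V 1` of degree one of the
graded algebra `A`; it is zero on the parts `V i` of the other degrees. -/
def IsDuality (V : ℕ → Submodule K A) (f : H → A → ℚ) : Prop :=
  (∀ h h' a, f (h + h') a = f h a + f h' a) ∧ (∀ h a a', f h (a + a') = f h a + f h a') ∧
    (∀ h i a, i ≠ 1 → a ∈ V i → f h a = 0) ∧ (∀ h, (∀ a ∈ V 1, f h a = 0) → h = 0) ∧
      ∀ a ∈ V 1, (∀ h, f h a = 0) → a = 0

/-- `q` is the `L`-linear extension of `f` to the coefficients `L`. -/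
def IsExtension (f : A → ℚ) (q : Ext K L A → L) : Prop :=
  (∀ l x y, q (extSm K L l x + y) = l * q x + q y) ∧ ∀ a, q (extEm K L a) = f a

/-- The class `x` belongs to the extension of the subspace `V` to the coefficients `L`. -/
def Lies (V : Submodule K A) (x : Ext K L A) : Prop := x ∈ extSub K L V

/-- The class `x` is an `L`-linear combination of classes with the property `P`. -/
def IsComb (P : A → Prop) (x : Ext K L A) : Prop :=
  x ∈ Submodule.span L {y | ∃ a, P a ∧ extEm K L a = y}

/-- `g` is an `L`-linear endomorphism of the graded algebra `L ⊗ A`, `V i` is the part of `A` of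
degree `i`. -/
def IsAlgMap (V : ℕ → Submodule K A) (g : Ext K L A → Ext K L A) : Prop :=
  (∀ l x y, g (extSm K L l x + y) = extSm K L l (g x) + g y) ∧
    (∀ x y, g (extMul K L x y) = extMul K L (g x) (g y)) ∧ g (extEm K L 1) = extEm K L 1 ∧
      ∀ i x, Lies (V i) x → Lies (V i) (g x)

/-- The homomorphism `f` is compatible with the actions `g` and `g'`. -/
def IsEquivariant (f : A →ₐ[K] B) (g : Γ → Ext K L A → Ext K L A)
    (g' : Γ → Ext K L B → Ext K L B) : Prop :=
  ∀ s x, g' s (extHom K L f x) = extHom K L f (g s x)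

/-- On the part of degree one of `L ⊗ A` the action `g` is dual to the representation `ρ` on `M`. -/
def IsDual (V : ℕ → Submodule K A) (f : H → A → ℚ) (ι : H → M) (ρ : Representation L Γ M)
    (g : Γ → Ext K L A → Ext K L A) : Prop :=
  ∃ p : M → Ext K L A → L, (∀ h, IsExtension (f h) (p (ι h))) ∧
    (∀ l u v x, p (l • u + v) x = l * p u x + p v x) ∧
      ∀ s u x, Lies (V 1) x → p (ρ s u) (g s x) = p u x

/-- The class `x` of degree `2 j` is a Tate class: a subgroup of finite index fixes it, if the action
`g` is twisted by the `j`-th power of the cyclotomic character. -/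
def IsTate (V : ℕ → Submodule K A) (g : Γ → Ext K L A → Ext K L A) (χ : Γ →* L) (j : ℕ)
    (x : Ext K L A) : Prop :=
  Lies (V (2 * j)) x ∧
    ∃ Δ : Subgroup Γ, Δ.FiniteIndex ∧ ∀ s ∈ Δ, extSm K L (χ s ^ j) (g s x) = x

/-- All Tate classes are `L`-linear combinations of classes with the property `P`. -/
def TateIn (V : ℕ → Submodule K A) (g : Γ → Ext K L A → Ext K L A) (χ : Γ →* L)
    (P : ℕ → A → Prop) : Prop :=
  ∀ j x, IsTate V g χ j x → IsComb (P j) x

/-- All classes with the property `P` are Tate classes. -/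
def AreTate (V : ℕ → Submodule K A) (g : Γ → Ext K L A → Ext K L A) (χ : Γ →* L)
    (P : ℕ → A → Prop) : Prop :=
  ∀ j c, P j c → IsTate V g χ j (extEm K L c)

/-- `c` is the image of an element of `Z` with the property `P`. -/
def IsImage {Z : Type*} [AddCommGroup Z] (g : Z →+ A) (P : Z → Prop) (c : A) : Prop :=
  ∃ z, P z ∧ g z = c

end Alg

section Polarisation

open Pool.Agent.N996.BP (IsRat Bil extConj extBil)

variable {K A : Type} [Field K] [Algebra K ℂ] [Ring A] [Algebra K A]

/-- The Hodge decomposition of the cohomology algebra `A` of a variety of dimension `d` is a Hodge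
structure with polarisation `ψ` (`P p q x` says that `x` is of type `(p, q)`): there are only types with
`p` and `q` between `0` and `d`, the complex conjugation `z ⊗ c ↦ z̄ ⊗ c` maps the classes of type
`(p, q)` to classes of type `(q, p)`, the rational bilinear form `ψ` vanishes on classes of the types
`(p, q)` and `(r, s)` unless `(r, s) = (q, p)`, and `i ^ (p - q) ψ(x, x̄)` is a positive real number for
all nonzero `x` of type `(p, q)`. -/
def IsPolarisation (P : ℤ → ℤ → Ext K ℂ A → Prop) (hK : IsRat K) (d : ℕ) (ψ : Bil K A) : Prop :=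
  (∀ p q x, P p q x → x ≠ 0 → 0 ≤ p ∧ p ≤ d ∧ 0 ≤ q ∧ q ≤ d) ∧
    (∀ p q x, P p q x → P q p (extConj hK x)) ∧
      (∀ p q r s x y, P p q x → P r s y → (r ≠ q ∨ s ≠ p) → extBil ψ x y = 0) ∧
        ∀ p q x, P p q x → x ≠ 0 →
          ∃ r : ℝ, 0 < r ∧ Complex.I ^ (p - q) * extBil ψ x (extConj hK x) = r

end Polarisation

section Family

variable {K L Γ : Type} [Field K] [Field L] [Algebra K L] [Group Γ] {A : ℕ → Type}
  [∀ n, Ring (A n)] [∀ n, Algebra K (A n)]

/-- The group `Γ` acts on the cohomology algebras `L ⊗ A n` of the powers `X ^ (n + 1)` (`V n i` is the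
part of `A n` of degree `i`). The action `g` respects the structure of a graded `L`-algebra, commutes
with the pull-backs `p n` and `q n` along the projections `X ^ (n + 2) → X ^ (n + 1)` and
`X ^ (n + 2) → X`, and the classes with the property `P` (the Hodge classes) are Tate classes, for the
cyclotomic character `χ`; the last property is a theorem of Deligne for abelian varieties. -/
def IsAction (V : ∀ n, ℕ → Submodule K (A n)) (p : ∀ n, A n →ₐ[K] A (n + 1))
    (q : ∀ n, A 0 →ₐ[K] A (n + 1)) (P : ∀ n, ℕ → A n → Prop)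
    (g : ∀ n, Γ → Ext K L (A n) → Ext K L (A n)) (χ : Γ →* L) : Prop :=
  ∀ n, (∀ s, IsAlgMap (V n) (g n s)) ∧ IsEquivariant (p n) (g n) (g (n + 1)) ∧
    IsEquivariant (q n) (g 0) (g (n + 1)) ∧ AreTate (V n) (g n) χ (P n)

end Family

section Periods

variable {K A H S : Type} [Field K] [Ring A] [Algebra K A] [AddCommGroup H] [AddCommGroup S]
  [Module ℂ S] [Algebra K ℂ]

/-- `H` is the first homology of the abelian variety `X` with the cohomology algebra `A`, `V i` is the
part of degree `i`, with the period map `per : H → S` to the tangent space, and `f` gives the values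
of the classes of degree one on the elements of `H`. The holomorphic one-forms, that is the classes
with the property `P` (to be of type `(1, 0)`), are the complex classes of degree one whose values on
`H` are given by complex linear forms of the periods. -/
def IsFirstHomology (V : ℕ → Submodule K A) (P : Ext K ℂ A → Prop) (per : H →+ S)
    (f : H → A → ℚ) : Prop :=
  IsDuality V f ∧ ∃ q : H → Ext K ℂ A → ℂ, (∀ h, IsExtension (f h) (q h)) ∧
    ∀ x, P x ↔ Lies (V 1) x ∧ ∃ Φ : S →ₗ[ℂ] ℂ, ∀ h, q h x = Φ (per h)

end Periods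

variable {k : Type u} [Field k] {𝒱 : VarClass k} {ops : CycleOps 𝒱} (T : HodgeTheory ops)
  (X : 𝒱.Obj)

/-- `c` is the class of an algebraic cycle (with rational coefficients) of codimension `j`. -/
def IsAlg (j : ℕ) (c : T.W.H X) : Prop := IsImage (T.W.cl X) (X.IsCyc j) c

/-- The Hodge conjecture for `X`. -/
def HodgeConj : Prop := ∀ j c, IsHodge T X j c → IsAlg T X j c

end Pool.Agent.V7H7.TP.D
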