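import Pool.Agent.V7H7.TP.Fin
import Pool.Agent.V7H7.TP.Def

/-!
# The definitions of the statement
-/

set_option autoImplicit false
set_option linter.unusedSectionVars false

open CategoryTheory AlgebraicGeometry TensorProduct

universe u

namespace Pool.Agent.V7H7.TP

open Module
open Pool.Agent.H914 Pool.Agent.H914.VarClass Pool.Agent.H914.VarClass.Obj
  Pool.Agent.H914.WeilCohomology Pool.Agent.Y121.AHS
open Pool.Agent.Y133.Half (pw)
open Pool.Agent.N996.FP (pr IsCoordinateMap IsPolarisation RForm OfAbelianType HodgeConjecture AdmS)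
open Pool.Agent.V7H7.MS.St (perPow IsHodgeSum IsTateClass IsTateModuleSP)

variable {K₀ : Type u} [Field K₀] {𝒱 : VarClass K₀} {ops : CycleOps 𝒱}

section ext

/-- Linear maps on an extension are equal if they agree on the elements `1 ⊗ v`. -/
theorem hom_ext {k L V U : Type*} [Field k] [Field L] [Algebra k L] [AddCommGroup V] [Module k V]
    [AddCommGroup U] [Module L U] {A B : L ⊗[k] V →ₗ[L] U}
    (h : ∀ v : V, A ((1 : L) ⊗ₜ[k] v) = B ((1 : L) ⊗ₜ[k] v)) : A = B := by
  apply LinearMap.ext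
  intro x
  induction x using TensorProduct.induction_on with
  | zero => rw [map_zero, map_zero]
  | add x y hx hy => rw [map_add, map_add, hx, hy]
  | tmul c v =>
    have h1 : c ⊗ₜ[k] v = c • ((1 : L) ⊗ₜ[k] v) := by
      rw [TensorProduct.smul_tmul', smul_eq_mul, mul_one]
    rw [h1, map_smul, map_smul, h]

end ext

section tate

variable {H S : Type} [AddCommGroup H] [Module ℚ H] [AddCommGroup S] [Module ℂ S]
  {K : Type} [Field K] [CharZero K] [Algebra K ℂ] {Γ : Type} [Group Γ]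
  {per : H →+ S} {E : H → H → ℚ} {ρ : Representation K Γ (K ⊗[ℚ] H)} {χ : Γ →* K}

theorem ht_iff {σ : ℂ ≃+* ℂ} {h : Module.End ℂ (ℂ ⊗[K] (K ⊗[ℚ] H))} :
    D.IsHodgeTate per (fun v => (1 : ℂ) ⊗ₜ[K] ((1 : K) ⊗ₜ[ℚ] v))
      (fun s => (ρ s).baseChange ℂ) (fun s => algebraMap K ℂ (χ s)) σ h ↔
    Pool.Agent.Y224.TS.St.IsHodgeTate per ρ χ σ h := by
  constructor
  · rintro ⟨h1, h2, h3⟩
    refine ⟨h1, h2, fun a Ψ hΨ => ?_⟩
    refine h3 a ((a.baseChange K).baseChange ℂ) Ψ (fun v => ?_) hΨ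
    rw [LinearMap.baseChange_tmul, LinearMap.baseChange_tmul]
  · rintro ⟨h1, h2, h3⟩
    refine ⟨h1, h2, fun a A Ψ hA hΨ => ?_⟩
    have h4 : A = (a.baseChange K).baseChange ℂ := by
      refine hom_ext fun w => ?_
      induction w using TensorProduct.induction_on with
      | zero => rw [TensorProduct.tmul_zero, map_zero, map_zero]
      | add x y hx hy => rw [TensorProduct.tmul_add, map_add, map_add, hx, hy]
      | tmul c v =>
        have h1 : c ⊗ₜ[ℚ] v = c • ((1 : K) ⊗ₜ[ℚ] v) := by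
          rw [TensorProduct.smul_tmul', smul_eq_mul, mul_one]
        rw [h1, TensorProduct.tmul_smul, ← algebraMap_smul ℂ c, map_smul, map_smul]
        congr 1
        refine (hA v).trans ?_
        rw [LinearMap.baseChange_tmul, LinearMap.baseChange_tmul]
    rw [h4]
    exact h3 a Ψ hΨ

/-- The properties of the Tate module. -/
theorem module_of (h : D.IsTateModule per E (fun v => (1 : K) ⊗ₜ[ℚ] v) ρ χ) :
    IsTateModuleSP per E ρ χ := by
  obtain ⟨hw, he, hs, hf, hp1, hp2, hp3⟩ := h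
  refine ⟨⟨hw, fun a ⟨Ψ, hΨ⟩ => ?_, hs, fun Δ hΔ B hB => ?_, fun σ => ?_, fun f hf' => ?_⟩,
    fun m φ hφ => ?_⟩
  · exact he a (a.baseChange K) Ψ hΨ fun v => LinearMap.baseChange_tmul _ _ _
  · refine Submodule.span_mono ?_ (hf Δ hΔ B hB)
    rintro A ⟨a, Ψ, hΨ, hA⟩
    refine ⟨a, ⟨Ψ, hΨ⟩, hom_ext fun v => ?_⟩
    rw [hA v, LinearMap.baseChange_tmul]
  · obtain ⟨h, hh⟩ := hp1 σ
    exact ⟨h, ht_iff.1 hh⟩
  · exact hp3 f fun σ h hh => hf' σ h (ht_iff.1 hh)
  · exact hp2 m φ fun σ h hh => hφ σ h (ht_iff.1 hh)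

theorem av_of (h : D.IsAbelian per E) : Pool.Agent.Y90.St.IsAV per :=
  ⟨h.1, h.2.1, h.2.2.1, h.2.2.2.1, E, h.2.2.2.2⟩

theorem pol_of (h : D.IsAbelian per E) : Pool.Agent.Y90.St.IsPolarization per E := h.2.2.2.2

end tate

section lin

variable {k A H : Type} [Field k] [CharZero k] [Ring A] [Algebra k A] [AddCommGroup H]
  [Module ℚ H] {V : ℕ → Submodule k A} {f : H → A → ℚ}

/-- The value of a linear form. -/
noncomputable def lin1 (hrat : ∀ r : k, ∃ q : ℚ, (q : k) = r) (hf : D.IsDuality V f) (h : H) :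
    A →ₗ[k] k where
  toFun c := (f h c : k)
  map_add' c d := by rw [hf.2.1, Rat.cast_add]
  map_smul' r c := by
    obtain ⟨q, rfl⟩ := hrat r
    let g : A →+ ℚ :=
      { toFun := f h
        map_zero' := by
          have h1 := hf.2.1 h 0 0
          rw [add_zero] at h1
          exact left_eq_add.1 h1
        map_add' := hf.2.1 h }
    have h1 : g ((q : k) • c) = (q : ℚ) • g c := map_ratCast_smul g k ℚ q c
    change ((g ((q : k) • c) : ℚ) : k) = (q : k) * ((g c : ℚ) : k)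
    rw [h1, smul_eq_mul, Rat.cast_mul]

/-- The linear forms. -/
noncomputable def lin (hrat : ∀ r : k, ∃ q : ℚ, (q : k) = r) (hf : D.IsDuality V f) :
    H →+ (A →ₗ[k] k) where
  toFun := lin1 hrat hf
  map_zero' := by
    apply LinearMap.ext
    intro c
    have h1 := hf.1 0 0 c
    rw [add_zero] at h1
    have h2 : f 0 c = 0 := left_eq_add.1 h1
    change ((f 0 c : ℚ) : k) = 0
    rw [h2, Rat.cast_zero]
  map_add' h h' := by
    apply LinearMap.ext
    intro c
    change ((f (h + h') c : ℚ) : k) = (f h c : k) + (f h' c : k)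
    rw [hf.1, Rat.cast_add]

theorem lin_apply (hrat : ∀ r : k, ∃ q : ℚ, (q : k) = r) (hf : D.IsDuality V f) (h : H) (c : A) :
    lin hrat hf h c = (f h c : k) := rfl

theorem lin_inj (hrat : ∀ r : k, ∃ q : ℚ, (q : k) = r) (hf : D.IsDuality V f) (h : H)
    (hh : ∀ c ∈ V 1, lin hrat hf h c = 0) : h = 0 :=
  hf.2.2.2.1 h fun c hc => Rat.cast_eq_zero.1 ((lin_apply hrat hf h c).symm.trans (hh c hc))

theorem lin_surj [FiniteDimensional ℚ H] [FiniteDimensional k (V 1)]
    (hrat : ∀ r : k, ∃ q : ℚ, (q : k) = r) (hf : D.IsDuality V f) (g : A →ₗ[k] k) :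
    ∃ h, ∀ c ∈ V 1, lin hrat hf h c = g c := by
  classical
  let b := finBasis ℚ H
  let φ : Fin (finrank ℚ H) → Module.Dual k (V 1) := fun j =>
    (lin hrat hf (b j)).comp (V 1).subtype
  have hsp : Submodule.span k (Set.range φ) = ⊤ := by
    by_contra hcon
    obtain ⟨x, hx⟩ : ∃ x : Module.Dual k (V 1), x ∉ Submodule.span k (Set.range φ) := by
      by_contra h1
      push Not at h1
      exact hcon (eq_top_iff.2 fun x _ => h1 x)
    obtain ⟨F, hF, hF0⟩ := Submodule.exists_dual_map_eq_bot_of_notMem hx inferInstance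
    obtain ⟨c, rfl⟩ := (Module.evalEquiv k (V 1)).surjective F
    have h1 : ∀ j, φ j c = 0 := by
      intro j
      have h2 : Module.evalEquiv k (V 1) c (φ j) ∈
          (Submodule.span k (Set.range φ)).map (Module.evalEquiv k (V 1) c) :=
        ⟨φ j, Submodule.subset_span ⟨j, rfl⟩, rfl⟩
      rw [hF0] at h2
      exact (Submodule.mem_bot _).1 h2
    have h2 : (c : A) = 0 := by
      refine hf.2.2.2.2 c c.2 fun h => ?_
      have h3 : ∀ h : H, lin hrat hf h c = 0 := by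
        intro h
        rw [← b.sum_repr h, map_sum, LinearMap.sum_apply]
        refine Finset.sum_eq_zero fun j _ => ?_
        have h4 : lin hrat hf (b.repr h j • b j) = ((b.repr h j : ℚ) : k) • lin hrat hf (b j) :=
          map_ratCast_smul (lin hrat hf) ℚ k (b.repr h j) (b j)
        rw [h4, LinearMap.smul_apply]
        have h5 : lin hrat hf (b j) c = 0 := h1 j
        rw [h5, smul_zero]
      exact Rat.cast_eq_zero.1 ((lin_apply hrat hf h c).symm.trans (h3 h))
    have h3 : c = 0 := Subtype.ext h2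
    apply hF
    rw [h3, map_zero]
    rfl
  have h1 : g.comp (V 1).subtype ∈ Submodule.span k (Set.range φ) := by
    rw [hsp]
    exact Submodule.mem_top
  obtain ⟨c, hc⟩ := (Submodule.mem_span_range_iff_exists_fun k).1 h1
  choose q hq using fun j => hrat (c j)
  refine ⟨∑ j, q j • b j, fun x hx => ?_⟩
  have h2 := LinearMap.congr_fun hc ⟨x, hx⟩
  rw [LinearMap.sum_apply] at h2
  rw [map_sum, LinearMap.sum_apply]
  refine Eq.trans ?_ h2
  refine Finset.sum_congr rfl fun j _ => ?_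
  have h4 : lin hrat hf (q j • b j) = ((q j : ℚ) : k) • lin hrat hf (b j) :=
    map_ratCast_smul (lin hrat hf) ℚ k (q j) (b j)
  rw [h4, hq]
  rfl

end lin

section extension

variable {k L A : Type} [Field k] [Field L] [CharZero L] [Algebra k L] [Ring A] [Algebra k A]

theorem extension_unique {f : A → ℚ} {q q' : Ext k L A → L} (h : D.IsExtension f q)
    (h' : D.IsExtension f q') (x : Ext k L A) : q x = q' x := by
  have h0 : ∀ {q : Ext k L A → L}, D.IsExtension f q → q 0 = 0 := by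
    intro q h
    have h1 := h.1 0 0 0
    rw [zero_mul, zero_add] at h1
    have h2 : extSm k L (0 : L) (0 : Ext k L A) + 0 = 0 := by
      rw [add_zero]
      exact smul_zero _
    have h3 := h.1 1 0 0
    have h4 : extSm k L (1 : L) (0 : Ext k L A) + 0 = 0 := by
      rw [add_zero]
      exact smul_zero _
    rw [h4, one_mul] at h3
    exact left_eq_add.1 h3
  have hadd : ∀ {q : Ext k L A → L}, D.IsExtension f q → ∀ x y, q (x + y) = q x + q y := by
    intro q h x y
    have h1 := h.1 1 x y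
    have h2 : extSm k L (1 : L) x = x := one_smul _ _
    rw [h2, one_mul] at h1
    exact h1
  have hsm : ∀ {q : Ext k L A → L}, D.IsExtension f q → ∀ l x, q (extSm k L l x) = l * q x := by
    intro q h l x
    have h1 := h.1 l x 0
    rw [add_zero, h0 h, add_zero] at h1
    exact h1
  have key : ∀ x : L ⊗[k] A, q (show Ext k L A from x) = q' (show Ext k L A from x) := by
    intro x
    induction x using TensorProduct.induction_on with
    | zero => exact (h0 h).trans (h0 h').symm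
    | add x y hx hy => exact (hadd h x y).trans ((congrArg₂ (· + ·) hx hy).trans (hadd h' x y).symm)
    | tmul c a =>
      have h1 : (show Ext k L A from c ⊗ₜ[k] a) = extSm k L c (extEm k L a) := by
        change c ⊗ₜ[k] a = c • ((1 : L) ⊗ₜ[k] a)
        rw [TensorProduct.smul_tmul', smul_eq_mul, mul_one]
      rw [h1, hsm h, hsm h', h.2, h'.2]
  exact key x

theorem algMap_add {V : ℕ → Submodule k A} {g : Ext k L A → Ext k L A} (h : D.IsAlgMap V g)
    (x y : Ext k L A) : g (x + y) = g x + g y := by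
  have h1 := h.1 1 x y
  have h2 : ∀ z : Ext k L A, extSm k L (1 : L) z = z := fun z => one_smul _ _
  rw [h2, h2] at h1
  exact h1

theorem algMap_smul {V : ℕ → Submodule k A} {g : Ext k L A → Ext k L A} (h : D.IsAlgMap V g)
    (c : L) (x : Ext k L A) : g (extSm k L c x) = extSm k L c (g x) := by
  have h0 : g 0 = 0 := by
    have h1 := algMap_add h 0 0
    rw [add_zero] at h1
    exact left_eq_add.1 h1
  have h1 := h.1 c x 0
  rw [add_zero, h0, add_zero] at h1
  exact h1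

end extension

section val

variable {W : WeilCohomology.{u, 0} ops} {X : 𝒱.Obj} {H : Type} [AddCommGroup H] [Module ℚ H]
  {f : H → W.H X → ℚ} {L : Type} [Field L] [CharZero L] [Algebra W.K L]

theorem val_ext (hrat : ∀ r : W.K, ∃ q : ℚ, (q : W.K) = r) (hf : D.IsDuality (W.gr X) f) (h : H) :
    D.IsExtension (f h)
      (fun x : Ext W.K L (W.H X) => St.pairing (lin hrat hf) L ((1 : L) ⊗ₜ[ℚ] h) x) := by
  refine ⟨fun l x y => ?_, fun a => ?_⟩
  · exact (map_add (St.pairing (lin hrat hf) L ((1 : L) ⊗ₜ[ℚ] h)) (l • x : L ⊗[W.K] W.H X) y).trans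
      (congrArg (· + _) (map_smul (St.pairing (lin hrat hf) L ((1 : L) ⊗ₜ[ℚ] h)) l x))
  · change St.pairing (lin hrat hf) L ((1 : L) ⊗ₜ[ℚ] h) ((1 : L) ⊗ₜ[W.K] a) = _
    rw [pairing_tmul, one_mul, lin_apply, ← algebraMap_smul L ((f h a : ℚ) : W.K) (1 : L),
      map_ratCast, smul_eq_mul, mul_one]

theorem q_eq (hrat : ∀ r : W.K, ∃ q : ℚ, (q : W.K) = r) (hf : D.IsDuality (W.gr X) f) {h : H}
    {q : Ext W.K L (W.H X) → L} (hq : D.IsExtension (f h) q) (x : Ext W.K L (W.H X)) :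
    St.pairing (lin hrat hf) L ((1 : L) ⊗ₜ[ℚ] h) x = q x :=
  extension_unique (val_ext hrat hf h) hq x

theorem p_eq (hrat : ∀ r : W.K, ∃ q : ℚ, (q : W.K) = r) (hf : D.IsDuality (W.gr X) f)
    {p : L ⊗[ℚ] H → Ext W.K L (W.H X) → L} (hp : ∀ h, D.IsExtension (f h) (p ((1 : L) ⊗ₜ[ℚ] h)))
    (hp2 : ∀ l u v x, p (l • u + v) x = l * p u x + p v x) (u : L ⊗[ℚ] H)
    (x : Ext W.K L (W.H X)) : St.pairing (lin hrat hf) L u x = p u x := by
  have h0 : p 0 x = 0 := by
    have h1 := hp2 1 0 0 x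
    rw [smul_zero, add_zero, one_mul] at h1
    exact left_eq_add.1 h1
  let A : L ⊗[ℚ] H →ₗ[L] L :=
    { toFun := fun u => p u x
      map_add' := fun u v => by
        have h1 := hp2 1 u v x
        rw [one_smul, one_mul] at h1
        exact h1
      map_smul' := fun l u => by
        have h1 := hp2 l u 0 x
        rw [add_zero, h0, add_zero] at h1
        exact h1 }
  let B : L ⊗[ℚ] H →ₗ[L] L :=
    (LinearMap.applyₗ (R := L) (show L ⊗[W.K] W.H X from x)) ∘ₗ St.pairing (lin hrat hf) L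
  have h1 : B = A := hom_ext fun h => q_eq hrat hf (hp h) x
  exact LinearMap.congr_fun h1 u

end val

section final

variable {T : HodgeTheory ops} {X : 𝒱.Obj} {H S : Type} [AddCommGroup H] [Module ℚ H]
  [AddCommGroup S] [Module ℂ S] {per : H →+ S} {f : H → T.W.H X → ℚ}

theorem homology_of [FiniteDimensional ℚ H] [FiniteDimensional T.W.K (T.W.gr X 1)]
    (hH : D.IsFirstHomology (T.W.gr X) (IsType T.pq 1 0) per f) :
    St.IsFirstHomology T X per (lin T.rat hH.1) := by
  obtain ⟨hf, q, hq, hq2⟩ := hH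
  refine ⟨fun h i hi c hc => ?_, fun h hh => lin_inj T.rat hf h hh,
    fun g => lin_surj T.rat hf g, fun x => ?_⟩
  · rw [lin_apply, hf.2.2.1 h i c hi hc, Rat.cast_zero]
  · rw [hq2 x]
    refine and_congr Iff.rfl (exists_congr fun Φ => forall_congr' fun h => ?_)
    have h1 : St.val (lin T.rat hf) ((1 : ℂ) ⊗ₜ[ℚ] h) x = q h x := q_eq T.rat hf (hq h) x
    rw [h1]

variable {K : Type} [Field K] [CharZero K] [Algebra T.W.K K] {Γ : Type} [Group Γ]
  {ρ : Representation K Γ (K ⊗[ℚ] H)} {χ : Γ →* K}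
  {g : ∀ n, Γ → HL T.W K (pw X n) → HL T.W K (pw X n)}

theorem action_of (hf : D.IsDuality (T.W.gr X) f)
    (hg : D.IsAction (A := fun n => T.W.H (pw X n)) (fun n => T.W.gr (pw X n))
      (fun n => T.W.map (fst (pw X n) X)) (fun n => T.W.map (snd (pw X n) X))
      (fun n => IsHodge T (pw X n)) g χ)
    (hd : D.IsDual (T.W.gr X) f (fun h => (1 : K) ⊗ₜ[ℚ] h) ρ (g 0)) :
    St.IsGaloisAction T X (lin T.rat hf) ρ g := by
  refine ⟨fun n s x y => ?_, fun n s c x => ?_, fun n s => ?_, fun n s x y => ?_,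
    fun n s i x hx => ?_, fun n s x => ?_, fun n s x => ?_, fun s x hx u => ?_⟩
  · exact algMap_add ((hg n).1 s) x y
  · exact algMap_smul ((hg n).1 s) c x
  · exact ((hg n).1 s).2.2.1
  · exact ((hg n).1 s).2.1 x y
  · exact ((hg n).1 s).2.2.2 i x hx
  · exact (hg n).2.1 s x
  · exact (hg n).2.2.1 s x
  · obtain ⟨p, hp, hp2, hp3⟩ := hd
    have h1 := p_eq T.rat hf hp hp2
    exact (h1 _ _).trans ((hp3 s u x hx).trans (h1 _ _).symm)

theorem tateConj_iff (n : ℕ) :
    D.TateIn (T.W.gr (pw X n)) (g n) χ (D.IsAlg T (pw X n)) ↔ St.TateConjecture g χ n := by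
  refine forall_congr' fun j => forall_congr' fun x => ?_
  refine imp_congr Iff.rfl ?_
  have h1 : {y : Ext T.W.K K (T.W.H (pw X n)) | ∃ a, D.IsAlg T (pw X n) j a ∧ extEm T.W.K K a = y} =
      {y : HL T.W K (pw X n) | ∃ z, (pw X n).IsCyc j z ∧ emL T.W K (T.W.cl (pw X n) z) = y} := by
    ext y
    constructor
    · rintro ⟨a, ⟨z, hz, rfl⟩, rfl⟩
      exact ⟨z, hz, rfl⟩
    · rintro ⟨z, hz, rfl⟩
      exact ⟨_, ⟨z, hz, rfl⟩, rfl⟩
  change x ∈ Submodule.span K {y : Ext T.W.K K (T.W.H (pw X n)) |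
    ∃ a, D.IsAlg T (pw X n) j a ∧ extEm T.W.K K a = y} ↔ _
  rw [h1]
  rfl

theorem hodgeConj_iff (Y : 𝒱.Obj) : D.HodgeConj T Y ↔ HodgeConjecture T Y := Iff.rfl

theorem pol_iff {ψ : RForm T.W X} :
    D.IsPolarisation (IsType T.pq) T.rat X.dim ψ ↔ IsPolarisation T X ψ :=
  ⟨fun h => ⟨h.1, h.2.1, h.2.2.1, h.2.2.2⟩, fun h => ⟨h.range, h.conj, h.orth, h.pos⟩⟩

/-- **The theorem.** -/
theorem square_decides_final [Algebra K ℂ] [Algebra.IsAlgebraic K ℂ]
    {ψ : Pool.Agent.N996.BP.Bil T.W.K (T.W.H X)} {E : H → H → ℚ}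
    (hψ : D.IsPolarisation (IsType T.pq) T.rat X.dim ψ)
    (hX : Pool.Agent.N996.FP.GenDim (T.W.gr X 1) (2 * X.dim)) (hE : D.IsAbelian per E)
    (hH : D.IsFirstHomology (T.W.gr X) (IsType T.pq 1 0) per f)
    (hρ : D.IsTateModule per E (fun h => (1 : K) ⊗ₜ[ℚ] h) ρ χ)
    (hg : D.IsAction (A := fun n => T.W.H (pw X n)) (fun n => T.W.gr (pw X n))
      (fun n => T.W.map (fst (pw X n) X)) (fun n => T.W.map (snd (pw X n) X))
      (fun n => IsHodge T (pw X n)) g χ)
    (hd : D.IsDual (T.W.gr X) f (fun h => (1 : K) ⊗ₜ[ℚ] h) ρ (g 0)) {N : ℕ}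
    (hN : (Pool.Agent.N996.FP.CentreSelfAdjoint (T.W.gr X 1) (T.pq X) ψ ∧ N = 2) ∨
      (Pool.Agent.N996.FP.CentreEqualTraces (T.W.gr X 1) (T.pq X) ∧ N = max 2 (2 * X.dim)) ∨
        N = max 4 (2 * X.dim ^ (2 * X.dim)))
    (hT : D.TateIn (T.W.gr (pw X (N - 1))) (g (N - 1)) χ (D.IsAlg T (pw X (N - 1)))) (n : ℕ) :
    D.TateIn (T.W.gr (pw X n)) (g n) χ (IsHodge T (pw X n)) ∧ D.HodgeConj T (pw X n) ∧
      D.TateIn (T.W.gr (pw X n)) (g n) χ (D.IsAlg T (pw X n)) := by
  have : FiniteDimensional ℚ H := hE.1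
  have h1 := square_decides (pol_iff.1 hψ) hX (av_of hE) (pol_of hE) (homology_of hH)
    (module_of hρ) (action_of hH.1 hg hd) (fun n j c hc => (hg n).2.2.2 j c hc) hN
    ((tateConj_iff _).1 hT) n
  exact ⟨h1.1, h1.2.1, (tateConj_iff n).2 h1.2.2⟩

end final

end Pool.Agent.V7H7.TP
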