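import Pool.Agent.V7H7.TP.Hod

/-!
# Rational forms and Hodge classes
-/

set_option autoImplicit false
set_option linter.unusedSectionVars false

open CategoryTheory AlgebraicGeometry TensorProduct

universe u

namespace Pool.Agent.V7H7.TP

open Module
open Pool.Agent.H914 Pool.Agent.H914.VarClass Pool.Agent.H914.VarClass.Obj
  Pool.Agent.H914.WeilCohomology Pool.Agent.Y121.AHS
open Pool.Agent.Y133.Half (pw)
open Pool.Agent.N996.FP (pr IsCoordinateMap IsPolarisation RForm conjH)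
open Pool.Agent.V7H7.MS.St (perPow)

variable {k : Type u} [Field k] {𝒱 : VarClass k} {ops : CycleOps 𝒱}

section ext

variable {H : Type} [AddCommGroup H] [Module ℚ H] {I : Type} [Fintype I] [DecidableEq I]

theorem bn_apply (b : Basis I ℚ H) (n : ℕ) (j : JJ I n) :
    (Pi.basis fun _ : Fin (n + 1) => b) j = Pi.single j.1 (b j.2) := by
  rw [Pi.basis_apply]

/-- The extension of a rational form. -/
theorem exists_ext (b : Basis I ℚ H) (n : ℕ) (L : Type) [Field L] [CharZero L] {κ : Type}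
    [Fintype κ] [DecidableEq κ] (F : (Fin (n + 1) → H) [⋀^κ]→ₗ[ℚ] ℚ) :
    ∃ φ : (Fin (n + 1) → L ⊗[ℚ] H) [⋀^κ]→ₗ[L] L, ∀ v : κ → Fin (n + 1) → H,
      φ (fun k i => (1 : L) ⊗ₜ[ℚ] v k i) = ((F v : ℚ) : L) := by
  obtain ⟨φ, hφ⟩ := alt_of' (En L b n)
    (fun g : κ → JJ I n => ((F (fun k => Pi.single (g k).1 (b (g k).2)) : ℚ) : L)) (by
      intro g σ
      have h1 := F.map_perm (fun k => Pi.single (g k).1 (b (g k).2)) σ
      have h2 : ((fun k => (Pi.single (g k).1 (b (g k).2) : Fin (n + 1) → H)) ∘ σ) =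
          fun k => Pi.single (g (σ k)).1 (b (g (σ k)).2) := rfl
      rw [h2] at h1
      rw [h1]
      rcases Int.units_eq_one_or (Equiv.Perm.sign σ) with h | h
      · rw [h]; simp
      · rw [h]; simp)
  refine ⟨φ, ?_⟩
  let em : (Fin (n + 1) → H) →ₗ[ℚ] (Fin (n + 1) → L ⊗[ℚ] H) :=
    LinearMap.pi fun i => TensorProduct.mk ℚ L H 1 ∘ₗ LinearMap.proj i
  let A₁ : MultilinearMap ℚ (fun _ : κ => Fin (n + 1) → H) L :=
    (φ.toMultilinearMap.restrictScalars ℚ).compLinearMap fun _ => em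
  let A₂ : MultilinearMap ℚ (fun _ : κ => Fin (n + 1) → H) L :=
    (Algebra.linearMap ℚ L).compMultilinearMap F.toMultilinearMap
  have h1 : A₁ = A₂ := by
    refine Basis.ext_multilinear (fun _ => Pi.basis fun _ : Fin (n + 1) => b) fun g => ?_
    have h2 : (fun k => (Pi.basis fun _ : Fin (n + 1) => b) (g k)) =
        fun k => Pi.single (g k).1 (b (g k).2) := by
      funext k
      exact bn_apply b n _
    rw [h2]
    change φ (fun k i => (1 : L) ⊗ₜ[ℚ] ((Pi.single (g k).1 (b (g k).2) : Fin (n + 1) → H) i)) =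
      algebraMap ℚ L (F _)
    have h3 : (fun k i => (1 : L) ⊗ₜ[ℚ] ((Pi.single (g k).1 (b (g k).2) : Fin (n + 1) → H) i)) =
        fun k => En L b n (g k) := by
      funext k
      exact single_tmul b n L (g k)
    rw [h3, hφ]
    rfl
  intro v
  exact congrArg (fun A => A v) h1

end ext

section cls

variable {W : WeilCohomology.{u, 0} ops} {X : 𝒱.Obj} {I : Type} [Fintype I] [DecidableEq I]
  {H : Type} [AddCommGroup H] [Module ℚ H]

/-- The class of a rational form. -/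
noncomputable def cls (a : I → W.H X) (b : Basis I ℚ H) (n m : ℕ)
    (F : (Fin (n + 1) → H) [⋀^Fin m × Fin 2]→ₗ[ℚ] ℚ) : W.H (pw X n) :=
  ∑ g : Fin m × Fin 2 → JJ I n, ((F (fun k => Pi.single (g k).1 (b (g k).2)) : ℚ) : W.K) •
    P (fun i => al a n (g (e2 m i)))

/-- The class given by the values of a function on the basis. -/
noncomputable def La (L : Type) [Field L] [Algebra W.K L] (a : I → W.H X) (b : Basis I ℚ H)
    (n m : ℕ) : ((Fin m × Fin 2 → Fin (n + 1) → H) → L) →ₗ[L] L ⊗[W.K] W.H (pw X n) where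
  toFun G := ∑ g : Fin m × Fin 2 → JJ I n, G (fun k => Pi.single (g k).1 (b (g k).2)) •
    P (fun i => bl L a n (g (e2 m i)))
  map_add' G G' := by
    rw [← Finset.sum_add_distrib]
    refine Finset.sum_congr rfl fun g _ => ?_
    rw [Pi.add_apply, add_smul]
  map_smul' c G := by
    rw [RingHom.id_apply, Finset.smul_sum]
    refine Finset.sum_congr rfl fun g _ => ?_
    rw [Pi.smul_apply, smul_eq_mul, mul_smul]

variable {L : Type} [Field L] [CharZero L] [Algebra W.K L]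

theorem La_form (a : I → W.H X) (b : Basis I ℚ H) (n m : ℕ)
    (φ : MultilinearMap L (fun _ : Fin m × Fin 2 => Fin (n + 1) → L ⊗[ℚ] H) L) :
    La L a b n m (fun v => φ (fun k i => (1 : L) ⊗ₜ[ℚ] v k i)) =
      Th (e2 m) φ (En L b n) (bl L a n) := by
  refine Finset.sum_congr rfl fun g _ => ?_
  congr 1
  change φ (fun k i => (1 : L) ⊗ₜ[ℚ] ((Pi.single (g k).1 (b (g k).2) : Fin (n + 1) → H) i)) = _
  congr 1
  funext k
  exact single_tmul b n L (g k)

theorem La_cls (a : I → W.H X) (b : Basis I ℚ H) (n m : ℕ)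
    (F : (Fin (n + 1) → H) [⋀^Fin m × Fin 2]→ₗ[ℚ] ℚ) :
    La L a b n m (fun v => ((F v : ℚ) : L)) = (1 : L) ⊗ₜ[W.K] cls a b n m F := by
  unfold cls
  rw [TensorProduct.tmul_sum]
  refine Finset.sum_congr rfl fun g _ => ?_
  have h : ∀ (q : ℚ) (y : L ⊗[W.K] W.H (pw X n)), ((q : ℚ) : W.K) • y = ((q : ℚ) : L) • y := by
    intro q y
    rw [← algebraMap_smul L ((q : ℚ) : W.K) y, map_ratCast]
  rw [TensorProduct.tmul_smul, ← P_em, h]
  rfl

theorem P_gr {Y : 𝒱.Obj} {r : ℕ} (x : Fin r → W.H Y) (hx : ∀ i, x i ∈ W.gr Y 1) :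
    P x ∈ W.gr Y r := by
  have h1 := list_mem (List.ofFn x) (fun y hy => by
    obtain ⟨i, rfl⟩ := (List.mem_ofFn' _ _).1 hy
    exact hx i)
  rwa [List.length_ofFn] at h1

theorem cls_gr {f : H →+ (W.H X →ₗ[W.K] W.K)} {a : I → W.H X} {b : Basis I ℚ H}
    (ha : IsDual f b a) (n m : ℕ)
    (F : (Fin (n + 1) → H) [⋀^Fin m × Fin 2]→ₗ[ℚ] ℚ) :
    cls a b n m F ∈ W.gr (pw X n) (2 * m) := by
  unfold cls
  exact Submodule.sum_mem _ fun g _ => Submodule.smul_mem _ _ (P_gr _ fun i => al_mem ha.mem n _)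

/-- All rational classes are given by rational forms. -/
theorem exists_cls {f : H →+ (W.H X →ₗ[W.K] W.K)} (hrat : ∀ r : W.K, ∃ q : ℚ, (q : W.K) = r)
    {a : I → W.H X} {b : Basis I ℚ H} (ha : IsDual f b a)
    (hgen : Algebra.adjoin W.K (W.gr X 1 : Set (W.H X)) = ⊤) {n m : ℕ} {c : W.H (pw X n)}
    (hc : c ∈ W.gr (pw X n) (2 * m)) :
    ∃ F : (Fin (n + 1) → H) [⋀^Fin m × Fin 2]→ₗ[ℚ] ℚ, cls a b n m F = c := by
  classical
  obtain ⟨c', hc'⟩ := (Submodule.mem_span_range_iff_exists_fun W.K).1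
    (gr_span ha.mem ha.span hgen n (2 * m) hc)
  choose q hq using fun h => hrat (c' h)
  let q' : (Fin m × Fin 2 → JJ I n) → ℚ := fun g => q fun i => g (e2 m i)
  obtain ⟨F1, hF1⟩ := alt_of (Pi.basis fun _ : Fin (n + 1) => b) q'
  let N : ℕ := (Fintype.card (Fin m × Fin 2)).factorial
  have hN : (N : ℚ) ≠ 0 := Nat.cast_ne_zero.2 (Nat.factorial_ne_zero _)
  have hN' : (N : W.K) ≠ 0 := Nat.cast_ne_zero.2 (Nat.factorial_ne_zero _)
  refine ⟨(N : ℚ)⁻¹ • F1, ?_⟩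
  have h1 : ∀ g : Fin m × Fin 2 → JJ I n,
      ((((N : ℚ)⁻¹ • F1) (fun k => Pi.single (g k).1 (b (g k).2)) : ℚ) : W.K) =
        (N : W.K)⁻¹ * ∑ σ : Equiv.Perm (Fin m × Fin 2), ((Equiv.Perm.sign σ : ℤ) : W.K) *
          ((q' (fun k => g (σ k)) : ℚ) : W.K) := by
    intro g
    have h2 : (fun k => (Pi.basis fun _ : Fin (n + 1) => b) (g k)) =
        fun k => Pi.single (g k).1 (b (g k).2) := by
      funext k
      exact bn_apply b n _
    have h3 := hF1 g
    rw [h2] at h3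
    have h4 : ((N : ℚ)⁻¹ • F1) (fun k => Pi.single (g k).1 (b (g k).2)) =
        (N : ℚ)⁻¹ * F1 (fun k => Pi.single (g k).1 (b (g k).2)) := rfl
    rw [h4, h3]
    push_cast
    rfl
  unfold cls
  simp_rw [h1, mul_smul]
  rw [← Finset.smul_sum]
  have h5 := asum (L := W.K) (e2 m) (al_anti ha.mem n)
    (fun g : Fin m × Fin 2 → JJ I n => ((q' g : ℚ) : W.K))
  have h6 : (N : W.K)⁻¹ • ∑ g : Fin m × Fin 2 → JJ I n,
      (∑ σ : Equiv.Perm (Fin m × Fin 2), ((Equiv.Perm.sign σ : ℤ) : W.K) *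
        ((q' (fun k => g (σ k)) : ℚ) : W.K)) • P (fun i => al a n (g (e2 m i))) =
      ∑ g : Fin m × Fin 2 → JJ I n, ((q' g : ℚ) : W.K) • P (fun i => al a n (g (e2 m i))) := by
    rw [h5, smul_smul]
    change ((N : W.K)⁻¹ * (N : W.K)) • _ = _
    rw [inv_mul_cancel₀ hN', one_smul]
  rw [h6, ← hc', ← Equiv.sum_comp (Equiv.arrowCongr (e2 m).symm (Equiv.refl (JJ I n)))
    (fun h : Fin (2 * m) → JJ I n => c' h • P (fun k => al a n (h k)))]
  refine Finset.sum_congr rfl fun g _ => ?_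
  have h7 : ((q' g : ℚ) : W.K) = c' (Equiv.arrowCongr (e2 m).symm (Equiv.refl (JJ I n)) g) :=
    hq _
  rw [h7]
  rfl

end cls

section hodge

variable {T : HodgeTheory ops} {X : 𝒱.Obj} {I : Type} [Fintype I] [DecidableEq I]
  {H S : Type} [AddCommGroup H] [Module ℚ H] [AddCommGroup S] [Module ℂ S]
  {per : H →+ S} {f : H →+ (T.W.H X →ₗ[T.W.K] T.W.K)} {b : Basis I ℚ H} {a : I → T.W.H X}
  {R : Basis I ℝ S} {J₀ : Type} [Fintype J₀] (τ : Basis J₀ ℂ S)
  {ψ : RForm T.W X}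

include τ in
/-- **Hodge forms have Hodge classes.** -/
theorem hodge_cls (hψ : IsPolarisation T X ψ)
    (hH : St.IsFirstHomology T X per f) (ha : IsDual f b a) (hR : ∀ j, R j = per (b j)) {n m : ℕ}
    {F : (Fin (n + 1) → H) [⋀^Fin m × Fin 2]→ₗ[ℚ] ℚ}
    (hF : Pool.Agent.H204R3.CM.IsHodge (perPow per (n + 1)) F) :
    IsHodge T (pw X n) m (cls a b n m F) := by
  refine ⟨cls_gr ha n m F, ?_⟩
  obtain ⟨φ, hφ⟩ := exists_ext b n ℂ F
  have h1 : (1 : ℂ) ⊗ₜ[T.W.K] cls a b n m F =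
      Th (e2 m) φ.toMultilinearMap (En ℂ b n) (bl ℂ a n) := by
    rw [← La_cls (L := ℂ), ← La_form (L := ℂ)]
    congr 1
    funext v
    exact (hφ v).symm
  change (1 : ℂ) ⊗ₜ[T.W.K] cls a b n m F ∈ pt T (pw X n) m m
  rw [h1]
  exact type_of_bal (τ := τ) hψ hH ha hR n m _ fun g hg => bal_of_hodge b R τ n hR hφ hF hg

include τ in
/-- **Hodge classes are given by Hodge forms.** -/
theorem exists_hodge (hψ : IsPolarisation T X ψ)
    (hH : St.IsFirstHomology T X per f) (ha : IsDual f b a) (hR : ∀ j, R j = per (b j))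
    (hgen : Algebra.adjoin T.W.K (T.W.gr X 1 : Set (T.W.H X)) = ⊤) {n m : ℕ}
    (ht : Top (al a n)) (hc : Fintype.card I = 2 * Fintype.card J₀)
    {c : T.W.H (pw X n)} (hcH : IsHodge T (pw X n) m c) :
    ∃ F : (Fin (n + 1) → H) [⋀^Fin m × Fin 2]→ₗ[ℚ] ℚ,
      Pool.Agent.H204R3.CM.IsHodge (perPow per (n + 1)) F ∧ cls a b n m F = c := by
  obtain ⟨F, rfl⟩ := exists_cls T.rat ha hgen (b := b) hcH.1
  refine ⟨F, ?_, rfl⟩
  obtain ⟨φ, hφ⟩ := exists_ext b n ℂ F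
  have h1 : (1 : ℂ) ⊗ₜ[T.W.K] cls a b n m F =
      Th (e2 m) φ.toMultilinearMap (En ℂ b n) (bl ℂ a n) := by
    rw [← La_cls (L := ℂ), ← La_form (L := ℂ)]
    congr 1
    funext v
    exact (hφ v).symm
  have h2 : (1 : ℂ) ⊗ₜ[T.W.K] cls a b n m F ∈ pt T (pw X n) m m := hcH.2
  rw [h1] at h2
  exact hodge_of_bal (φ := φ.toMultilinearMap) b R τ n hR hφ
    fun g hg => bal_of_type hψ hH ha hR ht hc φ h2 g hg

end hodge

end Pool.Agent.V7H7.TP
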