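import Pool.Agent.V7H7.TP.Form
import Pool.Agent.N996.FP.Defs
import Pool.Agent.N996.FP.Geo1

/-!
# The cohomology of the powers of a variety with cohomology generated in degree one
-/

set_option autoImplicit false
set_option linter.unusedSectionVars false

open CategoryTheory AlgebraicGeometry TensorProduct

universe u

namespace Pool.Agent.V7H7.TP

open Module
open Pool.Agent.H914 Pool.Agent.H914.VarClass Pool.Agent.H914.VarClass.Obj
  Pool.Agent.H914.WeilCohomology
open Pool.Agent.Y133.Half (pw)
open Pool.Agent.N996.FP (pr)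

variable {k : Type u} [Field k] {𝒱 : VarClass k} {ops : CycleOps 𝒱}
  {W : WeilCohomology.{u, 0} ops} {X : 𝒱.Obj} {I : Type} [Fintype I]

/-- The index set of the classes of degree one on the product of `n + 1` copies. -/
abbrev JJ (I : Type) (n : ℕ) : Type := (_ : Fin (n + 1)) × I

/-- The classes of degree one on the powers. -/
noncomputable def al (a : I → W.H X) (n : ℕ) (j : JJ I n) : W.H (pw X n) :=
  W.map (pr X n j.1) (a j.2)

theorem al_mem {a : I → W.H X} (ha : ∀ i, a i ∈ W.gr X 1) (n : ℕ) (j : JJ I n) :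
    al a n j ∈ W.gr (pw X n) 1 := W.map_mem _ (ha _)

theorem al_anti {a : I → W.H X} (ha : ∀ i, a i ∈ W.gr X 1) (n : ℕ) : Anti (al a n) := by
  intro i j
  rw [W.comm (al_mem ha n i) (al_mem ha n j)]
  simp

theorem pr_le (X : 𝒱.Obj) {n i : ℕ} (h : i ≤ n) :
    pr X (n + 1) i = fst (pw X n) X ≫ pr X n i := if_pos h

theorem pr_gt (X : 𝒱.Obj) {n i : ℕ} (h : ¬ i ≤ n) : pr X (n + 1) i = snd (pw X n) X := if_neg h

theorem al_castSucc (a : I → W.H X) (n : ℕ) (j : JJ I n) :
    al a (n + 1) ⟨j.1.castSucc, j.2⟩ = W.map (fst (pw X n) X) (al a n j) :=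
  (congrArg (fun g : pw X (n + 1) ⟶ X => W.map g (a j.2))
    (pr_le X (i := (j.1.castSucc : Fin (n + 2))) (by
      have := j.1.2
      rw [Fin.val_castSucc]
      omega))).trans (W.map_comp (fst (pw X n) X) (pr X n j.1) (a j.2))

theorem al_last (a : I → W.H X) (n : ℕ) (i : I) :
    al a (n + 1) ⟨Fin.last (n + 1), i⟩ = W.map (snd (pw X n) X) (a i) :=
  congrArg (fun g : pw X (n + 1) ⟶ X => W.map g (a i))
    (pr_gt X (i := (Fin.last (n + 1) : Fin (n + 2))) (by
      rw [Fin.val_last]
      omega))

theorem adjoin_range {a : I → W.H X} (hspan : W.gr X 1 = Submodule.span W.K (Set.range a))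
    (hgen : Algebra.adjoin W.K (W.gr X 1 : Set (W.H X)) = ⊤) :
    Algebra.adjoin W.K (Set.range a) = ⊤ := by
  rw [← Algebra.adjoin_span, ← hspan, hgen]

theorem map_mem_adjoin {Y Z : 𝒱.Obj} (g : Y ⟶ Z) {s : Set (W.H Z)} {t : Set (W.H Y)}
    (hst : ∀ x ∈ s, W.map g x ∈ t) {c : W.H Z} (hc : c ∈ Algebra.adjoin W.K s) :
    W.map g c ∈ Algebra.adjoin W.K t := by
  induction hc using Algebra.adjoin_induction with
  | mem x hx => exact Algebra.subset_adjoin (hst x hx)
  | algebraMap r => rw [AlgHom.commutes]; exact Subalgebra.algebraMap_mem _ r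
  | add x y _ _ hx hy => rw [map_add]; exact add_mem hx hy
  | mul x y _ _ hx hy => rw [map_mul]; exact mul_mem hx hy

theorem range_al_zero (a : I → W.H X) : (Set.range (al a 0) : Set (W.H X)) = Set.range a := by
  ext c
  constructor
  · rintro ⟨j, rfl⟩
    exact ⟨j.2, (W.map_id X (a j.2)).symm⟩
  · rintro ⟨i, rfl⟩
    exact ⟨⟨0, i⟩, W.map_id X (a i)⟩

theorem adjoin_al {a : I → W.H X} (hspan : W.gr X 1 = Submodule.span W.K (Set.range a))
    (hgen : Algebra.adjoin W.K (W.gr X 1 : Set (W.H X)) = ⊤) (n : ℕ) :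
    ∀ c : W.H (pw X n), c ∈ Algebra.adjoin W.K (Set.range (al a n)) := by
  induction n with
  | zero =>
    have h1 : Algebra.adjoin W.K (Set.range (al a 0) : Set (W.H X)) = ⊤ := by
      rw [range_al_zero]
      exact adjoin_range hspan hgen
    intro c
    have h2 : (show W.H X from c) ∈ Algebra.adjoin W.K (Set.range (al a 0) : Set (W.H X)) := by
      rw [h1]; trivial
    exact h2
  | succ n ih =>
    intro c
    refine W.kunneth_induction (X := pw X n) (Y := X)
      (p := fun c => c ∈ Algebra.adjoin W.K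
        (show Set (W.H ((pw X n).prod X)) from Set.range (al a (n + 1)))) ?_ ?_ c
    · intro c d hc hd
      exact add_mem hc hd
    · intro i j c _ d _
      refine mul_mem ?_ ?_
      · refine map_mem_adjoin (fst (pw X n) X) (s := Set.range (al a n)) ?_ (ih c)
        rintro x ⟨j, rfl⟩
        exact ⟨⟨j.1.castSucc, j.2⟩, al_castSucc a n j⟩
      · have h1 : d ∈ Algebra.adjoin W.K (Set.range a) := by
          rw [adjoin_range hspan hgen]; trivial
        refine map_mem_adjoin (snd (pw X n) X) (s := Set.range a) ?_ h1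
        rintro x ⟨i, rfl⟩
        exact ⟨⟨Fin.last (n + 1), i⟩, al_last a n i⟩

theorem list_mem {Y : 𝒱.Obj} (l : List (W.H Y)) (h : ∀ x ∈ l, x ∈ W.gr Y 1) :
    l.prod ∈ W.gr Y l.length := by
  induction l with
  | nil => rw [List.prod_nil]; exact W.one_mem Y
  | cons a l ih =>
    rw [List.prod_cons, List.length_cons, add_comm]
    exact W.mul_mem (h a (List.mem_cons_self ..)) (ih fun x hx => h x (List.mem_cons_of_mem _ hx))

/-- The classes of degree `r` are combinations of products of `r` classes of degree one. -/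
theorem gr_span {a : I → W.H X} (ha : ∀ i, a i ∈ W.gr X 1)
    (hspan : W.gr X 1 = Submodule.span W.K (Set.range a))
    (hgen : Algebra.adjoin W.K (W.gr X 1 : Set (W.H X)) = ⊤) (n r : ℕ) :
    W.gr (pw X n) r ≤ Submodule.span W.K
      (Set.range fun f : Fin r → JJ I n => P (fun k => al a n (f k))) := by
  intro c hc
  have h1 : c ∈ Subalgebra.toSubmodule (Algebra.adjoin W.K (Set.range (al a n))) :=
    adjoin_al hspan hgen n c
  rw [Algebra.adjoin_eq_span] at h1
  have key : ∀ x ∈ Submodule.span W.K
      (Submonoid.closure (Set.range (al a n)) : Set (W.H (pw X n))),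
      proj (W.isInternal (pw X n)) r x ∈ Submodule.span W.K
        (Set.range fun f : Fin r → JJ I n => P (fun k => al a n (f k))) := by
    intro x hx
    induction hx using Submodule.span_induction with
    | mem x hx =>
      obtain ⟨l, hl, rfl⟩ := Submonoid.exists_list_of_mem_closure hx
      have h2 := list_mem l (fun x hx => by
        obtain ⟨j, rfl⟩ := hl x hx
        exact al_mem ha n j)
      by_cases hr : l.length = r
      · subst hr
        rw [proj_same _ h2]
        choose g hg using fun i : Fin l.length => hl (l.get i) (List.get_mem _ _)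
        refine Submodule.subset_span ⟨g, ?_⟩
        change P (fun k => al a n (g k)) = l.prod
        rw [P]
        congr 1
        have h3 : (fun k => al a n (g k)) = l.get := by
          funext k
          exact hg k
        rw [h3, List.ofFn_get]
      · rw [proj_ne _ h2 hr]
        exact Submodule.zero_mem _
    | zero => rw [map_zero]; exact Submodule.zero_mem _
    | add x y _ _ hx hy => rw [map_add]; exact Submodule.add_mem _ hx hy
    | smul c x _ hx => rw [map_smul]; exact Submodule.smul_mem _ _ hx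
  have h2 := key c h1
  rwa [proj_same _ hc] at h2

theorem dim_pw (X : 𝒱.Obj) (n : ℕ) : (pw X n).dim = (n + 1) * X.dim := by
  induction n with
  | zero => change X.dim = _; rw [zero_add, one_mul]
  | succ n ih =>
    change ((pw X n).prod X).dim = _
    rw [Obj.dim_prod, ih]
    ring

/-- The product of all classes of degree one is not zero. -/
theorem al_top {a : I → W.H X} (ha : ∀ i, a i ∈ W.gr X 1)
    (hspan : W.gr X 1 = Submodule.span W.K (Set.range a))
    (hgen : Algebra.adjoin W.K (W.gr X 1 : Set (W.H X)) = ⊤)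
    (hI : Fintype.card I = 2 * X.dim) (n : ℕ) [Nontrivial (W.H (pw X n))] :
    Top (al a n) := by
  classical
  have hgen' : Algebra.adjoin W.K (W.gr (pw X n) 1 : Set (W.H (pw X n))) = ⊤ := by
    rw [eq_top_iff]
    intro c _
    refine Algebra.adjoin_mono ?_ (adjoin_al hspan hgen n c)
    rintro x ⟨j, rfl⟩
    exact al_mem ha n j
  obtain ⟨v, hv, hv0⟩ := Pool.Agent.N996.FP.Geo.exists_topc hgen'
  have h1 : ∀ i, ∃ c : JJ I n → W.K, v i = ∑ j, c j • al a n j := by
    intro i
    have h2 := gr_span ha hspan hgen n 1 (hv i)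
    have h3 : Submodule.span W.K
        (Set.range fun f : Fin 1 → JJ I n => P (fun k => al a n (f k))) ≤
        Submodule.span W.K (Set.range (al a n)) := by
      refine Submodule.span_mono ?_
      rintro x ⟨f, rfl⟩
      refine ⟨f 0, ?_⟩
      change _ = P (fun k => al a n (f k))
      rw [P_succ, P_zero, mul_one]
    obtain ⟨c, hc⟩ := (Submodule.mem_span_range_iff_exists_fun W.K).1 (h3 h2)
    exact ⟨c, hc.symm⟩
  choose c hc using h1
  have h2 : P v = ∑ f : Fin (2 * (pw X n).dim) → JJ I n, (∏ k, c k (f k)) •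
      P (fun k => al a n (f k)) := by
    rw [← P_expand c (al a n)]
    congr 1
    funext i
    exact hc i
  by_contra hcon
  apply hv0
  change P v = 0
  rw [h2]
  refine Finset.sum_eq_zero fun f _ => ?_
  have h3 : P (fun k => al a n (f k)) = 0 := by
    by_contra h4
    refine hcon ⟨_, f, ?_, h4⟩
    rw [Fintype.card_sigma, Finset.sum_const, Finset.card_univ, Fintype.card_fin, hI, dim_pw,
      smul_eq_mul]
    ring
  rw [h3, smul_zero]

end Pool.Agent.V7H7.TP
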