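import Pool.Agent.N996.FP.Defs
import Pool.Agent.V7H7.MS.Stm

/-!
# Abelian varieties in a Hodge theory, Galois actions and Tate classes on the powers

`𝒱` is the class of smooth projective varieties over an algebraically closed subfield of `ℂ`, `T` is
their singular cohomology with rational coefficients, with its Hodge structure, and `K = ℚ_ℓ`. By the
comparison theorem the `ℓ`-adic cohomology of a variety `Y` is `K ⊗ H(Y, ℚ)`, in symbols
`HL T.W K Y`. `X` is an abelian variety with an equation over a number field with Galois group `Γ`, and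
`pw X n` is the product of `n + 1` copies of `X`.

The first homology of `X` over `ℚ` is `H`, its tangent space is `S` and the period map is
`per : H → S`, as in `Pool.Agent.Y90.Stm`.
-/

open CategoryTheory AlgebraicGeometry TensorProduct

universe u

namespace Pool.Agent.V7H7.TP.St

open Pool.Agent.H914 Pool.Agent.H914.VarClass Pool.Agent.H914.VarClass.Obj
  Pool.Agent.H914.WeilCohomology Pool.Agent.Y121.AHS
open Pool.Agent.Y133.Half (pw)
open Pool.Agent.N996.FP (IsCoordinateMap)

variable {k : Type u} [Field k] {𝒱 : VarClass k} {ops : CycleOps 𝒱}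

/-- The linear forms on the cohomology of `X` with coefficients in `L` which are given by the elements
of `L ⊗ H`, if those of `H` give linear forms on the rational cohomology: the form given by `l ⊗ h` has
the value `l m f h c` at `m ⊗ c`. -/
noncomputable def pairing {W : WeilCohomology.{u, 0} ops} {X : 𝒱.Obj} {H : Type} [AddCommGroup H]
    [Module ℚ H] (f : H →+ (W.H X →ₗ[W.K] W.K)) (L : Type) [Field L] [CharZero L] [Algebra W.K L] :
    (L ⊗[ℚ] H) →ₗ[L] (L ⊗[W.K] W.H X →ₗ[L] L) :=
  LinearMap.liftBaseChange L (AddMonoidHom.toRatLinearMap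
    { toFun := fun h => (TensorProduct.AlgebraTensorModule.rid W.K L L).toLinearMap ∘ₗ
        (f h).baseChange L
      map_zero' := by
        rw [map_zero, LinearMap.baseChange_zero, LinearMap.comp_zero]
      map_add' := fun a b => by
        rw [map_add, LinearMap.baseChange_add, LinearMap.comp_add] })

/-- The value of the element `u` of `L ⊗ H` at the class `x` in the cohomology of `X` with
coefficients in `L`. -/
noncomputable def val {W : WeilCohomology.{u, 0} ops} {X : 𝒱.Obj} {H : Type} [AddCommGroup H]
    [Module ℚ H] (f : H →+ (W.H X →ₗ[W.K] W.K)) {L : Type} [Field L] [CharZero L] [Algebra W.K L]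
    (u : L ⊗[ℚ] H) (x : HL W L X) : L :=
  pairing f L u (show L ⊗[W.K] W.H X from x)

/-- `H` is the first homology of the abelian variety `X`, with the period map `per : H → S` to the
tangent space: `f` gives the values of the classes of degree one on the elements of `H` (and is zero on
the classes of other degrees), this is a duality of rational vector spaces, and the classes of type
`(1, 0)` (the holomorphic one-forms) are the classes of degree one which are complex linear forms of the
periods. -/
structure IsFirstHomology (T : HodgeTheory ops) (X : 𝒱.Obj) {H S : Type} [AddCommGroup H]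
    [Module ℚ H] [AddCommGroup S] [Module ℂ S] (per : H →+ S)
    (f : H →+ (T.W.H X →ₗ[T.W.K] T.W.K)) : Prop where
  degree : ∀ h i, i ≠ 1 → ∀ c ∈ T.W.gr X i, f h c = 0
  injective : ∀ h, (∀ c ∈ T.W.gr X 1, f h c = 0) → h = 0
  surjective : ∀ g : T.W.H X →ₗ[T.W.K] T.W.K, ∃ h, ∀ c ∈ T.W.gr X 1, f h c = g c
  holomorphic : ∀ x : HL T.W ℂ X, IsType T.pq 1 0 x ↔
    IsDeg 1 x ∧ ∃ Φ : S →ₗ[ℂ] ℂ, ∀ h, val f ((1 : ℂ) ⊗ₜ[ℚ] h) x = Φ (per h)

/-- `act` is the action of the Galois group `Γ` on the cohomology of the powers of `X` with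
coefficients in `K = ℚ_ℓ`: it respects the structure of a graded `K`-algebra and commutes with
pull-backs along coordinate maps, and on the cohomology of degree one of `X` it is dual to the
action `ρ` on the Tate module `K ⊗ H`. -/
structure IsGaloisAction (T : HodgeTheory ops) (X : 𝒱.Obj) {H : Type} [AddCommGroup H] [Module ℚ H]
    (f : H →+ (T.W.H X →ₗ[T.W.K] T.W.K)) {K : Type} [Field K] [CharZero K] [Algebra T.W.K K]
    {Γ : Type} [Group Γ] (ρ : Representation K Γ (K ⊗[ℚ] H))
    (act : ∀ n, Γ → HL T.W K (pw X n) → HL T.W K (pw X n)) : Prop where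
  add : ∀ n s x y, act n s (x + y) = act n s x + act n s y
  smul : ∀ n s (c : K) x, act n s (smL c x) = smL c (act n s x)
  one : ∀ n s, act n s (emL T.W K 1) = emL T.W K 1
  mul : ∀ n s x y, act n s (mulL x y) = mulL (act n s x) (act n s y)
  degree : ∀ n s i x, IsDeg i x → IsDeg i (act n s x)
  fst : ∀ n s x, act (n + 1) s (mapL (fst (pw X n) X) x) = mapL (fst (pw X n) X) (act n s x)
  snd : ∀ n s x, act (n + 1) s (mapL (snd (pw X n) X) x) = mapL (snd (pw X n) X) (act 0 s x)
  dual : ∀ s (x : HL T.W K X), IsDeg 1 x → ∀ u, val f (ρ s u) (act 0 s x) = val f u x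

variable {T : HodgeTheory ops} {X : 𝒱.Obj} {K : Type} [Field K] [Algebra T.W.K K] {Γ : Type}
  [Group Γ]

/-- The class `x` in `H^(2j)` of the product of `n + 1` copies of `X` is a Tate class: a subgroup of
finite index fixes it, if the twist is taken into account. -/
def IsTate (act : ∀ n, Γ → HL T.W K (pw X n) → HL T.W K (pw X n)) (χ : Γ → K) (n j : ℕ)
    (x : HL T.W K (pw X n)) : Prop :=
  IsDeg (2 * j) x ∧ ∃ Δ : Subgroup Γ, Δ.FiniteIndex ∧ ∀ s ∈ Δ, smL (χ s ^ j) (act n s x) = x

/-- The Tate conjecture for the product of `n + 1` copies of `X`: all Tate classes are `K`-linear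
combinations of classes of algebraic cycles. -/
def TateConjecture (act : ∀ n, Γ → HL T.W K (pw X n) → HL T.W K (pw X n)) (χ : Γ → K) (n : ℕ) :
    Prop :=
  ∀ j x, IsTate act χ n j x → x ∈ Submodule.span K {y : HL T.W K (pw X n) |
    ∃ z, (pw X n).IsCyc j z ∧ emL T.W K (T.W.cl (pw X n) z) = y}

/-- All Tate classes on the product of `n + 1` copies of `X` are `K`-linear combinations of Hodge
classes. -/
def TateInHodge (act : ∀ n, Γ → HL T.W K (pw X n) → HL T.W K (pw X n)) (χ : Γ → K) (n : ℕ) :
    Prop :=
  ∀ j x, IsTate act χ n j x → x ∈ Submodule.span K {y : HL T.W K (pw X n) |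
    ∃ c, IsHodge T (pw X n) j c ∧ emL T.W K c = y}

/-- All Hodge classes on the powers of `X` are Tate classes (a theorem of Deligne for abelian
varieties). -/
def HodgeIsTate (act : ∀ n, Γ → HL T.W K (pw X n) → HL T.W K (pw X n)) (χ : Γ → K) : Prop :=
  ∀ n j c, IsHodge T (pw X n) j c → IsTate act χ n j (emL T.W K c)

end Pool.Agent.V7H7.TP.St
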