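import Pool.Agent.V7H7.TP.Coh
import Pool.Agent.V7H7.TP.Stm

/-!
# Extended coefficients
-/

set_option autoImplicit false
set_option linter.unusedSectionVars false

open CategoryTheory AlgebraicGeometry TensorProduct

universe u

namespace Pool.Agent.V7H7.TP

open Module
open Pool.Agent.H914 Pool.Agent.H914.VarClass Pool.Agent.H914.VarClass.Obj
  Pool.Agent.H914.WeilCohomology Pool.Agent.Y121.AHS
open Pool.Agent.Y133.Half (pw)
open Pool.Agent.N996.FP (pr)

variable {k : Type u} [Field k] {𝒱 : VarClass k} {ops : CycleOps 𝒱}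
  {W : WeilCohomology.{u, 0} ops} {X : 𝒱.Obj} {I : Type} [Fintype I]
  {L : Type} [Field L] [CharZero L] [Algebra W.K L]

/-- The pull-back with extended coefficients, as a homomorphism of algebras. -/
noncomputable def mB (L : Type) [Field L] [Algebra W.K L] {Y Z : 𝒱.Obj} (g : Y ⟶ Z) :
    L ⊗[W.K] W.H Z →ₐ[L] L ⊗[W.K] W.H Y := mapBase L (W.map g)

theorem mB_eq {Y Z : 𝒱.Obj} (g : Y ⟶ Z) (x : L ⊗[W.K] W.H Z) :
    mB L g x = (show L ⊗[W.K] W.H Y from mapL (W := W) (L := L) g x) := rfl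

theorem mB_tmul {Y Z : 𝒱.Obj} (g : Y ⟶ Z) (l : L) (c : W.H Z) :
    mB L g (l ⊗ₜ[W.K] c) = l ⊗ₜ[W.K] (W.map g c) := Algebra.TensorProduct.map_tmul _ _ _ _

theorem mB_comp {Y Z U : 𝒱.Obj} (f : Y ⟶ Z) (g : Z ⟶ U) (x : L ⊗[W.K] W.H U) :
    mB L (f ≫ g) x = mB L f (mB L g x) :=
  (baseW W L).map_comp f g x

theorem mB_id {Y : 𝒱.Obj} (x : L ⊗[W.K] W.H Y) : mB L (𝟙 Y) x = x :=
  (baseW W L).map_id Y x

/-- The degree. -/
def dg {Y : 𝒱.Obj} (r : ℕ) (x : L ⊗[W.K] W.H Y) : Prop := x ∈ (W.gr Y r).baseChange L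

theorem mapL_add {Y Z : 𝒱.Obj} (f : Y ⟶ Z) (x y : HL W L Z) :
    mapL f (x + y) = mapL f x + mapL f y :=
  map_add ((baseW W L).map f) x y

theorem mapL_smul {Y Z : 𝒱.Obj} (f : Y ⟶ Z) (c : L) (x : HL W L Z) :
    mapL f (c • x) = c • mapL f x :=
  map_smul ((W.map f).toLinearMap.baseChange L) c x

theorem mapL_sum {Y Z : 𝒱.Obj} (f : Y ⟶ Z) {ι : Type} (s : Finset ι) (x : ι → HL W L Z) :
    mapL f (∑ i ∈ s, x i) = ∑ i ∈ s, mapL f (x i) :=
  map_sum ((W.map f).toLinearMap.baseChange L) x s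

theorem mapL_comp {Y Z U : 𝒱.Obj} (f : Y ⟶ Z) (g : Z ⟶ U) (x : HL W L U) :
    mapL (f ≫ g) x = mapL f (mapL g x) :=
  (baseW W L).map_comp f g x

theorem mapL_id {Y : 𝒱.Obj} (x : HL W L Y) : mapL (𝟙 Y) x = x :=
  (baseW W L).map_id Y x

theorem mapL_deg {Y Z : 𝒱.Obj} (f : Y ⟶ Z) {i : ℕ} {x : HL W L Z} (hx : IsDeg i x) :
    IsDeg i (mapL f x) :=
  (baseW W L).map_mem f hx

theorem mB_deg {Y Z : 𝒱.Obj} (g : Y ⟶ Z) {i : ℕ} {x : L ⊗[W.K] W.H Z} (hx : dg i x) :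
    dg i (mB L g x) :=
  (baseW W L).map_mem g hx

theorem tmul_deg {Y : 𝒱.Obj} {i : ℕ} {c : W.H Y} (hc : c ∈ W.gr Y i) :
    dg i ((1 : L) ⊗ₜ[W.K] c) :=
  Submodule.tmul_mem_baseChange_of_mem _ hc

/-- The product of classes of degree one. -/
theorem P_deg {Y : 𝒱.Obj} {r : ℕ} (x : Fin r → L ⊗[W.K] W.H Y) (hx : ∀ i, dg 1 (x i)) :
    dg r (P x) := by
  induction r with
  | zero =>
    rw [P_zero]
    exact (baseW W L).one_mem Y
  | succ r ih =>
    rw [P_succ]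
    have h1 : dg (1 + r) (x 0 * P fun i => x i.succ) :=
      (baseW W L).mul_mem (hx 0) (ih _ fun i => hx i.succ)
    have h2 : ∀ (p q : ℕ) (y : L ⊗[W.K] W.H Y), p = q → dg p y → dg q y := by
      rintro p q y rfl h
      exact h
    exact h2 _ _ _ (add_comm 1 r) h1

/-- The classes of degree one on the powers, with extended coefficients. -/
noncomputable def bl (L : Type) [Field L] [Algebra W.K L] (a : I → W.H X) (n : ℕ) (j : JJ I n) :
    L ⊗[W.K] W.H (pw X n) := (1 : L) ⊗ₜ[W.K] al a n j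

theorem bl_deg {a : I → W.H X} (ha : ∀ i, a i ∈ W.gr X 1) (n : ℕ) (j : JJ I n) :
    dg 1 (bl L a n j) := tmul_deg (al_mem ha n j)

theorem bl_anti {a : I → W.H X} (ha : ∀ i, a i ∈ W.gr X 1) (n : ℕ) : Anti (bl L a n) := by
  intro i j
  unfold bl
  rw [Algebra.TensorProduct.tmul_mul_tmul, Algebra.TensorProduct.tmul_mul_tmul,
    al_anti ha n i j, TensorProduct.tmul_neg]

theorem P_em {Y : 𝒱.Obj} {r : ℕ} (x : Fin r → W.H Y) :
    P (fun k => (1 : L) ⊗ₜ[W.K] x k) = (1 : L) ⊗ₜ[W.K] P x := by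
  refine (P_map (fun y : W.H Y => ((1 : L) ⊗ₜ[W.K] y : L ⊗[W.K] W.H Y)) rfl ?_ x).symm
  intro y z
  rw [Algebra.TensorProduct.tmul_mul_tmul, one_mul]

theorem bl_top {a : I → W.H X} {n : ℕ} (ht : Top (al a n)) : Top (bl L a n) := by
  obtain ⟨r, f, hr, hf⟩ := ht
  refine ⟨r, f, hr, fun h => hf (tmul_injective (K := W.K) (L := L) _ ?_)⟩
  rw [← h, ← P_em]
  rfl

/-- The classes of degree `r`. -/
theorem deg_span {a : I → W.H X} (ha : ∀ i, a i ∈ W.gr X 1)
    (hspan : W.gr X 1 = Submodule.span W.K (Set.range a))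
    (hgen : Algebra.adjoin W.K (W.gr X 1 : Set (W.H X)) = ⊤) (n : ℕ) {κ : Type} [Fintype κ]
    [DecidableEq κ] {r : ℕ} (ε : Fin r ≃ κ) {x : L ⊗[W.K] W.H (pw X n)}
    (hx : dg r x) :
    ∃ F : (κ → JJ I n) → L, x = ∑ f, F f • P (fun k => bl L a n (f (ε k))) := by
  classical
  have h1 : x ∈ (Submodule.span W.K
      (Set.range fun f : Fin r → JJ I n => P (fun k => al a n (f k)))).baseChange L :=
    Submodule.baseChange_mono L (gr_span ha hspan hgen n r) hx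
  rw [Submodule.baseChange_span] at h1
  have h2 : (TensorProduct.mk W.K L (W.H (pw X n)) 1) ''
      (Set.range fun f : Fin r → JJ I n => P (fun k => al a n (f k))) =
      Set.range fun f : Fin r → JJ I n => P (fun k => bl L a n (f k)) := by
    rw [← Set.range_comp]
    congr 1
    funext f
    exact (P_em (L := L) _).symm
  rw [h2] at h1
  obtain ⟨c, hc⟩ := (Submodule.mem_span_range_iff_exists_fun L).1 h1
  refine ⟨fun f => c (fun i => f (ε i)), ?_⟩
  rw [← hc, ← Equiv.sum_comp (Equiv.arrowCongr ε.symm (Equiv.refl (JJ I n)))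
    (fun h : Fin r → JJ I n => c h • P (fun k => bl L a n (h k)))]
  rfl

/-! ### The values -/

variable {H : Type} [AddCommGroup H] [Module ℚ H] {f : H →+ (W.H X →ₗ[W.K] W.K)}

theorem pairing_tmul (l m : L) (h : H) (c : W.H X) :
    St.pairing f L (l ⊗ₜ[ℚ] h) (m ⊗ₜ[W.K] c) = l * (f h c • m) := by
  unfold St.pairing
  rw [LinearMap.liftBaseChange_tmul]
  rfl

/-- The elements `a` are the dual basis. -/
structure IsDual [DecidableEq I] (f : H →+ (W.H X →ₗ[W.K] W.K)) (b : Basis I ℚ H)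
    (a : I → W.H X) : Prop where
  mem : ∀ i, a i ∈ W.gr X 1
  span : W.gr X 1 = Submodule.span W.K (Set.range a)
  dual : ∀ i j, f (b j) (a i) = if i = j then 1 else 0

theorem pairing_dual [DecidableEq I] {b : Basis I ℚ H} {a : I → W.H X}
    (h : IsDual f b a) (i j : I) :
    St.pairing f L ((1 : L) ⊗ₜ[ℚ] b j) ((1 : L) ⊗ₜ[W.K] a i) = if i = j then 1 else 0 := by
  rw [pairing_tmul, one_mul, h.dual i j]
  by_cases hij : i = j
  · rw [if_pos hij, if_pos hij, one_smul]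
  · rw [if_neg hij, if_neg hij, zero_smul]

/-- The expansion of a class of degree one. -/
theorem pairing_expand [DecidableEq I] {b : Basis I ℚ H} {a : I → W.H X} (h : IsDual f b a)
    {x : L ⊗[W.K] W.H X} (hx : dg 1 x) :
    x = ∑ i, St.pairing f L ((1 : L) ⊗ₜ[ℚ] b i) x • ((1 : L) ⊗ₜ[W.K] a i) := by
  classical
  have h1 : x ∈ (W.gr X 1).baseChange L := hx
  rw [h.span, Submodule.baseChange_span, ← Set.range_comp] at h1
  obtain ⟨c, hc⟩ := (Submodule.mem_span_range_iff_exists_fun L).1 h1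
  have h2 : x = ∑ i, c i • ((1 : L) ⊗ₜ[W.K] a i) := hc.symm
  have h3 : ∀ j, St.pairing f L ((1 : L) ⊗ₜ[ℚ] b j) x = c j := by
    intro j
    rw [h2, map_sum, Finset.sum_eq_single j]
    · rw [map_smul, pairing_dual h, if_pos rfl, smul_eq_mul, mul_one]
    · intro i _ hij
      rw [map_smul, pairing_dual h, if_neg hij, smul_zero]
    · intro hj
      exact absurd (Finset.mem_univ j) hj
  conv_lhs => rw [h2]
  refine Finset.sum_congr rfl fun i _ => ?_
  rw [h3]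

end Pool.Agent.V7H7.TP
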