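import Pool.Agent.V7H7.TP.Cls
import Pool.Agent.V7H7.MS.Fin4
import Pool.Agent.N996.FP.FinS

/-!
# The square of an abelian variety decides the Tate conjecture for its powers
-/

set_option autoImplicit false
set_option linter.unusedSectionVars false

open CategoryTheory AlgebraicGeometry TensorProduct

universe u

namespace Pool.Agent.V7H7.TP

open Module
open Pool.Agent.H914 Pool.Agent.H914.VarClass Pool.Agent.H914.VarClass.Obj
  Pool.Agent.H914.WeilCohomology Pool.Agent.Y121.AHS
open Pool.Agent.Y133.Half (pw)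
open Pool.Agent.N996.FP (pr IsCoordinateMap IsPolarisation RForm OfAbelianType HodgeConjecture AdmS)
open Pool.Agent.V7H7.MS.St (perPow IsHodgeSum IsTateClass IsTateModuleSP)

variable {k : Type u} [Field k] {𝒱 : VarClass k} {ops : CycleOps 𝒱}

/-- The real basis of the tangent space. -/
theorem exists_real {H S : Type} [AddCommGroup H] [Module ℚ H] [AddCommGroup S] [Module ℂ S]
    {per : H →+ S} (hA : Pool.Agent.Y90.St.IsAV per) {I : Type} [Fintype I] (b : Basis I ℚ H) :
    ∃ R : Basis I ℝ S, ∀ j, R j = per (b j) := by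
  obtain ⟨hf1, hf2, hsp, hfr, _⟩ := hA
  have hle : ⊤ ≤ Submodule.span ℝ (Set.range fun j => per (b j)) := by
    rw [← hsp, Submodule.span_le]
    rintro _ ⟨h, rfl⟩
    have h1 : per h = ∑ j, ((b.repr h j : ℚ) : ℝ) • per (b j) := by
      conv_lhs => rw [← b.sum_repr h]
      rw [map_sum]
      exact Finset.sum_congr rfl fun j _ => map_ratCast_smul per ℚ ℝ (b.repr h j) (b j)
    rw [h1]
    exact Submodule.sum_mem _ fun j _ => Submodule.smul_mem _ _ (Submodule.subset_span ⟨j, rfl⟩)
  have hcard : Fintype.card I = finrank ℝ S := by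
    rw [← finrank_eq_card_basis b, hfr, finrank_real_of_complex]
  refine ⟨basisOfTopLeSpanOfCardEqFinrank _ hle hcard, fun j => ?_⟩
  rw [coe_basisOfTopLeSpanOfCardEqFinrank]

section descent

variable {W : WeilCohomology.{u, 0} ops} {Y : 𝒱.Obj} {K : Type} [Field K] [Algebra W.K K]

/-- Rational classes in the extension of a rational subspace. -/
theorem descent {p : Submodule W.K (W.H Y)} {c : W.H Y}
    (h : (1 : K) ⊗ₜ[W.K] c ∈ p.baseChange K) : c ∈ p := by
  by_contra hc
  obtain ⟨g, hg, hp⟩ := Submodule.exists_dual_map_eq_bot_of_notMem hc inferInstance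
  let G : K ⊗[W.K] W.H Y →ₗ[K] K :=
    (TensorProduct.AlgebraTensorModule.rid W.K K K).toLinearMap ∘ₗ LinearMap.baseChange K g
  have h1 : ∀ x ∈ p.baseChange K, G x = 0 := by
    intro x hx
    rw [Submodule.baseChange_eq_span] at hx
    induction hx using Submodule.span_induction with
    | mem x hx =>
      obtain ⟨y, hy, rfl⟩ := hx
      have h2 : g y = 0 := by
        have h3 : g y ∈ p.map g := ⟨y, hy, rfl⟩
        rw [hp] at h3
        exact (Submodule.mem_bot _).1 h3
      change (g y) • (1 : K) = 0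
      rw [h2, zero_smul]
    | zero => exact map_zero _
    | add x y _ _ hx hy => rw [map_add, hx, hy, add_zero]
    | smul c x _ hx => rw [map_smul, hx, smul_zero]
  have h2 : G ((1 : K) ⊗ₜ[W.K] c) = (g c) • (1 : K) := rfl
  rw [h1 _ h] at h2
  rcases smul_eq_zero.1 h2.symm with h3 | h3
  · exact hg h3
  · exact one_ne_zero h3

end descent

section main

variable {T : HodgeTheory ops} {X : 𝒱.Obj} {H S : Type} [AddCommGroup H] [Module ℚ H]
  [AddCommGroup S] [Module ℂ S] {per : H →+ S} {f : H →+ (T.W.H X →ₗ[T.W.K] T.W.K)}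
  {K : Type} [Field K] [CharZero K] [Algebra T.W.K K] {Γ : Type} [Group Γ]
  {ρ : Representation K Γ (K ⊗[ℚ] H)} {χ : Γ →* K}
  {act : ∀ n, Γ → HL T.W K (pw X n) → HL T.W K (pw X n)}

/-- The span of the classes of algebraic cycles. -/
noncomputable def AC (K : Type) [Field K] [Algebra T.W.K K] (X : 𝒱.Obj) (n j : ℕ) :
    Submodule K (K ⊗[T.W.K] T.W.H (pw X n)) :=
  Submodule.span K {y | ∃ z, (pw X n).IsCyc j z ∧ (1 : K) ⊗ₜ[T.W.K] (T.W.cl (pw X n) z) = y}

/-- The span of the Hodge classes. -/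
noncomputable def HC (K : Type) [Field K] [Algebra T.W.K K] (X : 𝒱.Obj) (n j : ℕ) :
    Submodule K (K ⊗[T.W.K] T.W.H (pw X n)) :=
  Submodule.span K {y | ∃ c, IsHodge T (pw X n) j c ∧ (1 : K) ⊗ₜ[T.W.K] c = y}

theorem AC_le (n j : ℕ) : AC (T := T) K X n j ≤ HC (T := T) K X n j := by
  refine Submodule.span_mono ?_
  rintro y ⟨z, hz, rfl⟩
  exact ⟨_, T.cyc _ j z hz, rfl⟩

/-- The Tate conjecture for a smaller power. -/
theorem tate_down (hG : St.IsGaloisAction T X f ρ act) {n : ℕ}
    (h : St.TateConjecture act χ (n + 1)) : St.TateConjecture act χ n := by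
  intro j x hx
  obtain ⟨hd, Δ, hΔ, hT⟩ := hx
  let p : pw X (n + 1) ⟶ pw X n := fst (pw X n) X
  let s : pw X n ⟶ pw X (n + 1) := Obj.lift (𝟙 (pw X n)) (pr X n 0)
  have hsp : s ≫ p = 𝟙 (pw X n) := Obj.lift_fst _ _
  have h1 : St.IsTate act χ (n + 1) j (mapL p x) := by
    refine ⟨mB_deg p hd, Δ, hΔ, fun g hg => ?_⟩
    have h0 : act (n + 1) g (mapL p x) = mapL p (act n g x) := hG.fst n g x
    have h2 : smL (χ g ^ j) (mapL p (act n g x)) = mapL p (smL (χ g ^ j) (act n g x)) :=
      (map_smul (mB (W := T.W) K p) (χ g ^ j) (act n g x)).symm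
    rw [h0, h2, hT g hg]
  have h2 := h j _ h1
  have h3 : ∀ y ∈ AC (T := T) K X (n + 1) j, mB (W := T.W) K s y ∈ AC (T := T) K X n j := by
    intro y hy
    unfold AC at hy
    induction hy using Submodule.span_induction with
    | mem y hy =>
      obtain ⟨z, hz, rfl⟩ := hy
      refine Submodule.subset_span ⟨ops.pull s z, ops.pull_mem s hz, ?_⟩
      rw [T.W.cl_pull, mB_tmul]
    | zero => rw [map_zero]; exact Submodule.zero_mem _
    | add x y _ _ hx hy => rw [map_add]; exact Submodule.add_mem _ hx hy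
    | smul c x _ hx => rw [map_smul]; exact Submodule.smul_mem _ _ hx
  have h4 := h3 _ h2
  have h5 : mB (W := T.W) K s (mapL p x) = x := by
    have h6 := mB_comp (W := T.W) (L := K) s p x
    rw [hsp] at h6
    exact h6.symm.trans (mB_id x)
  rw [h5] at h4
  exact h4

theorem tate_one (hG : St.IsGaloisAction T X f ρ act) {n : ℕ}
    (h : St.TateConjecture act χ (n + 1)) : St.TateConjecture act χ 1 := by
  induction n with
  | zero => exact h
  | succ n ih => exact ih (tate_down hG h)

variable {I : Type} [Fintype I] [DecidableEq I] {b : Basis I ℚ H} {a : I → T.W.H X}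
  {R : Basis I ℝ S} {J₀ : Type} [Fintype J₀] (τ : Basis J₀ ℂ S) {ψ : RForm T.W X}

include τ in
/-- Combinations of Hodge forms have classes which are combinations of Hodge classes. -/
theorem class_of_sum (hψ : IsPolarisation T X ψ)
    (hH : St.IsFirstHomology T X per f) (ha : IsDual f b a) (hR : ∀ j, R j = per (b j)) {n m : ℕ}
    {φ : (Fin (n + 1) → K ⊗[ℚ] H) [⋀^Fin m × Fin 2]→ₗ[K] K} (hφ : IsHodgeSum per φ) :
    Th (e2 m) φ.toMultilinearMap (En K b n) (bl K a n) ∈ HC (T := T) K X n m := by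
  rw [← La_form]
  unfold IsHodgeSum at hφ
  have key : ∀ G ∈ Submodule.span K {F : (Fin m × Fin 2 → Fin (n + 1) → H) → K |
      ∃ F' : (Fin (n + 1) → H) [⋀^Fin m × Fin 2]→ₗ[ℚ] ℚ,
        Pool.Agent.H204R3.CM.IsHodge (perPow per (n + 1)) F' ∧ F = fun v => ((F' v : ℚ) : K)},
      La (W := T.W) K a b n m G ∈ HC (T := T) K X n m := by
    intro G hGs
    induction hGs using Submodule.span_induction with
    | mem G hG' =>
      obtain ⟨F', hF', rfl⟩ := hG'
      rw [La_cls]
      exact Submodule.subset_span ⟨_, hodge_cls τ hψ hH ha hR hF', rfl⟩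
    | zero => rw [map_zero]; exact Submodule.zero_mem _
    | add x y _ _ hx hy => rw [map_add]; exact Submodule.add_mem _ hx hy
    | smul c x _ hx => rw [map_smul]; exact Submodule.smul_mem _ _ hx
  exact key _ hφ

include τ in
/-- Combinations of Hodge classes are given by combinations of Hodge forms. -/
theorem sum_of_class (hψ : IsPolarisation T X ψ)
    (hH : St.IsFirstHomology T X per f) (ha : IsDual f b a) (hR : ∀ j, R j = per (b j))
    (hgen : Algebra.adjoin T.W.K (T.W.gr X 1 : Set (T.W.H X)) = ⊤) {n m : ℕ}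
    (ht : Top (al a n)) (hc : Fintype.card I = 2 * Fintype.card J₀)
    {φ : (Fin (n + 1) → K ⊗[ℚ] H) [⋀^Fin m × Fin 2]→ₗ[K] K}
    (hφ : Th (e2 m) φ.toMultilinearMap (En K b n) (bl K a n) ∈ HC (T := T) K X n m) :
    IsHodgeSum per φ := by
  have key : ∀ x ∈ HC (T := T) K X n m,
      ∃ φ' : (Fin (n + 1) → K ⊗[ℚ] H) [⋀^Fin m × Fin 2]→ₗ[K] K, IsHodgeSum per φ' ∧
        x = Th (e2 m) φ'.toMultilinearMap (En K b n) (bl K a n) := by
    intro x hx
    unfold HC at hx
    induction hx using Submodule.span_induction with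
    | mem x hx =>
      obtain ⟨c, hc', rfl⟩ := hx
      obtain ⟨F, hF, rfl⟩ := exists_hodge τ hψ hH ha hR hgen ht hc hc'
      obtain ⟨φ', hφ'⟩ := exists_ext b n K F
      have h1 : (fun v : Fin m × Fin 2 → Fin (n + 1) → H =>
          φ' (fun k i => (1 : K) ⊗ₜ[ℚ] v k i)) = fun v => ((F v : ℚ) : K) := by
        funext v
        exact hφ' v
      refine ⟨φ', ?_, ?_⟩
      · unfold IsHodgeSum
        rw [h1]
        exact Submodule.subset_span ⟨F, hF, rfl⟩
      · rw [← La_cls (L := K), ← La_form (L := K)]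
        congr 1
        exact h1.symm
    | zero =>
      refine ⟨0, ?_, ?_⟩
      · unfold IsHodgeSum
        exact Submodule.zero_mem _
      · unfold Th
        refine (Finset.sum_eq_zero fun g _ => ?_).symm
        change (0 : K) • _ = _
        rw [zero_smul]
    | add x y _ _ hx hy =>
      obtain ⟨φ₁, h1, rfl⟩ := hx
      obtain ⟨φ₂, h2, rfl⟩ := hy
      refine ⟨φ₁ + φ₂, ?_, ?_⟩
      · exact Submodule.add_mem _ h1 h2
      · exact (Th_add (e2 m) φ₁.toMultilinearMap φ₂.toMultilinearMap (En K b n) (bl K a n)).symm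
    | smul c x _ hx =>
      obtain ⟨φ₁, h1, rfl⟩ := hx
      refine ⟨c • φ₁, ?_, ?_⟩
      · exact Submodule.smul_mem _ c h1
      · exact (Th_smul (e2 m) c φ₁.toMultilinearMap (En K b n) (bl K a n)).symm
  obtain ⟨φ', h1, h2⟩ := key _ hφ
  have h3 := Th_inj2 (e2 m) φ φ' (En K b n) (bl_anti (L := K) ha.mem n) (bl_top ht) h2
  rw [h3]
  exact h1

end main

section thm

variable {T : HodgeTheory ops} {X : 𝒱.Obj} {H S : Type} [AddCommGroup H] [Module ℚ H]
  [AddCommGroup S] [Module ℂ S] {per : H →+ S} {f : H →+ (T.W.H X →ₗ[T.W.K] T.W.K)}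
  {K : Type} [Field K] [CharZero K] [Algebra T.W.K K] {Γ : Type} [Group Γ]
  {ρ : Representation K Γ (K ⊗[ℚ] H)} {χ : Γ →* K}
  {act : ∀ n, Γ → HL T.W K (pw X n) → HL T.W K (pw X n)}

/-- The elements of a dual basis are linearly independent. -/
theorem dual_li {W : WeilCohomology.{u, 0} ops} {X : 𝒱.Obj} {f : H →+ (W.H X →ₗ[W.K] W.K)}
    {I : Type} [Fintype I] [DecidableEq I] {b : Basis I ℚ H} {a : I → W.H X}
    (ha : IsDual f b a) : LinearIndependent W.K a := by
  rw [Fintype.linearIndependent_iff]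
  intro c hc j
  have h1 := congrArg (f (b j)) hc
  rw [map_sum, map_zero, Finset.sum_eq_single j] at h1
  · rw [map_smul, ha.dual, if_pos rfl, smul_eq_mul, mul_one] at h1
    exact h1
  · intro i _ hij
    rw [map_smul, ha.dual, if_neg hij, smul_zero]
  · intro h
    exact absurd (Finset.mem_univ j) h

/-- Hodge classes which are Tate classes are classes of cycles, if the Tate conjecture holds. -/
theorem hodge_of_tate (hD : St.HodgeIsTate act χ) {n : ℕ} (hT : St.TateConjecture act χ n) :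
    HodgeConjecture T (pw X n) := by
  intro j c hc
  have h1 : ((1 : K) ⊗ₜ[T.W.K] c) ∈ AC (T := T) K X n j := hT j _ (hD n j c hc)
  have h2 : AC (T := T) K X n j =
      (Submodule.span T.W.K {y | ∃ z, (pw X n).IsCyc j z ∧ T.W.cl (pw X n) z = y}).baseChange K := by
    rw [Submodule.baseChange_span]
    unfold AC
    congr 1
    ext y
    constructor
    · rintro ⟨z, hz, rfl⟩
      exact ⟨_, ⟨z, hz, rfl⟩, rfl⟩
    · rintro ⟨_, ⟨z, hz, rfl⟩, rfl⟩
      exact ⟨z, hz, rfl⟩
  rw [h2] at h1
  have h3 := descent h1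
  clear h1 h2 hc
  induction h3 using Submodule.span_induction with
  | mem x hx => exact hx
  | zero => exact ⟨0, SmVar.IsCyc.zero _ _, map_zero _⟩
  | add a b _ _ ha hb =>
    obtain ⟨z, hz, rfl⟩ := ha
    obtain ⟨w, hw, rfl⟩ := hb
    exact ⟨z + w, SmVar.IsCyc.add hz hw, map_add _ _ _⟩
  | smul r a _ ha =>
    obtain ⟨z, hz, rfl⟩ := ha
    obtain ⟨q, rfl⟩ := T.rat r
    exact ⟨q • z, SmVar.IsCyc.smul q hz, T.W.cl_smul q z⟩

theorem tate_of_hodge {n : ℕ} (h1 : St.TateInHodge act χ n) (h2 : HodgeConjecture T (pw X n)) :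
    St.TateConjecture act χ n := by
  intro j x hx
  refine Submodule.span_mono ?_ (h1 j x hx)
  rintro y ⟨c, hc, rfl⟩
  obtain ⟨z, hz, rfl⟩ := h2 j c hc
  exact ⟨z, hz, rfl⟩

/-- **All Tate classes on the powers are combinations of Hodge classes.** -/
theorem tate_in_hodge [Algebra K ℂ] [Algebra.IsAlgebraic K ℂ] [Nontrivial (T.W.H X)]
    {ψ : RForm T.W X} {E : H → H → ℚ} (hψ : IsPolarisation T X ψ) (hX : OfAbelianType T X)
    (hA : Pool.Agent.Y90.St.IsAV per) (hE : Pool.Agent.Y90.St.IsPolarization per E)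
    (hH : St.IsFirstHomology T X per f) (hρ : IsTateModuleSP per E ρ χ)
    (hG : St.IsGaloisAction T X f ρ act) (hT : St.TateConjecture act χ 1) (n : ℕ) :
    St.TateInHodge act χ n := by
  classical
  have : FiniteDimensional ℚ H := hA.1
  have : FiniteDimensional ℂ S := hA.2.1
  let b : Basis (Fin (finrank ℚ H)) ℚ H := finBasis ℚ H
  let τ : Basis (Fin (finrank ℂ S)) ℂ S := finBasis ℂ S
  obtain ⟨a, ha⟩ := exists_dual T.rat hH.injective hH.surjective b
  obtain ⟨R, hR⟩ := exists_real hA b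
  have hc : Fintype.card (Fin (finrank ℚ H)) = 2 * Fintype.card (Fin (finrank ℂ S)) := by
    rw [Fintype.card_fin, Fintype.card_fin]
    exact hA.2.2.2.1
  have hI : Fintype.card (Fin (finrank ℚ H)) = 2 * X.dim := by
    rw [← hX.2, ha.span]
    exact (finrank_span_eq_card (dual_li ha)).symm
  have hnt : ∀ n, Nontrivial (T.W.H (pw X n)) := by
    intro n
    refine Module.nontrivial_of_finrank_pos (R := T.W.K) ?_
    rw [Pool.Agent.Y133.Half.finrank_pw]
    exact pow_pos (Module.finrank_pos) _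
  have ht : ∀ n, Top (al a n) := fun n => by
    have := hnt n
    exact al_top ha.mem ha.span hX.1 hI n
  have hyp : ∀ φ : (Fin 2 → K ⊗[ℚ] H) [⋀^Fin (finrank ℂ S) × Fin 2]→ₗ[K] K,
      IsTateClass ρ χ φ → MS.St.IsMiddle φ → IsHodgeSum per φ := by
    intro φ hφ _
    have h1 : Th (e2 (finrank ℂ S)) φ.toMultilinearMap (En K b 1) (bl K a 1) ∈
        AC (T := T) K X 1 (finrank ℂ S) := hT _ _ (tate_of_form (n := 1) hG ha hφ)
    exact sum_of_class (n := 1) τ hψ hH ha hR hX.1 (ht 1) hc (AC_le 1 _ h1)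
  intro j x hx
  obtain ⟨φ, hφ, hx'⟩ := form_of_tate hG ha hX.1 (ht n) hx
  have h2 := class_of_sum τ hψ hH ha hR
    (MS.one_power hA hE hρ (Or.inr hyp) φ hφ)
  rw [← hx'] at h2
  exact h2

/-- **The Tate conjecture for one power decides the Tate conjecture and the Hodge conjecture for all
powers.** -/
theorem square_decides [Algebra K ℂ] [Algebra.IsAlgebraic K ℂ]
    {ψ : RForm T.W X} {E : H → H → ℚ} (hψ : IsPolarisation T X ψ) (hX : OfAbelianType T X)
    (hA : Pool.Agent.Y90.St.IsAV per) (hE : Pool.Agent.Y90.St.IsPolarization per E)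
    (hH : St.IsFirstHomology T X per f) (hρ : IsTateModuleSP per E ρ χ)
    (hG : St.IsGaloisAction T X f ρ act) (hD : St.HodgeIsTate act χ) {N : ℕ}
    (hN : AdmS T X ψ N) (hT : St.TateConjecture act χ (N - 1)) (n : ℕ) :
    St.TateInHodge act χ n ∧ HodgeConjecture T (pw X n) ∧ St.TateConjecture act χ n := by
  have h2 : HodgeConjecture T (pw X n) :=
    Pool.Agent.N996.FP.hodge_admS hψ hX hN (hodge_of_tate hD hT) n
  have hN2 : ∃ n', N - 1 = n' + 1 := by
    refine ⟨N - 2, ?_⟩
    have : 2 ≤ N := by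
      rcases hN with ⟨_, rfl⟩ | ⟨_, rfl⟩ | rfl
      · exact le_rfl
      · exact le_max_left _ _
      · exact le_trans (by norm_num) (le_max_left _ _)
    omega
  obtain ⟨n', hn'⟩ := hN2
  have h1 : St.TateInHodge act χ n := by
    by_cases hs : Nontrivial (T.W.H X)
    · rw [hn'] at hT
      exact tate_in_hodge hψ hX hA hE hH hρ hG (tate_one hG hT) n
    · rw [not_nontrivial_iff_subsingleton] at hs
      have := hs
      have h3 : Subsingleton (T.W.H (pw X n)) := by
        have h4 : finrank T.W.K (T.W.H (pw X n)) = 0 := by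
          rw [Pool.Agent.Y133.Half.finrank_pw, finrank_zero_of_subsingleton,
            zero_pow (Nat.succ_ne_zero n)]
        exact finrank_zero_iff.1 h4
      intro j x _
      have h5 : (show K ⊗[T.W.K] T.W.H (pw X n) from x) = 0 := by
        induction (show K ⊗[T.W.K] T.W.H (pw X n) from x) using TensorProduct.induction_on with
        | zero => rfl
        | tmul c y => rw [Subsingleton.elim y 0, TensorProduct.tmul_zero]
        | add x y hx hy => rw [hx, hy, add_zero]
      have h6 : x = 0 := h5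
      rw [h6]
      exact Submodule.zero_mem _
  exact ⟨h1, h2, tate_of_hodge h1 h2⟩

end thm

end Pool.Agent.V7H7.TP
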