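import Pool.Agent.V7H7.TP.Theta

/-!
# The product of a form
-/

set_option autoImplicit false
set_option linter.unusedSectionVars false

namespace Pool.Agent.V7H7.TP

open Finset Module

section forms

variable {L A : Type} [Field L] [CharZero L] [Ring A] [Algebra L A] {J J' : Type} [Fintype J]
  [Fintype J'] {N N' : Type} [AddCommGroup N] [Module L N] [AddCommGroup N'] [Module L N']
  {κ : Type} [Fintype κ] [DecidableEq κ] {r : ℕ} (ε : Fin r ≃ κ)

theorem P_permk {α : J → A} (hα : Anti α) (f : κ → J) (σ : Equiv.Perm κ) :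
    P (fun k => α (f (σ (ε k)))) = ((Equiv.Perm.sign σ : ℤ) : L) • P (fun k => α (f (ε k))) := by
  have h1 : (fun k => α (f (σ (ε k)))) =
      fun k => α ((fun i => f (ε i)) ((ε.trans (σ.trans ε.symm)) k)) := by
    funext k
    change _ = α (f (ε (ε.symm (σ (ε k)))))
    rw [Equiv.apply_symm_apply]
  have h3 : Equiv.Perm.sign (ε.trans (σ.trans ε.symm)) = Equiv.Perm.sign σ :=
    Equiv.Perm.sign_trans_trans_symm σ ε
  rw [h1, P_perm L hα (fun i => f (ε i)) (ε.trans (σ.trans ε.symm)), h3]

/-- The sum of the values of the form on the elements `E`, times the products of the `α`. -/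
def Th (φ : MultilinearMap L (fun _ : κ => N) L) (E : J → N) (α : J → A) : A :=
  ∑ f : κ → J, φ (fun k => E (f k)) • P (fun k => α (f (ε k)))

/-- **The change of the elements.** -/
theorem Th_change (φ : MultilinearMap L (fun _ : κ => N) L) (E : J → N) (E' : J' → N)
    (c : J → J' → L) (hE : ∀ j', E' j' = ∑ j, c j j' • E j) (α' : J' → A) (β : J → A)
    (hβ : ∀ j, β j = ∑ j', c j j' • α' j') : Th ε φ E' α' = Th ε φ E β := by
  classical
  have h1 : ∀ f' : κ → J', φ (fun k => E' (f' k)) =
      ∑ f : κ → J, (∏ k, c (f k) (f' k)) * φ (fun k => E (f k)) := by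
    intro f'
    have h2 : (fun k => E' (f' k)) = fun k => ∑ j, c j (f' k) • E j := by
      funext k
      exact hE _
    rw [h2, MultilinearMap.map_sum]
    refine Finset.sum_congr rfl fun f _ => ?_
    rw [MultilinearMap.map_smul_univ, smul_eq_mul]
  have h2 : ∀ f : κ → J, P (fun k => β (f (ε k))) =
      ∑ f' : κ → J', (∏ k, c (f k) (f' k)) • P (fun k => α' (f' (ε k))) := by
    intro f
    have h3 : (fun k => β (f (ε k))) = fun k => ∑ j', c (f (ε k)) j' • α' j' := by
      funext k
      exact hβ _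
    rw [h3, P_expand (fun k => c (f (ε k))) α',
      ← Equiv.sum_comp (Equiv.arrowCongr ε.symm (Equiv.refl J')) (fun h : Fin r → J' =>
        (∏ k, c (f (ε k)) (h k)) • P (fun k => α' (h k)))]
    refine Finset.sum_congr rfl fun f' _ => ?_
    have h4 : ∀ k, Equiv.arrowCongr ε.symm (Equiv.refl J') f' k = f' (ε k) := fun k => rfl
    congr 1
    · rw [← Equiv.prod_comp ε (fun k => c (f k) (f' k))]
      rfl
  unfold Th
  simp_rw [h1, h2, Finset.sum_smul, Finset.smul_sum, smul_smul]
  rw [Finset.sum_comm]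
  refine Finset.sum_congr rfl fun f _ => Finset.sum_congr rfl fun f' _ => ?_
  rw [mul_comm]

/-- Homomorphisms. -/
theorem Th_map {A' : Type} [Ring A'] [Algebra L A'] (φ : MultilinearMap L (fun _ : κ => N) L)
    (E : J → N) (α : J → A) (F : A → A') (ha : ∀ x y, F (x + y) = F x + F y)
    (hs : ∀ (c : L) x, F (c • x) = c • F x) (h1 : F 1 = 1)
    (hm : ∀ x y, F (x * y) = F x * F y) : F (Th ε φ E α) = Th ε φ E (fun j => F (α j)) := by
  let F' : A →ₗ[L] A' := ⟨⟨F, ha⟩, hs⟩
  change F' _ = _
  unfold Th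
  rw [map_sum]
  refine Finset.sum_congr rfl fun f _ => ?_
  rw [map_smul]
  congr 1
  exact P_map F h1 hm _

theorem Th_add (φ ψ : MultilinearMap L (fun _ : κ => N) L) (E : J → N) (α : J → A) :
    Th ε (φ + ψ) E α = Th ε φ E α + Th ε ψ E α := by
  unfold Th
  rw [← Finset.sum_add_distrib]
  refine Finset.sum_congr rfl fun f _ => ?_
  rw [MultilinearMap.add_apply, add_smul]

theorem Th_smul (c : L) (φ : MultilinearMap L (fun _ : κ => N) L) (E : J → N) (α : J → A) :
    Th ε (c • φ) E α = c • Th ε φ E α := by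
  unfold Th
  rw [Finset.smul_sum]
  refine Finset.sum_congr rfl fun f _ => ?_
  rw [MultilinearMap.smul_apply, smul_smul, smul_eq_mul]

/-- **Injectivity.** -/
theorem Th_inj (φ : N [⋀^κ]→ₗ[L] L) (E : Basis J L N) {α : J → A} (hα : Anti α) (ht : Top α)
    (h : Th ε φ.toMultilinearMap E α = 0) : φ = 0 := by
  classical
  apply AlternatingMap.coe_multilinearMap_injective
  refine Basis.ext_multilinear (fun _ => E) fun f => ?_
  change φ (fun k => E (f k)) = 0
  by_cases hf : Function.Injective f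
  · refine coef_zero (L := L) hα ht ε (fun f => φ (fun k => E (f k))) (fun f σ => ?_) h f hf
    have h1 := φ.map_perm (fun k => E (f k)) σ
    have h2 : ((fun k => E (f k)) ∘ σ) = fun k => E (f (σ k)) := rfl
    rw [h2] at h1
    rw [h1]
    rcases Int.units_eq_one_or (Equiv.Perm.sign σ) with h | h
    · rw [h]; simp
    · rw [h]; simp
  · unfold Function.Injective at hf
    push Not at hf
    obtain ⟨a, b, hab, hne⟩ := hf
    exact φ.map_eq_zero_of_eq _ (by rw [hab]) hne

theorem Th_inj2 (φ ψ : N [⋀^κ]→ₗ[L] L) (E : Basis J L N) {α : J → A} (hα : Anti α) (ht : Top α)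
    (h : Th ε φ.toMultilinearMap E α = Th ε ψ.toMultilinearMap E α) : φ = ψ := by
  have h1 : Th ε (φ - ψ).toMultilinearMap E α = 0 := by
    have h2 : (φ - ψ).toMultilinearMap = φ.toMultilinearMap + (-1 : L) • ψ.toMultilinearMap := by
      ext v
      simp [sub_eq_add_neg]
    rw [h2, Th_add, Th_smul, h]
    simp
  exact sub_eq_zero.1 (Th_inj ε (φ - ψ) E hα ht h1)

/-- The form with given antisymmetric values. -/
theorem alt_of (E : Basis J L N) (F : (κ → J) → L) :
    ∃ φ : N [⋀^κ]→ₗ[L] L, ∀ f : κ → J, φ (fun k => E (f k)) =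
      ∑ σ : Equiv.Perm κ, ((Equiv.Perm.sign σ : ℤ) : L) * F (fun k => f (σ k)) := by
  classical
  let φ0 : MultilinearMap L (fun _ : κ => N) L := ∑ f : κ → J, F f •
    (MultilinearMap.mkPiAlgebra L κ L).compLinearMap (fun k => E.coord (f k))
  have h0 : ∀ h : κ → J, φ0 (fun k => E (h k)) = F h := by
    intro h
    change (∑ f : κ → J, F f •
      (MultilinearMap.mkPiAlgebra L κ L).compLinearMap (fun k => E.coord (f k))) _ = _
    rw [MultilinearMap.sum_apply, Finset.sum_eq_single h]
    · rw [MultilinearMap.smul_apply, MultilinearMap.compLinearMap_apply,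
        MultilinearMap.mkPiAlgebra_apply]
      have h1 : ∀ k, E.coord (h k) (E (h k)) = 1 := fun k => by
        rw [Basis.coord_apply, Basis.repr_self, Finsupp.single_eq_same]
      rw [Finset.prod_eq_one fun k _ => h1 k, smul_eq_mul, mul_one]
    · intro f _ hf
      obtain ⟨k, hk⟩ := Function.ne_iff.1 hf
      rw [MultilinearMap.smul_apply, MultilinearMap.compLinearMap_apply,
        MultilinearMap.mkPiAlgebra_apply, Finset.prod_eq_zero (Finset.mem_univ k), smul_zero]
      rw [Basis.coord_apply, Basis.repr_self, Finsupp.single_eq_of_ne]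
      exact hk
    · intro h1
      exact absurd (Finset.mem_univ _) h1
  refine ⟨MultilinearMap.alternatization φ0, fun f => ?_⟩
  rw [MultilinearMap.alternatization_apply]
  refine Finset.sum_congr rfl fun σ _ => ?_
  rw [MultilinearMap.domDomCongr_apply]
  have h2 : (fun i => (fun k => E (f k)) (σ i)) = fun k => E ((fun i => f (σ i)) k) := rfl
  rw [h2, h0]
  rcases Int.units_eq_one_or (Equiv.Perm.sign σ) with h | h
  · rw [h]; simp
  · rw [h]; simp

/-- The sum over the antisymmetrised coefficients. -/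
theorem asum {α : J → A} (hα : Anti α) (F : (κ → J) → L) :
    ∑ f : κ → J, (∑ σ : Equiv.Perm κ, ((Equiv.Perm.sign σ : ℤ) : L) * F (fun k => f (σ k))) •
      P (fun k => α (f (ε k))) = ((Fintype.card κ).factorial : L) •
        ∑ f : κ → J, F f • P (fun k => α (f (ε k))) := by
  classical
  have h3 : ∀ f : κ → J, (∑ σ : Equiv.Perm κ, ((Equiv.Perm.sign σ : ℤ) : L) *
      F (fun k => f (σ k))) • P (fun k => α (f (ε k))) =
        ∑ σ : Equiv.Perm κ, (((Equiv.Perm.sign σ : ℤ) : L) * F (fun k => f (σ k))) •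
          P (fun k => α (f (ε k))) := fun f => Finset.sum_smul
  rw [Finset.sum_congr rfl fun f _ => h3 f, Finset.sum_comm]
  have h4 : ∀ σ : Equiv.Perm κ, ∑ f : κ → J, (((Equiv.Perm.sign σ : ℤ) : L) *
      F (fun k => f (σ k))) • P (fun k => α (f (ε k))) =
        ∑ f : κ → J, F f • P (fun k => α (f (ε k))) := by
    intro σ
    rw [← Equiv.sum_comp (Equiv.arrowCongr σ (Equiv.refl J)) (fun f : κ → J =>
      (((Equiv.Perm.sign σ : ℤ) : L) * F (fun k => f (σ k))) • P (fun k => α (f (ε k))))]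
    refine Finset.sum_congr rfl fun f _ => ?_
    have h5 : ∀ k, Equiv.arrowCongr σ (Equiv.refl J) f k = f (σ.symm k) := fun k => rfl
    simp only [h5, Equiv.symm_apply_apply]
    have h6 := P_permk (L := L) ε hα f σ.symm
    rw [h6, smul_smul, Equiv.Perm.sign_symm]
    congr 1
    rcases Int.units_eq_one_or (Equiv.Perm.sign σ) with h | h
    · rw [h]; simp
    · rw [h]; simp
  rw [Finset.sum_congr rfl fun σ _ => h4 σ, Finset.sum_const, Finset.card_univ,
    Fintype.card_perm, Nat.cast_smul_eq_nsmul]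

theorem fact_ne : ((Fintype.card κ).factorial : L) ≠ 0 :=
  Nat.cast_ne_zero.2 (Nat.factorial_ne_zero _)

/-- **Surjectivity.** -/
theorem Th_surj (E : Basis J L N) {α : J → A} (hα : Anti α) (F : (κ → J) → L) :
    ∃ φ : N [⋀^κ]→ₗ[L] L, Th ε φ.toMultilinearMap E α =
      ∑ f : κ → J, F f • P (fun k => α (f (ε k))) := by
  obtain ⟨φ1, h1⟩ := alt_of E F
  refine ⟨((Fintype.card κ).factorial : L)⁻¹ • φ1, ?_⟩
  have h3 : (((Fintype.card κ).factorial : L)⁻¹ • φ1).toMultilinearMap =
      ((Fintype.card κ).factorial : L)⁻¹ • φ1.toMultilinearMap := rfl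
  have h2 : Th ε φ1.toMultilinearMap E α = ((Fintype.card κ).factorial : L) •
      ∑ f : κ → J, F f • P (fun k => α (f (ε k))) := by
    rw [← asum ε hα F]
    refine Finset.sum_congr rfl fun f _ => ?_
    congr 1
    exact h1 f
  rw [h3, Th_smul, h2, smul_smul, inv_mul_cancel₀ fact_ne, one_smul]

/-- The form with given values, if they are antisymmetric. -/
theorem alt_of' (E : Basis J L N) (F : (κ → J) → L)
    (hF : ∀ (f : κ → J) (σ : Equiv.Perm κ), F (fun k => f (σ k)) =
      ((Equiv.Perm.sign σ : ℤ) : L) * F f) :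
    ∃ φ : N [⋀^κ]→ₗ[L] L, ∀ f : κ → J, φ (fun k => E (f k)) = F f := by
  obtain ⟨φ1, h1⟩ := alt_of E F
  refine ⟨((Fintype.card κ).factorial : L)⁻¹ • φ1, fun f => ?_⟩
  have h2 : (((Fintype.card κ).factorial : L)⁻¹ • φ1) (fun k => E (f k)) =
      ((Fintype.card κ).factorial : L)⁻¹ * φ1 (fun k => E (f k)) := rfl
  have h3 : ∀ σ : Equiv.Perm κ, ((Equiv.Perm.sign σ : ℤ) : L) * F (fun k => f (σ k)) = F f := by
    intro σ
    rw [hF, ← mul_assoc]
    rcases Int.units_eq_one_or (Equiv.Perm.sign σ) with h | h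
    · rw [h]; simp
    · rw [h]; simp
  rw [h2, h1, Finset.sum_congr rfl fun σ _ => h3 σ, Finset.sum_const, Finset.card_univ,
    Fintype.card_perm, nsmul_eq_mul, ← mul_assoc, inv_mul_cancel₀ fact_ne, one_mul]

end forms

end Pool.Agent.V7H7.TP
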