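import Pool.Agent.V7H7.TP.CohL

/-!
# Galois actions
-/

set_option autoImplicit false
set_option linter.unusedSectionVars false

open CategoryTheory AlgebraicGeometry TensorProduct

universe u

namespace Pool.Agent.V7H7.TP

open Module
open Pool.Agent.H914 Pool.Agent.H914.VarClass Pool.Agent.H914.VarClass.Obj
  Pool.Agent.H914.WeilCohomology Pool.Agent.Y121.AHS
open Pool.Agent.Y133.Half (pw)
open Pool.Agent.N996.FP (pr IsCoordinateMap)

variable {k : Type u} [Field k] {𝒱 : VarClass k} {ops : CycleOps 𝒱}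

section dual

variable {W : WeilCohomology.{u, 0} ops} {X : 𝒱.Obj} {I : Type} [Fintype I] [DecidableEq I]
  {H : Type} [AddCommGroup H] [Module ℚ H] {f : H →+ (W.H X →ₗ[W.K] W.K)}

/-- The dual basis. -/
theorem exists_dual (hrat : ∀ r : W.K, ∃ q : ℚ, (q : W.K) = r)
    (hinj : ∀ h, (∀ c ∈ W.gr X 1, f h c = 0) → h = 0)
    (hsurj : ∀ g : W.H X →ₗ[W.K] W.K, ∃ h, ∀ c ∈ W.gr X 1, f h c = g c) (b : Basis I ℚ H) :
    ∃ a : I → W.H X, IsDual f b a := by
  classical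
  have hq : ∀ (q : ℚ) (h : H), f (q • h) = (q : W.K) • f h := fun q h =>
    map_ratCast_smul f ℚ W.K q h
  let φ : I → Module.Dual W.K (W.gr X 1) := fun j => (f (b j)).comp (W.gr X 1).subtype
  have hli : LinearIndependent W.K φ := by
    rw [Fintype.linearIndependent_iff]
    intro c hc i
    choose q hq' using fun j => hrat (c j)
    have h1 : ∑ j, q j • b j = 0 := by
      refine hinj _ fun x hx => ?_
      have h2 := LinearMap.congr_fun hc ⟨x, hx⟩
      rw [LinearMap.sum_apply] at h2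
      rw [map_sum, LinearMap.sum_apply]
      refine Eq.trans ?_ h2
      refine Finset.sum_congr rfl fun j _ => ?_
      rw [hq, hq']
      rfl
    have h3 := Fintype.linearIndependent_iff.1 b.linearIndependent q h1 i
    rw [← hq' i, h3, Rat.cast_zero]
  have hsp : ⊤ ≤ Submodule.span W.K (Set.range φ) := by
    intro g _
    obtain ⟨g', hg'⟩ := LinearMap.exists_extend g
    obtain ⟨h, hh⟩ := hsurj g'
    have h1 : g = ∑ j, ((b.repr h j : ℚ) : W.K) • φ j := by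
      apply LinearMap.ext
      rintro ⟨x, hx⟩
      have h2 : g ⟨x, hx⟩ = g' x := by rw [← hg']; rfl
      rw [h2, ← hh x hx]
      conv_lhs => rw [← b.sum_repr h]
      rw [map_sum, LinearMap.sum_apply, LinearMap.sum_apply]
      refine Finset.sum_congr rfl fun j _ => ?_
      rw [hq]
      rfl
    rw [h1]
    exact Submodule.sum_mem _ fun j _ => Submodule.smul_mem _ _ (Submodule.subset_span ⟨j, rfl⟩)
  let B : Basis I W.K (Module.Dual W.K (W.gr X 1)) := Basis.mk hli hsp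
  have hB : ∀ j, B j = φ j := fun j => by
    change Basis.mk hli hsp j = _
    rw [Basis.mk_apply]
  let Ba : Basis I W.K (W.gr X 1) := B.dualBasis.map (Module.evalEquiv W.K (W.gr X 1)).symm
  have hBa : ∀ i j, φ j (Ba i) = if i = j then 1 else 0 := by
    intro i j
    have h1 : Module.evalEquiv W.K (W.gr X 1) (Ba i) = B.dualBasis i := by
      rw [show Ba i = (Module.evalEquiv W.K (W.gr X 1)).symm (B.dualBasis i) from
        Basis.map_apply _ _ _, LinearEquiv.apply_symm_apply]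
    have h2 : φ j (Ba i) = Module.evalEquiv W.K (W.gr X 1) (Ba i) (φ j) := rfl
    rw [h2, h1, ← hB, Basis.dualBasis_apply_self]
    by_cases hij : i = j
    · rw [if_pos hij, if_pos hij.symm]
    · rw [if_neg hij, if_neg (fun h => hij h.symm)]
  refine ⟨fun i => (Ba i : W.H X), fun i => (Ba i).2, ?_, fun i j => ?_⟩
  · have h1 : Submodule.map (W.gr X 1).subtype (Submodule.span W.K (Set.range Ba)) =
        W.gr X 1 := by
      rw [Basis.span_eq, Submodule.map_top, Submodule.range_subtype]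
    rw [Submodule.map_span, ← Set.range_comp] at h1
    exact h1.symm
  · exact hBa i j

end dual

section galois

variable {T : HodgeTheory ops} {X : 𝒱.Obj} {I : Type} [Fintype I] [DecidableEq I]
  {H : Type} [AddCommGroup H] [Module ℚ H] {f : H →+ (T.W.H X →ₗ[T.W.K] T.W.K)}
  {K : Type} [Field K] [CharZero K] [Algebra T.W.K K] {Γ : Type} [Group Γ]
  {ρ : Representation K Γ (K ⊗[ℚ] H)}
  {act : ∀ n, Γ → HL T.W K (pw X n) → HL T.W K (pw X n)}

/-- The action, on the algebra. -/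
def aA (act : ∀ n, Γ → HL T.W K (pw X n) → HL T.W K (pw X n)) (n : ℕ) (s : Γ)
    (x : K ⊗[T.W.K] T.W.H (pw X n)) : K ⊗[T.W.K] T.W.H (pw X n) := act n s x

theorem aA_add (hG : St.IsGaloisAction T X f ρ act) (n : ℕ) (s : Γ)
    (x y : K ⊗[T.W.K] T.W.H (pw X n)) : aA act n s (x + y) = aA act n s x + aA act n s y :=
  hG.add n s x y

theorem aA_smul (hG : St.IsGaloisAction T X f ρ act) (n : ℕ) (s : Γ) (c : K)
    (x : K ⊗[T.W.K] T.W.H (pw X n)) : aA act n s (c • x) = c • aA act n s x := hG.smul n s c x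

theorem aA_sum (hG : St.IsGaloisAction T X f ρ act) (n : ℕ) (s : Γ) {ι : Type} (S : Finset ι)
    (x : ι → K ⊗[T.W.K] T.W.H (pw X n)) :
    aA act n s (∑ i ∈ S, x i) = ∑ i ∈ S, aA act n s (x i) := by
  let F : K ⊗[T.W.K] T.W.H (pw X n) →ₗ[K] K ⊗[T.W.K] T.W.H (pw X n) :=
    ⟨⟨aA act n s, aA_add hG n s⟩, aA_smul hG n s⟩
  exact map_sum F x S

theorem aA_pr (hG : St.IsGaloisAction T X f ρ act) (n : ℕ) {t : ℕ} (ht : t ≤ n) (s : Γ)
    (x : K ⊗[T.W.K] T.W.H X) :
    aA act n s (mB (W := T.W) K (pr X n t) x) =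
      mB (W := T.W) K (pr X n t) (show K ⊗[T.W.K] T.W.H X from act 0 s x) := by
  induction n with
  | zero =>
    have h1 : pr X 0 t = 𝟙 X := rfl
    rw [h1]
    change aA act 0 s (mB (W := T.W) K (𝟙 X) x) = mB (W := T.W) K (𝟙 X) (aA act 0 s x)
    exact (congrArg (aA act 0 s) (mB_id (W := T.W) (L := K) x)).trans
      (mB_id (W := T.W) (L := K) (aA act 0 s x)).symm
  | succ n ih =>
    by_cases h : t ≤ n
    · have h1 : ∀ y : K ⊗[T.W.K] T.W.H X, mB (W := T.W) K (pr X (n + 1) t) y =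
          mB (W := T.W) K (fst (pw X n) X) (mB (W := T.W) K (pr X n t) y) := fun y =>
        (congrArg (fun f : pw X (n + 1) ⟶ X => mB (W := T.W) K f y) (pr_le X h)).trans
          (mB_comp (W := T.W) (L := K) (fst (pw X n) X) (pr X n t) y)
      rw [h1, h1, ← ih h]
      exact hG.fst n s _
    · have h1 : ∀ y : K ⊗[T.W.K] T.W.H X, mB (W := T.W) K (pr X (n + 1) t) y =
          mB (W := T.W) K (snd (pw X n) X) y := fun y =>
        congrArg (fun f : pw X (n + 1) ⟶ X => mB (W := T.W) K f y) (pr_gt X h)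
      rw [h1, h1]
      exact hG.snd n s x

/-- The matrix of the action on the cohomology of degree one. -/
noncomputable def Mt (ρ : Representation K Γ (K ⊗[ℚ] H)) (b : Basis I ℚ H) (s : Γ) (i j : I) : K :=
  (b.baseChange K).repr (ρ s⁻¹ ((1 : K) ⊗ₜ[ℚ] b j)) i

theorem rho_eq (b : Basis I ℚ H) (s : Γ) (j : I) :
    ρ s⁻¹ ((1 : K) ⊗ₜ[ℚ] b j) = ∑ i, Mt ρ b s i j • ((1 : K) ⊗ₜ[ℚ] b i) := by
  conv_lhs => rw [← (b.baseChange K).sum_repr (ρ s⁻¹ ((1 : K) ⊗ₜ[ℚ] b j))]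
  refine Finset.sum_congr rfl fun i _ => ?_
  rw [Basis.baseChange_apply]
  rfl

theorem act_one (hG : St.IsGaloisAction T X f ρ act) {b : Basis I ℚ H} {a : I → T.W.H X}
    (h : IsDual f b a) (s : Γ) (i : I) :
    (show K ⊗[T.W.K] T.W.H X from act 0 s (emL T.W K (a i))) =
      ∑ j, Mt ρ b s i j • ((1 : K) ⊗ₜ[T.W.K] a j) := by
  have hd : IsDeg (W := T.W) (L := K) 1 (emL T.W K (a i)) := tmul_deg (h.mem i)
  have h1 := pairing_expand h (hG.degree 0 s 1 _ hd)
  refine h1.trans (Finset.sum_congr rfl fun j _ => ?_)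
  congr 1
  have h2 := hG.dual s _ hd (ρ s⁻¹ ((1 : K) ⊗ₜ[ℚ] b j))
  have h3 : ρ s (ρ s⁻¹ ((1 : K) ⊗ₜ[ℚ] b j)) = (1 : K) ⊗ₜ[ℚ] b j := by
    rw [← Module.End.mul_apply, ← map_mul, mul_inv_cancel, map_one]
    rfl
  rw [h3] at h2
  refine h2.trans ?_
  change St.pairing f K (ρ s⁻¹ ((1 : K) ⊗ₜ[ℚ] b j)) ((1 : K) ⊗ₜ[T.W.K] a i) = _
  rw [rho_eq, map_sum, LinearMap.sum_apply, Finset.sum_eq_single i]
  · rw [map_smul, LinearMap.smul_apply, pairing_dual h, if_pos rfl, smul_eq_mul, mul_one]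
  · intro i' _ hi'
    rw [map_smul, LinearMap.smul_apply, pairing_dual h, if_neg (fun h => hi' h.symm), smul_zero]
  · intro hi
    exact absurd (Finset.mem_univ i) hi

/-- The matrix on the power. -/
noncomputable def Mn (ρ : Representation K Γ (K ⊗[ℚ] H)) (b : Basis I ℚ H) (s : Γ) (n : ℕ)
    (j j' : JJ I n) : K := if j.1 = j'.1 then Mt ρ b s j.2 j'.2 else 0

theorem act_bl (hG : St.IsGaloisAction T X f ρ act) {b : Basis I ℚ H} {a : I → T.W.H X}
    (h : IsDual f b a) (n : ℕ) (s : Γ) (j : JJ I n) :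
    aA act n s (bl K a n j) = ∑ j', Mn ρ b s n j j' • bl K a n j' := by
  obtain ⟨t, i⟩ := j
  have h1 : bl K a n ⟨t, i⟩ = mB (W := T.W) K (pr X n t) ((1 : K) ⊗ₜ[T.W.K] a i) :=
    (mB_tmul (pr X n t) 1 (a i)).symm
  have h2 : aA act n s (mB (W := T.W) K (pr X n t) ((1 : K) ⊗ₜ[T.W.K] a i)) =
      mB (W := T.W) K (pr X n t) (show K ⊗[T.W.K] T.W.H X from act 0 s (emL T.W K (a i))) :=
    aA_pr hG n (Nat.lt_succ_iff.1 t.2) s (emL T.W K (a i))
  rw [h1, h2, act_one hG h s i, map_sum, Fintype.sum_sigma, Finset.sum_eq_single t]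
  · refine Finset.sum_congr rfl fun j _ => ?_
    rw [map_smul, mB_tmul]
    unfold Mn
    rw [if_pos rfl]
    rfl
  · intro t' _ ht'
    refine Finset.sum_eq_zero fun j _ => ?_
    unfold Mn
    rw [if_neg (fun h => ht' h.symm), zero_smul]
  · intro ht
    exact absurd (Finset.mem_univ t) ht

/-- The basis of the homology of the powers. -/
noncomputable def En (L : Type) [Field L] [CharZero L] (b : Basis I ℚ H) (n : ℕ) :
    Basis (JJ I n) L (Fin (n + 1) → L ⊗[ℚ] H) := Pi.basis fun _ => b.baseChange L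

theorem En_apply (L : Type) [Field L] [CharZero L] (b : Basis I ℚ H) (n : ℕ) (j : JJ I n) :
    En L b n j = Pi.single j.1 ((1 : L) ⊗ₜ[ℚ] b j.2) := by
  unfold En
  rw [Pi.basis_apply, Basis.baseChange_apply]

/-- The action on the homology of the powers. -/
noncomputable def rn (ρ : Representation K Γ (K ⊗[ℚ] H)) (n : ℕ) (s : Γ) :
    (Fin (n + 1) → K ⊗[ℚ] H) →ₗ[K] (Fin (n + 1) → K ⊗[ℚ] H) :=
  LinearMap.pi fun i => ρ s ∘ₗ LinearMap.proj i

theorem rn_apply (n : ℕ) (s : Γ) (v : Fin (n + 1) → K ⊗[ℚ] H) (i : Fin (n + 1)) :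
    rn ρ n s v i = ρ s (v i) := rfl

theorem rn_En (b : Basis I ℚ H) (n : ℕ) (s : Γ) (j' : JJ I n) :
    rn ρ n s⁻¹ (En K b n j') = ∑ j, Mn ρ b s n j j' • En K b n j := by
  obtain ⟨t, i⟩ := j'
  have h1 : rn ρ n s⁻¹ (En K b n ⟨t, i⟩) = Pi.single t (ρ s⁻¹ ((1 : K) ⊗ₜ[ℚ] b i)) := by
    funext t'
    rw [rn_apply, En_apply]
    by_cases ht : t' = t
    · subst ht
      rw [Pi.single_eq_same, Pi.single_eq_same]
    · rw [Pi.single_eq_of_ne ht, Pi.single_eq_of_ne ht, map_zero]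
  rw [h1, rho_eq, Fintype.sum_sigma, Finset.sum_eq_single t]
  · have h2 := map_sum (LinearMap.single K (fun _ : Fin (n + 1) => K ⊗[ℚ] H) t)
      (fun j => Mt ρ b s j i • ((1 : K) ⊗ₜ[ℚ] b j)) Finset.univ
    refine h2.trans (Finset.sum_congr rfl fun j _ => ?_)
    rw [map_smul, En_apply]
    unfold Mn
    rw [if_pos rfl]
    rfl
  · intro t' _ ht'
    refine Finset.sum_eq_zero fun j _ => ?_
    unfold Mn
    rw [if_neg ht', zero_smul]
  · intro ht
    exact absurd (Finset.mem_univ t) ht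

variable {κ : Type} [Fintype κ] [DecidableEq κ] {r : ℕ} (ε : Fin r ≃ κ)

/-- **The action and the forms.** -/
theorem act_Th (hG : St.IsGaloisAction T X f ρ act) {b : Basis I ℚ H} {a : I → T.W.H X}
    (h : IsDual f b a) (n : ℕ) (s : Γ)
    (φ : MultilinearMap K (fun _ : κ => Fin (n + 1) → K ⊗[ℚ] H) K) :
    aA act n s (Th ε φ (En K b n) (bl K a n)) =
      Th ε (φ.compLinearMap fun _ => rn ρ n s⁻¹) (En K b n) (bl K a n) := by
  have h1 := Th_map ε φ (En K b n) (bl K a n) (A' := K ⊗[T.W.K] T.W.H (pw X n)) (aA act n s)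
    (aA_add hG n s) (aA_smul hG n s) (hG.one n s) (hG.mul n s)
  refine h1.trans ?_
  refine (Th_change ε φ (En K b n) (fun j' => rn ρ n s⁻¹ (En K b n j'))
    (Mn ρ b s n) (rn_En b n s) (bl K a n) _ (act_bl hG h n s)).symm

/-- The bijection of the variables. -/
def e2 (m : ℕ) : Fin (2 * m) ≃ Fin m × Fin 2 :=
  (finCongr (mul_comm 2 m)).trans finProdFinEquiv.symm

theorem Th_deg {L : Type} [Field L] [CharZero L] [Algebra T.W.K L] {b : Basis I ℚ H}
    {a : I → T.W.H X} (h : IsDual f b a) (n : ℕ)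
    (φ : MultilinearMap L (fun _ : κ => Fin (n + 1) → L ⊗[ℚ] H) L) :
    dg r (Th ε φ (En L b n) (bl L a n)) := by
  unfold Th dg
  refine Submodule.sum_mem _ fun g _ => Submodule.smul_mem _ _ ?_
  exact P_deg _ fun i => bl_deg h.mem n _

/-- **Tate forms give Tate classes.** -/
theorem tate_of_form (hG : St.IsGaloisAction T X f ρ act) {b : Basis I ℚ H} {a : I → T.W.H X}
    (h : IsDual f b a) {χ : Γ →* K} {n m : ℕ}
    {φ : (Fin (n + 1) → K ⊗[ℚ] H) [⋀^Fin m × Fin 2]→ₗ[K] K} (hφ : MS.St.IsTateClass ρ χ φ) :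
    St.IsTate act χ n m (show K ⊗[T.W.K] T.W.H (pw X n) from
      Th (e2 m) φ.toMultilinearMap (En K b n) (bl K a n)) := by
  refine ⟨Th_deg (e2 m) h n _, ?_⟩
  obtain ⟨Δ, hΔ, hT⟩ := hφ
  refine ⟨Δ, hΔ, fun s hs => ?_⟩
  change (χ s ^ m) • aA act n s (Th (e2 m) φ.toMultilinearMap (En K b n) (bl K a n)) =
    Th (e2 m) φ.toMultilinearMap (En K b n) (bl K a n)
  rw [act_Th (e2 m) hG h n s]
  have h1 : (φ.toMultilinearMap.compLinearMap fun _ => rn ρ n s⁻¹) =
      (χ s⁻¹ ^ m) • φ.toMultilinearMap := by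
    apply MultilinearMap.ext
    intro v
    exact hT s⁻¹ (Δ.inv_mem hs) v
  rw [h1, Th_smul, smul_smul, ← mul_pow, ← map_mul, mul_inv_cancel, map_one, one_pow, one_smul]

/-- **Tate classes are given by Tate forms.** -/
theorem form_of_tate (hG : St.IsGaloisAction T X f ρ act) {b : Basis I ℚ H} {a : I → T.W.H X}
    (h : IsDual f b a)
    (hgen : Algebra.adjoin T.W.K (T.W.gr X 1 : Set (T.W.H X)) = ⊤) {χ : Γ →* K} {n m : ℕ}
    (ht : Top (al a n)) {x : K ⊗[T.W.K] T.W.H (pw X n)} (hx : St.IsTate act χ n m x) :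
    ∃ φ : (Fin (n + 1) → K ⊗[ℚ] H) [⋀^Fin m × Fin 2]→ₗ[K] K, MS.St.IsTateClass ρ χ φ ∧
      x = Th (e2 m) φ.toMultilinearMap (En K b n) (bl K a n) := by
  obtain ⟨hd, Δ, hΔ, hT⟩ := hx
  obtain ⟨F, hF⟩ := deg_span h.mem h.span hgen n (e2 m) hd
  obtain ⟨φ, hφ⟩ := Th_surj (e2 m) (En K b n) (bl_anti (L := K) h.mem n) F
  have hxφ : x = Th (e2 m) φ.toMultilinearMap (En K b n) (bl K a n) := hF.trans hφ.symm
  refine ⟨φ, ⟨Δ, hΔ, fun s hs => ?_⟩, hxφ⟩
  have h1 : φ.compLinearMap (rn ρ n s) = (χ s ^ m) • φ := by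
    refine Th_inj2 (e2 m) _ _ (En K b n) (bl_anti (L := K) h.mem n) (bl_top ht) ?_
    have h2 := act_Th (e2 m) hG h n s⁻¹ φ.toMultilinearMap
    rw [inv_inv] at h2
    have h3 : (χ s⁻¹ ^ m) • aA act n s⁻¹ x = x := hT s⁻¹ (Δ.inv_mem hs)
    have h4 : (χ s ^ m) • ((χ s⁻¹ ^ m) • aA act n s⁻¹ x) = aA act n s⁻¹ x := by
      rw [smul_smul, ← mul_pow, ← map_mul, mul_inv_cancel, map_one, one_pow, one_smul]
    rw [h3] at h4
    have h5 : (φ.compLinearMap (rn ρ n s)).toMultilinearMap =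
        φ.toMultilinearMap.compLinearMap fun _ => rn ρ n s := rfl
    have h6 : ((χ s ^ m) • φ).toMultilinearMap = (χ s ^ m) • φ.toMultilinearMap := rfl
    rw [h5, h6, Th_smul, ← h2, ← hxφ]
    exact h4.symm
  intro v
  have h2 := congrArg (fun ψ => ψ v) h1
  exact h2

end galois

end Pool.Agent.V7H7.TP
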