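import Pool.Agent.V7H7.TP.Rl
import Pool.Agent.V7H7.TP.Gal

/-!
# Hodge forms and the eigenvectors
-/

set_option autoImplicit false
set_option linter.unusedSectionVars false

open TensorProduct Module

namespace Pool.Agent.V7H7.TP

open Pool.Agent.H204R3.CM (IsHodge)
open Pool.Agent.V7H7.MS.St (perPow)

variable {H S : Type} [AddCommGroup H] [Module ℚ H] [AddCommGroup S] [Module ℂ S]
  {I : Type} [Fintype I] [DecidableEq I] (b : Basis I ℚ H) (R : Basis I ℝ S)
  {J₀ : Type} [Fintype J₀] (τ : Basis J₀ ℂ S) (n : ℕ) {κ : Type} [Fintype κ] [DecidableEq κ]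

/-- The numbers of indices on the left and on the right. -/
def aL (g : κ → JJ (J₀ ⊕ J₀) n) : ℕ := ∑ k, if (g k).2.isLeft then 1 else 0

/-- The numbers of indices on the left and on the right. -/
def aR (g : κ → JJ (J₀ ⊕ J₀) n) : ℕ := ∑ k, if (g k).2.isLeft then 0 else 1

theorem aL_add_aR (g : κ → JJ (J₀ ⊕ J₀) n) : aL n g + aR n g = Fintype.card κ := by
  unfold aL aR
  rw [← Finset.sum_add_distrib, Finset.sum_congr rfl (g := fun _ => 1), Finset.sum_const,
    Finset.card_univ, smul_eq_mul, mul_one]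
  intro k _
  split_ifs <;> rfl

theorem prod_wt (z : ℂ) (g : κ → JJ (J₀ ⊕ J₀) n) :
    ∏ k, wt z (g k).2 = z ^ aL n g * (starRingEnd ℂ) z ^ aR n g := by
  unfold aL aR
  rw [← Finset.prod_pow_eq_pow_sum, ← Finset.prod_pow_eq_pow_sum, ← Finset.prod_mul_distrib]
  refine Finset.prod_congr rfl fun k _ => ?_
  rcases (g k).2 with i | i
  · simp [wt]
  · simp [wt]

/-- The real form. -/
noncomputable def phR (φ : MultilinearMap ℂ (fun _ : κ => Fin (n + 1) → ℂ ⊗[ℚ] H) ℂ) :
    MultilinearMap ℝ (fun _ : κ => Fin (n + 1) → S) ℂ where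
  toFun t := φ fun k => sn b R n (t k)
  map_update_add' t k x y := by
    have h1 : ∀ x, (fun k' => sn b R n (Function.update t k x k')) =
        Function.update (fun k' => sn b R n (t k')) k (sn b R n x) := by
      intro x
      funext k'
      by_cases hk : k' = k
      · subst hk
        rw [Function.update_self, Function.update_self]
      · rw [Function.update_of_ne hk, Function.update_of_ne hk]
    rw [h1, h1, h1, sn_add, MultilinearMap.map_update_add]
  map_update_smul' t k c x := by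
    have h1 : ∀ x, (fun k' => sn b R n (Function.update t k x k')) =
        Function.update (fun k' => sn b R n (t k')) k (sn b R n x) := by
      intro x
      funext k'
      by_cases hk : k' = k
      · subst hk
        rw [Function.update_self, Function.update_self]
      · rw [Function.update_of_ne hk, Function.update_of_ne hk]
    rw [h1, h1, sn_smul, MultilinearMap.map_update_smul]
    rfl

theorem phR_apply (φ : MultilinearMap ℂ (fun _ : κ => Fin (n + 1) → ℂ ⊗[ℚ] H) ℂ)
    (t : κ → Fin (n + 1) → S) : phR b R n φ t = φ fun k => sn b R n (t k) := rfl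

theorem sn_perPow {per : H →+ S} (hR : ∀ j, R j = per (b j)) (v : Fin (n + 1) → H) :
    sn b R n (perPow per (n + 1) v) = fun i => (1 : ℂ) ⊗ₜ[ℚ] v i := by
  funext i
  exact sm_per b R per hR (v i)

theorem Rn_eq {per : H →+ S} (hR : ∀ j, R j = per (b j)) (j : JJ I n) :
    Rn R n j = perPow per (n + 1) (Pi.single j.1 (b j.2)) := by
  rw [Rn_apply]
  funext i
  change _ = per ((Pi.single j.1 (b j.2) : Fin (n + 1) → H) i)
  by_cases hi : i = j.1
  · subst hi
    rw [Pi.single_eq_same, Pi.single_eq_same, hR]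
  · rw [Pi.single_eq_of_ne hi, Pi.single_eq_of_ne hi, map_zero]

theorem single_tmul (L : Type) [Field L] [CharZero L] (j : JJ I n) :
    (fun i => (1 : L) ⊗ₜ[ℚ] ((Pi.single j.1 (b j.2) : Fin (n + 1) → H) i)) = En L b n j := by
  rw [En_apply]
  funext i
  by_cases hi : i = j.1
  · subst hi
    rw [Pi.single_eq_same, Pi.single_eq_same]
  · rw [Pi.single_eq_of_ne hi, Pi.single_eq_of_ne hi, TensorProduct.tmul_zero]

theorem sn_Rn {per : H →+ S} (hR : ∀ j, R j = per (b j)) (j : JJ I n) :
    sn b R n (Rn R n j) = En ℂ b n j := by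
  rw [Rn_eq b R n hR, sn_perPow b R n hR, single_tmul]

/-- **Hodge forms are balanced.** -/
theorem bal_of_hodge {per : H →+ S} (hR : ∀ j, R j = per (b j))
    {φ : MultilinearMap ℂ (fun _ : κ => Fin (n + 1) → ℂ ⊗[ℚ] H) ℂ}
    {f : (Fin (n + 1) → H) [⋀^κ]→ₗ[ℚ] ℚ}
    (hφ : ∀ v : κ → Fin (n + 1) → H, φ (fun k i => (1 : ℂ) ⊗ₜ[ℚ] v k i) = ((f v : ℚ) : ℂ))
    (hf : IsHodge (perPow per (n + 1)) f) {g : κ → JJ (J₀ ⊕ J₀) n} (hg : aL n g ≠ aR n g) :
    φ (fun k => Un b R τ n (g k)) = 0 := by
  obtain ⟨ψ, hψ, hz⟩ := hf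
  have key0 : phR b R n φ = (Complex.ofRealCLM.toLinearMap).compMultilinearMap ψ := by
    refine Basis.ext_multilinear (fun _ => Rn R n) fun j => ?_
    rw [phR_apply, LinearMap.compMultilinearMap_apply]
    have h1 : (fun k => sn b R n (Rn R n (j k))) =
        fun k i => (1 : ℂ) ⊗ₜ[ℚ] ((Pi.single (j k).1 (b (j k).2) : Fin (n + 1) → H) i) := by
      funext k
      rw [sn_Rn b R n hR, single_tmul]
    have h2 : (fun k => Rn R n (j k)) =
        fun k => perPow per (n + 1) (Pi.single (j k).1 (b (j k).2)) := by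
      funext k
      exact Rn_eq b R n hR _
    rw [h1, h2, hψ, hφ]
    rfl
  have key1 : ∀ t : κ → Fin (n + 1) → S, φ (fun k => sn b R n (t k)) = ((ψ t : ℝ) : ℂ) := by
    intro t
    rw [← phR_apply, key0]
    rfl
  have key2 : ∀ z : ℂ, ‖z‖ = 1 → φ.compLinearMap (fun _ => Gn b R n z) = φ := by
    intro z hz1
    refine Basis.ext_multilinear (fun _ => En ℂ b n) fun j => ?_
    rw [MultilinearMap.compLinearMap_apply]
    have h1 : (fun k => Gn b R n z (En ℂ b n (j k))) =
        fun k => sn b R n (z • Rn R n (j k)) := by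
      funext k
      rw [← sn_Rn b R n hR, Gn_sn]
    have h2 : (fun k => En ℂ b n (j k)) = fun k => sn b R n (Rn R n (j k)) := by
      funext k
      rw [sn_Rn b R n hR]
    rw [h1, h2, key1, key1, hz z hz1]
  have key3 : ∀ z : ℂ, ‖z‖ = 1 → φ (fun k => Un b R τ n (g k)) =
      (z ^ aL n g * (starRingEnd ℂ) z ^ aR n g) * φ (fun k => Un b R τ n (g k)) := by
    intro z hz1
    have h1 := congrArg (fun χ => χ (fun k => Un b R τ n (g k))) (key2 z hz1)
    simp only [MultilinearMap.compLinearMap_apply, Gn_Un, MultilinearMap.map_smul_univ,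
      smul_eq_mul, prod_wt] at h1
    exact h1.symm
  -- a suitable number
  have hne : ((aL n g : ℝ) - aR n g) ≠ 0 := by
    rw [sub_ne_zero]
    exact_mod_cast hg
  let θ : ℝ := Real.pi / ((aL n g : ℝ) - aR n g)
  have h1 := key3 (Complex.exp (θ * Complex.I)) (Complex.norm_exp_ofReal_mul_I θ)
  have h2 : Complex.exp (θ * Complex.I) ^ aL n g *
      (starRingEnd ℂ) (Complex.exp (θ * Complex.I)) ^ aR n g = -1 := by
    rw [← Complex.exp_conj, map_mul, Complex.conj_ofReal, Complex.conj_I, ← Complex.exp_nat_mul,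
      ← Complex.exp_nat_mul, ← Complex.exp_add]
    have h3 : (aL n g : ℂ) * (θ * Complex.I) + (aR n g : ℂ) * (θ * -Complex.I) =
        Real.pi * Complex.I := by
      have h4 : ((aL n g : ℂ) - aR n g) * θ = Real.pi := by
        have h5 : ((aL n g : ℝ) - aR n g) * θ = Real.pi := by
          change ((aL n g : ℝ) - aR n g) * (Real.pi / ((aL n g : ℝ) - aR n g)) = Real.pi
          field_simp
        exact_mod_cast congrArg Complex.ofReal h5
      linear_combination Complex.I * h4
    rw [h3, Complex.exp_pi_mul_I]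
  rw [h2] at h1
  have h3 : (2 : ℂ) * φ (fun k => Un b R τ n (g k)) = 0 := by linear_combination h1
  exact (mul_eq_zero.1 h3).resolve_left two_ne_zero

/-- **Balanced forms are Hodge forms.** -/
theorem hodge_of_bal {per : H →+ S} (hR : ∀ j, R j = per (b j))
    {φ : MultilinearMap ℂ (fun _ : κ => Fin (n + 1) → ℂ ⊗[ℚ] H) ℂ}
    {f : (Fin (n + 1) → H) [⋀^κ]→ₗ[ℚ] ℚ}
    (hφ : ∀ v : κ → Fin (n + 1) → H, φ (fun k i => (1 : ℂ) ⊗ₜ[ℚ] v k i) = ((f v : ℚ) : ℂ))
    (hb : ∀ g : κ → JJ (J₀ ⊕ J₀) n, aL n g ≠ aR n g → φ (fun k => Un b R τ n (g k)) = 0) :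
    IsHodge (perPow per (n + 1)) f := by
  have key2 : ∀ z : ℂ, ‖z‖ = 1 → φ.compLinearMap (fun _ => Gn b R n z) = φ := by
    intro z hz1
    refine Basis.ext_multilinear (fun _ => En ℂ b n) fun j => ?_
    rw [MultilinearMap.compLinearMap_apply]
    have h1 : ∀ k, En ℂ b n (j k) = ∑ j', Cn R τ n j' (j k) • Un b R τ n j' := by
      intro k
      rw [En_apply]
      exact En_Un b R τ n (j k)
    have h2 : (fun k => Gn b R n z (En ℂ b n (j k))) =
        fun k => ∑ j', (Cn R τ n j' (j k) * wt z j'.2) • Un b R τ n j' := by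
      funext k
      rw [h1, map_sum]
      refine Finset.sum_congr rfl fun j' _ => ?_
      rw [map_smul, Gn_Un, smul_smul]
    have h3 : (fun k => En ℂ b n (j k)) = fun k => ∑ j', Cn R τ n j' (j k) • Un b R τ n j' := by
      funext k
      exact h1 k
    rw [h2, h3, MultilinearMap.map_sum, MultilinearMap.map_sum]
    refine Finset.sum_congr rfl fun g _ => ?_
    rw [MultilinearMap.map_smul_univ, MultilinearMap.map_smul_univ, Finset.prod_mul_distrib,
      prod_wt]
    by_cases hg : aL n g = aR n g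
    · have h4 : z ^ aL n g * (starRingEnd ℂ) z ^ aR n g = 1 := by
        rw [← hg, ← mul_pow, Complex.mul_conj, Complex.normSq_eq_norm_sq, hz1]
        simp
      rw [h4, mul_one]
    · rw [hb g hg, smul_zero, smul_zero]
  refine ⟨(Complex.reCLM.toLinearMap).compMultilinearMap (phR b R n φ), fun v => ?_,
    fun z hz u => ?_⟩
  · rw [LinearMap.compMultilinearMap_apply, phR_apply]
    have h1 : (fun k => sn b R n (perPow per (n + 1) (v k))) =
        fun k i => (1 : ℂ) ⊗ₜ[ℚ] v k i := by
      funext k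
      exact sn_perPow b R n hR (v k)
    rw [h1, hφ]
    change (((f v : ℚ) : ℂ)).re = _
    exact Complex.ratCast_re _
  · rw [LinearMap.compMultilinearMap_apply, LinearMap.compMultilinearMap_apply, phR_apply,
      phR_apply]
    congr 1
    have h1 : (fun k => sn b R n (z • u k)) = fun k => Gn b R n z (sn b R n (u k)) := by
      funext k
      rw [Gn_sn]
    rw [h1]
    exact congrArg (fun χ => χ (fun k => sn b R n (u k))) (key2 z hz)

end Pool.Agent.V7H7.TP
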