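import Pool.Agent.V7H7.TP.Hf
import Pool.Agent.N996.FP.FinS

/-!
# Hodge types of the classes
-/

set_option autoImplicit false
set_option linter.unusedSectionVars false

open CategoryTheory AlgebraicGeometry TensorProduct

universe u

namespace Pool.Agent.V7H7.TP

open Module
open Pool.Agent.H914 Pool.Agent.H914.VarClass Pool.Agent.H914.VarClass.Obj
  Pool.Agent.H914.WeilCohomology Pool.Agent.Y121.AHS
open Pool.Agent.Y133.Half (pw)
open Pool.Agent.N996.FP (pr IsCoordinateMap IsPolarisation RForm conjH)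
open Pool.Agent.V7H7.MS.St (perPow)

variable {k : Type u} [Field k] {𝒱 : VarClass k} {ops : CycleOps 𝒱} {T : HodgeTheory ops}
  {X : 𝒱.Obj} {I : Type} [Fintype I] [DecidableEq I]
  {H S : Type} [AddCommGroup H] [Module ℚ H] [AddCommGroup S] [Module ℂ S]
  {per : H →+ S} {f : H →+ (T.W.H X →ₗ[T.W.K] T.W.K)} {b : Basis I ℚ H} {a : I → T.W.H X}
  {R : Basis I ℝ S} {J₀ : Type} [Fintype J₀] {τ : Basis J₀ ℂ S}

/-- The classes of type `(1, 0)` and `(0, 1)`. -/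
noncomputable def wv (a : I → T.W.H X) (R : Basis I ℝ S) (τ : Basis J₀ ℂ S) (i : J₀ ⊕ J₀) :
    ℂ ⊗[T.W.K] T.W.H X := ∑ j, Cc R τ i j • ((1 : ℂ) ⊗ₜ[T.W.K] a j)

theorem pairing_h (ha : IsDual f b a) (h : H) (j : I) :
    St.pairing f ℂ ((1 : ℂ) ⊗ₜ[ℚ] h) ((1 : ℂ) ⊗ₜ[T.W.K] a j) = ((b.repr h j : ℚ) : ℂ) := by
  conv_lhs => rw [← b.sum_repr h]
  rw [TensorProduct.tmul_sum, map_sum, LinearMap.sum_apply, Finset.sum_eq_single j]
  · rw [rat_smul_eq, map_smul, LinearMap.smul_apply, pairing_dual ha, if_pos rfl, smul_eq_mul,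
      mul_one, Complex.ofReal_ratCast]
  · intro i _ hi
    rw [rat_smul_eq, map_smul, LinearMap.smul_apply, pairing_dual ha, if_neg (fun h => hi h.symm),
      smul_zero]
  · intro hj
    exact absurd (Finset.mem_univ j) hj

theorem wv_deg (ha : IsDual f b a) (i : J₀ ⊕ J₀) : dg 1 (wv a R τ i) := by
  unfold wv dg
  exact Submodule.sum_mem _ fun j _ => Submodule.smul_mem _ _ (tmul_deg (ha.mem j))

/-- The classes of type `(p, q)`. -/
noncomputable def pt (T : HodgeTheory ops) (Y : 𝒱.Obj) (p q : ℤ) :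
    Submodule ℂ (ℂ ⊗[T.W.K] T.W.H Y) := T.pq Y p q

theorem wv_inl (hH : St.IsFirstHomology T X per f) (ha : IsDual f b a)
    (hR : ∀ j, R j = per (b j)) (i : J₀) : wv a R τ (Sum.inl i) ∈ pt T X 1 0 := by
  refine (hH.holomorphic _).2 ⟨wv_deg ha _, τ.coord i, fun h => ?_⟩
  change St.pairing f ℂ ((1 : ℂ) ⊗ₜ[ℚ] h) (wv a R τ (Sum.inl i)) = _
  unfold wv
  rw [map_sum]
  have h1 : per h = ∑ j, (((b.repr h j : ℚ) : ℝ) : ℂ) • R j := by
    conv_lhs => rw [← b.sum_repr h]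
    rw [map_sum]
    refine Finset.sum_congr rfl fun j _ => ?_
    rw [hR, Complex.ofReal_ratCast]
    exact map_ratCast_smul per ℚ ℂ (b.repr h j) (b j)
  rw [h1, map_sum]
  refine Finset.sum_congr rfl fun j _ => ?_
  rw [map_smul, map_smul, pairing_h ha, Basis.coord_apply, smul_eq_mul, smul_eq_mul, mul_comm,
    Complex.ofReal_ratCast]
  rfl

theorem conj_wv (i : J₀) : TensorProduct.map (Pool.Agent.N996.BP.conjK T.rat)
    (LinearMap.id : T.W.H X →ₗ[T.W.K] _) (wv a R τ (Sum.inl i)) = wv a R τ (Sum.inr i) := by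
  unfold wv
  rw [map_sum]
  refine Finset.sum_congr rfl fun j _ => ?_
  rw [TensorProduct.smul_tmul', TensorProduct.map_tmul, TensorProduct.smul_tmul', smul_eq_mul,
    smul_eq_mul, mul_one, mul_one]
  rfl

theorem wv_inr {ψ : RForm T.W X} (hψ : IsPolarisation T X ψ) (hH : St.IsFirstHomology T X per f)
    (ha : IsDual f b a) (hR : ∀ j, R j = per (b j)) (i : J₀) :
    wv a R τ (Sum.inr i) ∈ pt T X 0 1 := by
  rw [← conj_wv]
  exact hψ.conj 1 0 _ (wv_inl hH ha hR i)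

/-- The classes on the powers. -/
noncomputable def wn (a : I → T.W.H X) (R : Basis I ℝ S) (τ : Basis J₀ ℂ S) (n : ℕ)
    (j : JJ (J₀ ⊕ J₀) n) : ℂ ⊗[T.W.K] T.W.H (pw X n) :=
  mB (W := T.W) ℂ (pr X n j.1) (wv a R τ j.2)

theorem wn_type {ψ : RForm T.W X} (hψ : IsPolarisation T X ψ)
    (hH : St.IsFirstHomology T X per f) (ha : IsDual f b a) (hR : ∀ j, R j = per (b j)) (n : ℕ)
    (j : JJ (J₀ ⊕ J₀) n) : wn a R τ n j ∈
      pt T (pw X n) (if j.2.isLeft then 1 else 0) (if j.2.isLeft then 0 else 1) := by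
  obtain ⟨t, i | i⟩ := j
  · exact T.map _ _ (pr X n t) 1 0 _ (wv_inl hH ha hR i)
  · exact T.map _ _ (pr X n t) 0 1 _ (wv_inr hψ hH ha hR i)

theorem wn_bl (n : ℕ) (j' : JJ (J₀ ⊕ J₀) n) :
    wn a R τ n j' = ∑ j, Cn R τ n j' j • bl ℂ a n j := by
  obtain ⟨t, i⟩ := j'
  unfold wn wv
  rw [map_sum, Fintype.sum_sigma, Finset.sum_eq_single t]
  · refine Finset.sum_congr rfl fun j _ => ?_
    rw [map_smul, mB_tmul]
    unfold Cn
    rw [if_pos rfl]
    rfl
  · intro t' _ ht'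
    refine Finset.sum_eq_zero fun j _ => ?_
    unfold Cn
    rw [if_neg (fun h => ht' h.symm), zero_smul]
  · intro ht
    exact absurd (Finset.mem_univ t) ht

theorem wn_anti (ha : IsDual f b a) (n : ℕ) : Anti (wn a R τ n) :=
  anti_of_span ℂ (bl_anti (L := ℂ) ha.mem n) fun j' => ⟨_, wn_bl n j'⟩

theorem bl_wn (b : Basis I ℚ H) (n : ℕ) (j : JJ I n) :
    ∃ c : JJ (J₀ ⊕ J₀) n → ℂ, bl ℂ a n j = ∑ j', c j' • wn a R τ n j' := by
  classical
  let D : JJ I n → JJ (J₀ ⊕ J₀) n → ℂ := fun j j' => (En ℂ b n).repr (Un b R τ n j') j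
  have h1 : ∀ i j : JJ I n, ∑ j', D j j' * Cn R τ n j' i = if j = i then 1 else 0 := by
    intro i j
    have h2 : En ℂ b n i = ∑ j', Cn R τ n j' i • Un b R τ n j' := by
      rw [En_apply]
      exact En_Un b R τ n i
    have h3 := congrArg (fun v => (En ℂ b n).repr v j) h2
    simp only [Basis.repr_self, map_sum, map_smul, Finsupp.coe_finset_sum, Finset.sum_apply,
      Finsupp.smul_apply, smul_eq_mul] at h3
    rw [Finsupp.single_apply] at h3
    have h4 : (if i = j then (1 : ℂ) else 0) = if j = i then 1 else 0 := by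
      by_cases hij : i = j
      · rw [if_pos hij, if_pos hij.symm]
      · rw [if_neg hij, if_neg (fun h => hij h.symm)]
    rw [h4] at h3
    rw [h3]
    refine Finset.sum_congr rfl fun j' _ => ?_
    rw [mul_comm]
  refine ⟨D j, ?_⟩
  simp_rw [wn_bl, Finset.smul_sum, smul_smul]
  rw [Finset.sum_comm]
  simp_rw [← Finset.sum_smul, h1]
  rw [Finset.sum_eq_single j]
  · rw [if_pos rfl, one_smul]
  · intro i _ hi
    rw [if_neg (fun h => hi h.symm), zero_smul]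
  · intro hj
    exact absurd (Finset.mem_univ j) hj

theorem wn_top (b : Basis I ℚ H) {n : ℕ} (ht : Top (al a n))
    (hc : Fintype.card I = 2 * Fintype.card J₀) : Top (wn a R τ n) := by
  refine top_of_span ℂ (bl_top (L := ℂ) ht) ?_ (bl_wn b n)
  rw [Fintype.card_sigma, Fintype.card_sigma, Finset.sum_const, Finset.sum_const,
    Fintype.card_sum, hc]
  ring

/-- The class of a form, in the eigenvectors. -/
theorem Th_wn {κ : Type} [Fintype κ] [DecidableEq κ] {r : ℕ} (ε : Fin r ≃ κ) (n : ℕ)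
    (φ : MultilinearMap ℂ (fun _ : κ => Fin (n + 1) → ℂ ⊗[ℚ] H) ℂ) :
    Th ε φ (En ℂ b n) (bl ℂ a n) = Th ε φ (Un b R τ n) (wn a R τ n) := by
  refine Th_change ε φ (Un b R τ n) (En ℂ b n) (Cn R τ n) (fun j => ?_) (bl ℂ a n) _ (wn_bl n)
  rw [En_apply]
  exact En_Un b R τ n j

theorem one_type (Y : 𝒱.Obj) : (1 : ℂ ⊗[T.W.K] T.W.H Y) ∈ pt T Y 0 0 := by
  have h1 := (Pool.Agent.N996.BP.Geo.isHodge_one (T := toH T) (X := Y)).2
  exact h1

theorem P_type {Y : 𝒱.Obj} {r : ℕ} (x : Fin r → ℂ ⊗[T.W.K] T.W.H Y) (p q : Fin r → ℤ)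
    (hx : ∀ i, x i ∈ pt T Y (p i) (q i)) : P x ∈ pt T Y (∑ i, p i) (∑ i, q i) := by
  induction r with
  | zero =>
    rw [P_zero, Finset.univ_eq_empty, Finset.sum_empty, Finset.sum_empty]
    exact one_type Y
  | succ r ih =>
    rw [P_succ, Fin.sum_univ_succ, Fin.sum_univ_succ]
    exact T.mul Y _ _ _ _ _ _ (hx 0) (ih _ _ _ fun i => hx i.succ)

theorem P_wn_type {ψ : RForm T.W X} (hψ : IsPolarisation T X ψ)
    (hH : St.IsFirstHomology T X per f) (ha : IsDual f b a) (hR : ∀ j, R j = per (b j)) (n : ℕ)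
    {κ : Type} [Fintype κ] [DecidableEq κ] {r : ℕ} (ε : Fin r ≃ κ) (g : κ → JJ (J₀ ⊕ J₀) n) :
    P (fun i => wn a R τ n (g (ε i))) ∈ pt T (pw X n) (aL n g : ℤ) (aR n g : ℤ) := by
  have h1 := P_type (fun i => wn a R τ n (g (ε i))) _ _
    fun i => wn_type hψ hH ha hR n (g (ε i))
  have h2 : (∑ i, (if (g (ε i)).2.isLeft then (1 : ℤ) else 0)) = (aL n g : ℤ) := by
    unfold aL
    rw [Equiv.sum_comp ε (fun k => if (g k).2.isLeft then (1 : ℤ) else 0)]
    push_cast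
    rfl
  have h3 : (∑ i, (if (g (ε i)).2.isLeft then (0 : ℤ) else 1)) = (aR n g : ℤ) := by
    unfold aR
    rw [Equiv.sum_comp ε (fun k => if (g k).2.isLeft then (0 : ℤ) else 1)]
    push_cast
    rfl
  rw [h2, h3] at h1
  exact h1

/-- **Balanced forms have classes of type `(m, m)`.** -/
theorem type_of_bal {ψ : RForm T.W X} (hψ : IsPolarisation T X ψ)
    (hH : St.IsFirstHomology T X per f) (ha : IsDual f b a) (hR : ∀ j, R j = per (b j)) (n m : ℕ)
    (φ : MultilinearMap ℂ (fun _ : Fin m × Fin 2 => Fin (n + 1) → ℂ ⊗[ℚ] H) ℂ)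
    (hb : ∀ g : Fin m × Fin 2 → JJ (J₀ ⊕ J₀) n, aL n g ≠ aR n g →
      φ (fun k => Un b R τ n (g k)) = 0) :
    Th (e2 m) φ (En ℂ b n) (bl ℂ a n) ∈ pt T (pw X n) m m := by
  rw [Th_wn (R := R) (τ := τ)]
  unfold Th
  refine Submodule.sum_mem _ fun g _ => ?_
  by_cases hg : aL n g = aR n g
  · refine Submodule.smul_mem _ _ ?_
    have h1 := P_wn_type (τ := τ) hψ hH ha hR n (e2 m) g
    have h2 := aL_add_aR n g
    rw [Fintype.card_prod, Fintype.card_fin, Fintype.card_fin] at h2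
    have h3 : aL n g = m := by omega
    have h4 : aR n g = m := by omega
    rw [h3, h4] at h1
    exact h1
  · rw [hb g hg, zero_smul]
    exact Submodule.zero_mem _

/-- **Forms with classes of type `(m, m)` are balanced.** -/
theorem bal_of_type {ψ : RForm T.W X} (hψ : IsPolarisation T X ψ)
    (hH : St.IsFirstHomology T X per f) (ha : IsDual f b a) (hR : ∀ j, R j = per (b j)) {n m : ℕ}
    (ht : Top (al a n)) (hc : Fintype.card I = 2 * Fintype.card J₀)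
    (φ : (Fin (n + 1) → ℂ ⊗[ℚ] H) [⋀^Fin m × Fin 2]→ₗ[ℂ] ℂ)
    (hty : Th (e2 m) φ.toMultilinearMap (En ℂ b n) (bl ℂ a n) ∈ pt T (pw X n) m m)
    (g₀ : Fin m × Fin 2 → JJ (J₀ ⊕ J₀) n) (hg₀ : aL n g₀ ≠ aR n g₀) :
    φ (fun k => Un b R τ n (g₀ k)) = 0 := by
  classical
  by_cases hinj : Function.Injective g₀
  swap
  · unfold Function.Injective at hinj
    push Not at hinj
    obtain ⟨x, y, hxy, hne⟩ := hinj
    exact φ.map_eq_zero_of_eq _ (by rw [hxy]) hne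
  rw [Th_wn (R := R) (τ := τ)] at hty
  let F : (Fin m × Fin 2 → JJ (J₀ ⊕ J₀) n) → ℂ := fun g =>
    if aL n g = aL n g₀ then φ (fun k => Un b R τ n (g k)) else 0
  have hF : ∀ (g : Fin m × Fin 2 → JJ (J₀ ⊕ J₀) n) (σ : Equiv.Perm (Fin m × Fin 2)),
      F (fun k => g (σ k)) = ((Equiv.Perm.sign σ : ℤ) : ℂ) * F g := by
    intro g σ
    have h1 : aL n (fun k => g (σ k)) = aL n g :=
      Equiv.sum_comp σ (fun k => if (g k).2.isLeft then 1 else 0)
    change (if aL n (fun k => g (σ k)) = aL n g₀ then _ else _) = _ * (if _ then _ else _)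
    rw [h1]
    split_ifs with h
    · have h2 := φ.map_perm (fun k => Un b R τ n (g k)) σ
      have h3 : ((fun k => Un b R τ n (g k)) ∘ σ) = fun k => Un b R τ n (g (σ k)) := rfl
      rw [h3] at h2
      rw [h2]
      rcases Int.units_eq_one_or (Equiv.Perm.sign σ) with h | h
      · rw [h]; simp
      · rw [h]; simp
    · rw [mul_zero]
  have hcard : ∀ g : Fin m × Fin 2 → JJ (J₀ ⊕ J₀) n, aL n g + aR n g = 2 * m := by
    intro g
    have h2 := aL_add_aR n g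
    rw [Fintype.card_prod, Fintype.card_fin, Fintype.card_fin] at h2
    omega
  -- the component
  obtain ⟨x, hx⟩ : ∃ x : ℂ ⊗[T.W.K] T.W.H (pw X n), x =
      ∑ g : Fin m × Fin 2 → JJ (J₀ ⊕ J₀) n, F g • P (fun i => wn a R τ n (g (e2 m i))) :=
    ⟨_, rfl⟩
  obtain ⟨y, hy⟩ : ∃ y : ℂ ⊗[T.W.K] T.W.H (pw X n), y =
      ∑ g : Fin m × Fin 2 → JJ (J₀ ⊕ J₀) n, (φ (fun k => Un b R τ n (g k)) - F g) •
        P (fun i => wn a R τ n (g (e2 m i))) := ⟨_, rfl⟩
  have hxy : x + y = Th (e2 m) φ.toMultilinearMap (Un b R τ n) (wn a R τ n) := by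
    rw [hx, hy, ← Finset.sum_add_distrib]
    refine Finset.sum_congr rfl fun g _ => ?_
    rw [← add_smul, add_sub_cancel]
    rfl
  have hxt : x ∈ pt T (pw X n) (aL n g₀ : ℤ) (aR n g₀ : ℤ) := by
    rw [hx]
    refine Submodule.sum_mem _ fun g _ => ?_
    by_cases hg : aL n g = aL n g₀
    · refine Submodule.smul_mem _ _ ?_
      have h1 := P_wn_type (τ := τ) hψ hH ha hR n (e2 m) g
      have h2 : aR n g = aR n g₀ := by
        have := hcard g
        have := hcard g₀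
        omega
      rw [hg, h2] at h1
      exact h1
    · have h1 : F g = 0 := if_neg hg
      rw [h1, zero_smul]
      exact Submodule.zero_mem _
  have hother : ∀ z : ℂ ⊗[T.W.K] T.W.H (pw X n), ∀ p q : ℤ, z ∈ pt T (pw X n) p q →
      (p, q) ≠ ((aL n g₀ : ℤ), (aR n g₀ : ℤ)) →
      z ∈ ⨆ r : ℤ × ℤ, ⨆ (_ : r ≠ ((aL n g₀ : ℤ), (aR n g₀ : ℤ))), pt T (pw X n) r.1 r.2 := by
    intro z p q hz hpq
    exact Submodule.mem_iSup_of_mem (p, q) (Submodule.mem_iSup_of_mem hpq hz)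
  have hyt : y ∈ ⨆ r : ℤ × ℤ, ⨆ (_ : r ≠ ((aL n g₀ : ℤ), (aR n g₀ : ℤ))),
      pt T (pw X n) r.1 r.2 := by
    rw [hy]
    refine Submodule.sum_mem _ fun g _ => ?_
    by_cases hg : aL n g = aL n g₀
    · have h1 : F g = φ (fun k => Un b R τ n (g k)) := if_pos hg
      rw [h1, sub_self, zero_smul]
      exact Submodule.zero_mem _
    · refine Submodule.smul_mem _ _ ?_
      refine hother _ _ _ (P_wn_type (τ := τ) hψ hH ha hR n (e2 m) g) ?_
      intro h
      have h3 : (aL n g : ℤ) = aL n g₀ := (Prod.ext_iff.1 h).1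
      exact hg (by exact_mod_cast h3)
  have hmt : x + y ∈ ⨆ r : ℤ × ℤ, ⨆ (_ : r ≠ ((aL n g₀ : ℤ), (aR n g₀ : ℤ))),
      pt T (pw X n) r.1 r.2 := by
    rw [hxy]
    refine hother _ _ _ hty ?_
    intro h
    apply hg₀
    have h1 : (m : ℤ) = aL n g₀ := (Prod.ext_iff.1 h).1
    have h2 : (m : ℤ) = aR n g₀ := (Prod.ext_iff.1 h).2
    omega
  have hx' : x ∈ ⨆ r : ℤ × ℤ, ⨆ (_ : r ≠ ((aL n g₀ : ℤ), (aR n g₀ : ℤ))),
      pt T (pw X n) r.1 r.2 := by
    have h1 := Submodule.sub_mem _ hmt hyt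
    rwa [add_sub_cancel_right] at h1
  have hind : iSupIndep fun r : ℤ × ℤ => pt T (pw X n) r.1 r.2 := T.indep (pw X n)
  have hx0 : x = 0 :=
    Submodule.disjoint_def.1 (hind ((aL n g₀ : ℤ), (aR n g₀ : ℤ))) x hxt hx'
  have h1 := coef_zero (L := ℂ) (wn_anti (R := R) (τ := τ) ha n) (wn_top b ht hc) (e2 m) F hF
    (by rw [← hx0, hx]) g₀ hinj
  have h2 : F g₀ = φ (fun k => Un b R τ n (g₀ k)) := if_pos rfl
  rw [← h2, h1]

end Pool.Agent.V7H7.TP
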