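import Mathlib

/-!
# The complex structure on the homology
-/

set_option autoImplicit false
set_option linter.unusedSectionVars false

open TensorProduct Module

namespace Pool.Agent.V7H7.TP

variable {H S : Type} [AddCommGroup H] [Module ℚ H] [AddCommGroup S] [Module ℂ S]
  {I : Type} [Fintype I] [DecidableEq I] (b : Basis I ℚ H) (R : Basis I ℝ S)

/-- The map from the tangent space to the homology with complex coefficients. -/
noncomputable def sm (t : S) : ℂ ⊗[ℚ] H := ∑ j, ((R.repr t j : ℝ) : ℂ) • ((1 : ℂ) ⊗ₜ[ℚ] b j)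

theorem sm_add (t u : S) : sm b R (t + u) = sm b R t + sm b R u := by
  unfold sm
  rw [← Finset.sum_add_distrib]
  refine Finset.sum_congr rfl fun j _ => ?_
  rw [map_add, Finsupp.add_apply, Complex.ofReal_add, add_smul]

theorem sm_smul (x : ℝ) (t : S) : sm b R (x • t) = (x : ℂ) • sm b R t := by
  unfold sm
  rw [Finset.smul_sum]
  refine Finset.sum_congr rfl fun j _ => ?_
  rw [map_smul, Finsupp.smul_apply, smul_eq_mul, Complex.ofReal_mul, mul_smul]

theorem sm_sum {ι : Type} (s : Finset ι) (t : ι → S) :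
    sm b R (∑ i ∈ s, t i) = ∑ i ∈ s, sm b R (t i) := by
  classical
  induction s using Finset.induction_on with
  | empty =>
    rw [Finset.sum_empty, Finset.sum_empty]
    have h1 := sm_smul b R 0 (0 : S)
    rw [zero_smul] at h1
    rw [h1, Complex.ofReal_zero, zero_smul]
  | insert a s ha ih => rw [Finset.sum_insert ha, Finset.sum_insert ha, sm_add, ih]

theorem sm_R (j : I) : sm b R (R j) = (1 : ℂ) ⊗ₜ[ℚ] b j := by
  unfold sm
  rw [Finset.sum_eq_single j]
  · rw [Basis.repr_self, Finsupp.single_eq_same, Complex.ofReal_one, one_smul]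
  · intro i _ hi
    rw [Basis.repr_self, Finsupp.single_eq_of_ne hi, Complex.ofReal_zero, zero_smul]
  · intro h
    exact absurd (Finset.mem_univ j) h

theorem rat_smul_eq (q : ℚ) (h : H) : (1 : ℂ) ⊗ₜ[ℚ] (q • h) = ((q : ℝ) : ℂ) • ((1 : ℂ) ⊗ₜ[ℚ] h) := by
  have h1 : ((q : ℝ) : ℂ) = (q : ℂ) := Complex.ofReal_ratCast q
  rw [TensorProduct.tmul_smul, h1]
  exact (Rat.cast_smul_eq_qsmul ℂ q _).symm

theorem sm_per (per : H →+ S) (hR : ∀ j, R j = per (b j)) (h : H) :
    sm b R (per h) = (1 : ℂ) ⊗ₜ[ℚ] h := by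
  have h1 : per h = ∑ j, ((b.repr h j : ℚ) : ℝ) • R j := by
    conv_lhs => rw [← b.sum_repr h]
    rw [map_sum]
    refine Finset.sum_congr rfl fun j _ => ?_
    rw [hR]
    exact map_ratCast_smul per ℚ ℝ (b.repr h j) (b j)
  rw [h1, sm_sum]
  conv_rhs => rw [← b.sum_repr h]
  rw [TensorProduct.tmul_sum]
  refine Finset.sum_congr rfl fun j _ => ?_
  rw [sm_smul, sm_R, rat_smul_eq]

theorem csmul_eq (z : ℂ) (t : S) : z • t = z.re • t + z.im • (Complex.I • t) := by
  conv_lhs => rw [← Complex.re_add_im z]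
  rw [add_smul, mul_smul]
  rfl

theorem sm_csmul (z : ℂ) (t : S) : sm b R (z • t) =
    (z.re : ℂ) • sm b R t + (z.im : ℂ) • sm b R (Complex.I • t) := by
  rw [csmul_eq z t, sm_add, sm_smul, sm_smul]

/-- The part of type `(-1, 0)`. -/
noncomputable def up (t : S) : ℂ ⊗[ℚ] H :=
  (1 / 2 : ℂ) • (sm b R t - Complex.I • sm b R (Complex.I • t))

/-- The part of type `(0, -1)`. -/
noncomputable def um (t : S) : ℂ ⊗[ℚ] H :=
  (1 / 2 : ℂ) • (sm b R t + Complex.I • sm b R (Complex.I • t))

theorem up_add_um (t : S) : up b R t + um b R t = sm b R t := by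
  unfold up um
  rw [← smul_add]
  have h1 : sm b R t - Complex.I • sm b R (Complex.I • t) + (sm b R t +
      Complex.I • sm b R (Complex.I • t)) = (2 : ℂ) • sm b R t := by
    rw [two_smul]
    abel
  rw [h1, smul_smul]
  norm_num

theorem sm_Iz (z : ℂ) (t : S) : sm b R (Complex.I • z • t) =
    -((z.im : ℂ) • sm b R t) + (z.re : ℂ) • sm b R (Complex.I • t) := by
  have h1 : Complex.I • z • t = (Complex.I * z) • t := by rw [mul_smul]
  rw [h1, sm_csmul]
  have h2 : (Complex.I * z).re = -z.im := by simp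
  have h3 : (Complex.I * z).im = z.re := by simp
  rw [h2, h3]
  push_cast
  rw [neg_smul]

theorem up_smul (z : ℂ) (t : S) : up b R (z • t) = z • up b R t := by
  unfold up
  rw [sm_csmul, sm_Iz]
  have hz : z = (z.re : ℂ) + z.im * Complex.I := (Complex.re_add_im z).symm
  generalize sm b R t = u
  generalize sm b R (Complex.I • t) = v
  conv_rhs => rw [hz]
  generalize (z.re : ℂ) = x
  generalize (z.im : ℂ) = y
  have hI : Complex.I * Complex.I = -1 := Complex.I_mul_I
  rw [smul_smul, mul_comm (x + y * Complex.I) (1 / 2 : ℂ), ← smul_smul]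
  congr 1
  have h1 : (x + y * Complex.I) • (u - Complex.I • v) = (x + y * Complex.I) • u -
      ((x + y * Complex.I) * Complex.I) • v := by
    rw [smul_sub, smul_smul]
  rw [h1]
  have h2 : (x + y * Complex.I) * Complex.I = x * Complex.I - y := by
    linear_combination y * hI
  rw [h2, smul_add, smul_neg, smul_smul, smul_smul, add_smul, sub_smul,
    mul_comm Complex.I x, mul_comm Complex.I y]
  abel

theorem um_smul (z : ℂ) (t : S) : um b R (z • t) = (starRingEnd ℂ) z • um b R t := by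
  unfold um
  rw [sm_csmul, sm_Iz]
  have hz : (starRingEnd ℂ) z = (z.re : ℂ) - z.im * Complex.I := by
    rw [Complex.ext_iff]
    simp
  generalize sm b R t = u
  generalize sm b R (Complex.I • t) = v
  rw [hz]
  generalize (z.re : ℂ) = x
  generalize (z.im : ℂ) = y
  have hI : Complex.I * Complex.I = -1 := Complex.I_mul_I
  rw [smul_smul, mul_comm (x - y * Complex.I) (1 / 2 : ℂ), ← smul_smul]
  congr 1
  have h1 : (x - y * Complex.I) • (u + Complex.I • v) = (x - y * Complex.I) • u +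
      ((x - y * Complex.I) * Complex.I) • v := by
    rw [smul_add, smul_smul]
  rw [h1]
  have h2 : (x - y * Complex.I) * Complex.I = x * Complex.I + y := by
    linear_combination -y * hI
  rw [h2, smul_add, smul_neg, smul_smul, smul_smul, sub_smul, add_smul,
    mul_comm Complex.I x, mul_comm Complex.I y]
  abel

theorem up_add (t u : S) : up b R (t + u) = up b R t + up b R u := by
  have h : Complex.I • (t + u) = Complex.I • t + Complex.I • u := smul_add _ _ _
  unfold up
  rw [h, sm_add, sm_add]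
  simp only [smul_add, smul_sub]
  abel

theorem um_add (t u : S) : um b R (t + u) = um b R t + um b R u := by
  have h : Complex.I • (t + u) = Complex.I • t + Complex.I • u := smul_add _ _ _
  unfold um
  rw [h, sm_add, sm_add]
  simp only [smul_add]
  abel

theorem up_sum {ι : Type} (s : Finset ι) (t : ι → S) :
    up b R (∑ i ∈ s, t i) = ∑ i ∈ s, up b R (t i) := by
  classical
  induction s using Finset.induction_on with
  | empty =>
    rw [Finset.sum_empty, Finset.sum_empty]
    have h1 := up_smul b R 0 (0 : S)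
    rwa [zero_smul, zero_smul] at h1
  | insert a s ha ih => rw [Finset.sum_insert ha, Finset.sum_insert ha, up_add, ih]

theorem um_sum {ι : Type} (s : Finset ι) (t : ι → S) :
    um b R (∑ i ∈ s, t i) = ∑ i ∈ s, um b R (t i) := by
  classical
  induction s using Finset.induction_on with
  | empty =>
    rw [Finset.sum_empty, Finset.sum_empty]
    have h1 := um_smul b R 0 (0 : S)
    rwa [zero_smul, map_zero, zero_smul] at h1
  | insert a s ha ih => rw [Finset.sum_insert ha, Finset.sum_insert ha, um_add, ih]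

variable {J₀ : Type} [Fintype J₀] (τ : Basis J₀ ℂ S)

/-- The eigenvectors. -/
noncomputable def U : J₀ ⊕ J₀ → ℂ ⊗[ℚ] H
  | Sum.inl i => up b R (τ i)
  | Sum.inr i => um b R (τ i)

/-- The periods. -/
noncomputable def Cc : J₀ ⊕ J₀ → I → ℂ
  | Sum.inl i, j => τ.repr (R j) i
  | Sum.inr i, j => (starRingEnd ℂ) (τ.repr (R j) i)

theorem b_U (j : I) : (1 : ℂ) ⊗ₜ[ℚ] b j = ∑ i, Cc R τ i j • U b R τ i := by
  rw [Fintype.sum_sum_type, ← sm_R b R j, ← up_add_um]
  congr 1
  · conv_lhs => rw [← τ.sum_repr (R j)]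
    rw [up_sum]
    refine Finset.sum_congr rfl fun i _ => ?_
    rw [up_smul]
    rfl
  · conv_lhs => rw [← τ.sum_repr (R j)]
    rw [um_sum]
    refine Finset.sum_congr rfl fun i _ => ?_
    rw [um_smul]
    rfl

/-- The multiplication by `z` on the tangent space. -/
noncomputable def Gz (z : ℂ) : ℂ ⊗[ℚ] H →ₗ[ℂ] ℂ ⊗[ℚ] H :=
  (b.baseChange ℂ).constr ℂ fun j => sm b R (z • R j)

theorem Gz_b (z : ℂ) (j : I) : Gz b R z ((1 : ℂ) ⊗ₜ[ℚ] b j) = sm b R (z • R j) := by
  have h1 := (b.baseChange ℂ).constr_basis ℂ (fun j => sm b R (z • R j)) j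
  rw [Basis.baseChange_apply] at h1
  exact h1

theorem Gz_sm (z : ℂ) (t : S) : Gz b R z (sm b R t) = sm b R (z • t) := by
  have h1 : z • t = ∑ j, (R.repr t j) • (z • R j) := by
    conv_lhs => rw [← R.sum_repr t]
    rw [Finset.smul_sum]
    refine Finset.sum_congr rfl fun j _ => ?_
    rw [smul_comm]
  rw [h1, sm_sum]
  unfold sm
  rw [map_sum]
  refine Finset.sum_congr rfl fun j _ => ?_
  rw [map_smul, Gz_b]
  exact (sm_smul b R _ _).symm

theorem Gz_up (z : ℂ) (t : S) : Gz b R z (up b R t) = z • up b R t := by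
  rw [← up_smul]
  unfold up
  rw [map_smul, map_sub, map_smul, Gz_sm, Gz_sm, smul_comm z Complex.I t]

theorem Gz_um (z : ℂ) (t : S) : Gz b R z (um b R t) = (starRingEnd ℂ) z • um b R t := by
  rw [← um_smul]
  unfold um
  rw [map_smul, map_add, map_smul, Gz_sm, Gz_sm, smul_comm z Complex.I t]

/-- The eigenvalues. -/
noncomputable def wt (z : ℂ) : J₀ ⊕ J₀ → ℂ
  | Sum.inl _ => z
  | Sum.inr _ => (starRingEnd ℂ) z

theorem Gz_U (z : ℂ) (i : J₀ ⊕ J₀) : Gz b R z (U b R τ i) = wt z i • U b R τ i := by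
  rcases i with i | i
  · exact Gz_up b R z _
  · exact Gz_um b R z _

/-! ### The powers -/

variable (n : ℕ)

/-- The basis of the real tangent space of the power. -/
noncomputable def Rn : Basis ((_ : Fin (n + 1)) × I) ℝ (Fin (n + 1) → S) := Pi.basis fun _ => R

theorem Rn_apply (j : (_ : Fin (n + 1)) × I) : Rn R n j = Pi.single j.1 (R j.2) := by
  unfold Rn
  rw [Pi.basis_apply]

theorem Rn_repr (t : Fin (n + 1) → S) (j : (_ : Fin (n + 1)) × I) :
    (Rn R n).repr t j = R.repr (t j.1) j.2 := by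
  unfold Rn
  rw [Pi.basis_repr]

/-- The map on the power. -/
noncomputable def sn (t : Fin (n + 1) → S) : Fin (n + 1) → ℂ ⊗[ℚ] H := fun i => sm b R (t i)

theorem sn_add (t u : Fin (n + 1) → S) : sn b R n (t + u) = sn b R n t + sn b R n u := by
  funext i
  exact sm_add b R _ _

theorem sn_smul (x : ℝ) (t : Fin (n + 1) → S) : sn b R n (x • t) = (x : ℂ) • sn b R n t := by
  funext i
  exact sm_smul b R _ _

/-- The multiplication by `z` on the power. -/
noncomputable def Gn (z : ℂ) : (Fin (n + 1) → ℂ ⊗[ℚ] H) →ₗ[ℂ] (Fin (n + 1) → ℂ ⊗[ℚ] H) :=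
  LinearMap.pi fun i => Gz b R z ∘ₗ LinearMap.proj i

theorem Gn_apply (z : ℂ) (v : Fin (n + 1) → ℂ ⊗[ℚ] H) (i : Fin (n + 1)) :
    Gn b R n z v i = Gz b R z (v i) := rfl

theorem Gn_sn (z : ℂ) (t : Fin (n + 1) → S) : Gn b R n z (sn b R n t) = sn b R n (z • t) := by
  funext i
  exact Gz_sm b R z (t i)

/-- The eigenvectors. -/
noncomputable def Un (j : (_ : Fin (n + 1)) × (J₀ ⊕ J₀)) : Fin (n + 1) → ℂ ⊗[ℚ] H :=
  Pi.single j.1 (U b R τ j.2)

theorem Gn_Un (z : ℂ) (j : (_ : Fin (n + 1)) × (J₀ ⊕ J₀)) :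
    Gn b R n z (Un b R τ n j) = wt z j.2 • Un b R τ n j := by
  funext i
  rw [Gn_apply, Pi.smul_apply]
  unfold Un
  by_cases hi : i = j.1
  · subst hi
    rw [Pi.single_eq_same, Gz_U]
  · rw [Pi.single_eq_of_ne hi, map_zero, smul_zero]

/-- The periods of the power. -/
noncomputable def Cn (j' : (_ : Fin (n + 1)) × (J₀ ⊕ J₀)) (j : (_ : Fin (n + 1)) × I) : ℂ :=
  if j'.1 = j.1 then Cc R τ j'.2 j.2 else 0

/-- The basis of the homology of the power. -/
theorem En_Un (j : (_ : Fin (n + 1)) × I) :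
    (Pi.single j.1 ((1 : ℂ) ⊗ₜ[ℚ] b j.2) : Fin (n + 1) → ℂ ⊗[ℚ] H) =
      ∑ j', Cn R τ n j' j • Un b R τ n j' := by
  obtain ⟨t, i⟩ := j
  rw [b_U b R τ i, Fintype.sum_sigma, Finset.sum_eq_single t]
  · have h2 := map_sum (LinearMap.single ℂ (fun _ : Fin (n + 1) => ℂ ⊗[ℚ] H) t)
      (fun j => Cc R τ j i • U b R τ j) Finset.univ
    refine h2.trans (Finset.sum_congr rfl fun j _ => ?_)
    rw [map_smul]
    unfold Cn
    rw [if_pos rfl]
    rfl
  · intro t' _ ht'
    refine Finset.sum_eq_zero fun j _ => ?_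
    unfold Cn
    rw [if_neg ht', zero_smul]
  · intro ht
    exact absurd (Finset.mem_univ t) ht

end Pool.Agent.V7H7.TP
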