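import Mathlib

/-!
# Forms and products of anticommuting elements
-/

set_option autoImplicit false
set_option linter.unusedSectionVars false

namespace Pool.Agent.V7H7.TP

open Finset

section prod

variable {L A A' : Type} [Field L] [Ring A] [Algebra L A] [Ring A'] [Algebra L A']

/-- The product of the elements `x 0, ..., x (r - 1)`. -/
def P {r : ℕ} (x : Fin r → A) : A := (List.ofFn x).prod

theorem P_eq {r : ℕ} (x : Fin r → A) : P x = MultilinearMap.mkPiAlgebraFin L r A x := by
  rw [MultilinearMap.mkPiAlgebraFin_apply, P]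

theorem P_zero (x : Fin 0 → A) : P x = 1 := by
  rw [P, List.ofFn_zero, List.prod_nil]

theorem P_succ {r : ℕ} (x : Fin (r + 1) → A) : P x = x 0 * P (fun i => x i.succ) := by
  rw [P, List.ofFn_succ, List.prod_cons, P]

theorem P_map (F : A → A') (h1 : F 1 = 1) (hm : ∀ x y, F (x * y) = F x * F y) {r : ℕ}
    (x : Fin r → A) : F (P x) = P (fun i => F (x i)) := by
  induction r with
  | zero => rw [P_zero, P_zero, h1]
  | succ r ih => rw [P_succ, P_succ, hm, ih]

theorem P_append {r s : ℕ} (x : Fin r → A) (y : Fin s → A) : P (Fin.append x y) = P x * P y := by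
  rw [P, P, P, List.ofFn_fin_append, List.prod_append]

/-- The expansion of a product of sums. -/
theorem P_expand {J : Type} [Fintype J] {r : ℕ} (c : Fin r → J → L) (α : J → A) :
    P (fun k => ∑ j, c k j • α j) = ∑ f : Fin r → J, (∏ k, c k (f k)) • P (fun k => α (f k)) := by
  classical
  rw [P_eq (L := L), MultilinearMap.map_sum]
  refine Finset.sum_congr rfl fun f _ => ?_
  rw [MultilinearMap.map_smul_univ, P_eq (L := L)]

end prod

section anti

variable {L A : Type} [Field L] [CharZero L] [Ring A] [Algebra L A] {J J' : Type} [Fintype J]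
  [Fintype J']

/-- The elements anticommute. -/
def Anti (α : J → A) : Prop := ∀ i j, α i * α j = -(α j * α i)

/-- The linear combinations of the elements. -/
def lc (L : Type) [Field L] {A : Type} [Ring A] [Algebra L A] {J : Type} [Fintype J] (α : J → A) :
    (J → L) →ₗ[L] A where
  toFun c := ∑ j, c j • α j
  map_add' c d := by
    rw [← Finset.sum_add_distrib]
    exact Finset.sum_congr rfl fun j _ => by rw [Pi.add_apply, add_smul]
  map_smul' r c := by
    rw [RingHom.id_apply, Finset.smul_sum]
    exact Finset.sum_congr rfl fun j _ => by rw [Pi.smul_apply, smul_eq_mul, mul_smul]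

theorem lc_apply (α : J → A) (c : J → L) : lc L α c = ∑ j, c j • α j := rfl

theorem lc_anti {α : J → A} (hα : Anti α) (c d : J → L) :
    lc L α c * lc L α d = -(lc L α d * lc L α c) := by
  rw [lc_apply, lc_apply, Finset.sum_mul_sum, Finset.sum_mul_sum, Finset.sum_comm,
    ← Finset.sum_neg_distrib]
  refine Finset.sum_congr rfl fun j _ => ?_
  rw [← Finset.sum_neg_distrib]
  refine Finset.sum_congr rfl fun i _ => ?_
  rw [smul_mul_smul_comm, smul_mul_smul_comm, hα i j, smul_neg, mul_comm]

theorem lc_sq {α : J → A} (hα : Anti α) (c : J → L) : lc L α c * lc L α c = 0 := by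
  have h1 := lc_anti (L := L) hα c c
  have h2 : (2 : L) • (lc L α c * lc L α c) = 0 := by
    rw [two_smul]
    nth_rewrite 2 [h1]
    rw [add_neg_cancel]
  rcases smul_eq_zero.1 h2 with h3 | h3
  · exact absurd h3 two_ne_zero
  · exact h3

/-- The product as an alternating map. -/
noncomputable def PA {α : J → A} (hα : Anti α) (r : ℕ) : (J → L) [⋀^Fin r]→ₗ[L] A :=
  (ExteriorAlgebra.lift L ⟨lc L α, lc_sq hα⟩).toLinearMap.compAlternatingMap
    (ExteriorAlgebra.ιMulti L r)

theorem PA_apply {α : J → A} (hα : Anti α) {r : ℕ} (v : Fin r → J → L) :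
    PA hα r v = P (fun k => lc L α (v k)) := by
  rw [PA, LinearMap.compAlternatingMap_apply, ExteriorAlgebra.ιMulti_apply,
    AlgHom.toLinearMap_apply, map_list_prod, List.map_ofFn, P]
  congr 2
  funext k
  rw [Function.comp_apply, ExteriorAlgebra.lift_ι_apply]

theorem lc_single [DecidableEq J] (α : J → A) (j : J) : lc L α (Pi.single j 1) = α j := by
  rw [lc_apply, Finset.sum_eq_single j]
  · rw [Pi.single_eq_same, one_smul]
  · intro i _ hi
    rw [Pi.single_eq_of_ne hi, zero_smul]
  · intro h
    exact absurd (Finset.mem_univ j) h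

theorem P_PA [DecidableEq J] {α : J → A} (hα : Anti α) {r : ℕ} (f : Fin r → J) :
    P (fun k => α (f k)) = PA (L := L) hα r (fun k => Pi.single (f k) 1) := by
  rw [PA_apply]
  congr 1
  funext k
  rw [lc_single]

variable (L)

include L in
theorem P_perm {α : J → A} (hα : Anti α) {r : ℕ} (f : Fin r → J) (σ : Equiv.Perm (Fin r)) :
    P (fun k => α (f (σ k))) = ((Equiv.Perm.sign σ : ℤ) : L) • P (fun k => α (f k)) := by
  classical
  rw [P_PA (L := L) hα (fun k => f (σ k)), P_PA (L := L) hα f]
  have h1 := (PA (L := L) hα r).map_perm (fun k => Pi.single (f k) (1 : L)) σ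
  have h2 : ((fun k => Pi.single (f k) (1 : L)) ∘ σ : Fin r → J → L) =
      fun k => Pi.single (f (σ k)) 1 := rfl
  rw [h2] at h1
  rw [h1]
  rcases Int.units_eq_one_or (Equiv.Perm.sign σ) with h | h
  · rw [h]; simp
  · rw [h]; simp

include L in
theorem P_notinj {α : J → A} (hα : Anti α) {r : ℕ} {f : Fin r → J}
    (hf : ¬ Function.Injective f) : P (fun k => α (f k)) = 0 := by
  classical
  rw [P_PA (L := L) hα f]
  unfold Function.Injective at hf
  push Not at hf
  obtain ⟨a, b, hab, hne⟩ := hf
  refine (PA (L := L) hα r).map_eq_zero_of_eq _ ?_ hne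
  rw [hab]

/-- The product of all elements is not zero. -/
def Top (α : J → A) : Prop :=
  ∃ (r : ℕ) (f : Fin r → J), r = Fintype.card J ∧ P (fun k => α (f k)) ≠ 0

include L in
/-- The product of all elements in any order is not zero. -/
theorem top_ne {α : J → A} (hα : Anti α) (ht : Top α) {r : ℕ} {f : Fin r → J}
    (hf : Function.Injective f) (hr : r = Fintype.card J) : P (fun k => α (f k)) ≠ 0 := by
  classical
  obtain ⟨r', h, hr', hh⟩ := ht
  obtain rfl : r' = r := by rw [hr', hr]
  have hinj : Function.Injective h := by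
    by_contra hcon
    exact hh (P_notinj L hα hcon)
  have hbf : Function.Bijective f := by
    rw [Fintype.bijective_iff_injective_and_card]
    exact ⟨hf, by rw [Fintype.card_fin, hr]⟩
  have hbh : Function.Bijective h := by
    rw [Fintype.bijective_iff_injective_and_card]
    exact ⟨hinj, by rw [Fintype.card_fin, hr]⟩
  let σ : Equiv.Perm (Fin r') := (Equiv.ofBijective h hbh).trans (Equiv.ofBijective f hbf).symm
  have hσ : ∀ k, f (σ k) = h k := fun k => by
    change f ((Equiv.ofBijective f hbf).symm (h k)) = h k
    exact (Equiv.ofBijective f hbf).apply_symm_apply (h k)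
  have h1 := P_perm L hα f σ
  have h2 : (fun k => α (f (σ k))) = fun k => α (h k) := by
    funext k
    rw [hσ]
  rw [h2] at h1
  intro h3
  rw [h3, smul_zero] at h1
  exact hh h1

include L in
/-- Change of the elements. -/
theorem top_of_span {α : J → A} {β : J' → A} (ht : Top α)
    (hcard : Fintype.card J' = Fintype.card J) (hs : ∀ j, ∃ c : J' → L, α j = ∑ i, c i • β i) :
    Top β := by
  classical
  obtain ⟨r, f, hr, hf⟩ := ht
  choose c hc using hs
  have h1 : P (fun k => α (f k)) = ∑ g : Fin r → J', (∏ k, c (f k) (g k)) •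
      P (fun k => β (g k)) := by
    rw [← P_expand (fun k => c (f k)) β]
    congr 1
    funext k
    exact hc (f k)
  by_contra hcon
  apply hf
  rw [h1]
  refine Finset.sum_eq_zero fun g _ => ?_
  have h2 : P (fun k => β (g k)) = 0 := by
    by_contra h3
    exact hcon ⟨r, g, by rw [hr, hcard], h3⟩
  rw [h2, smul_zero]

include L in
theorem anti_of_span {α : J → A} {β : J' → A} (hα : Anti α)
    (hs : ∀ j, ∃ c : J → L, β j = ∑ i, c i • α i) : Anti β := by
  intro i j
  obtain ⟨c, hc⟩ := hs i
  obtain ⟨d, hd⟩ := hs j
  have h1 := lc_anti (L := L) hα c d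
  rw [lc_apply, lc_apply, ← hc, ← hd] at h1
  exact h1

variable {L}

/-- **Injectivity.** -/
theorem coef_zero {κ : Type} [Fintype κ] [DecidableEq κ] {α : J → A} (hα : Anti α) (ht : Top α)
    {r : ℕ} (ε : Fin r ≃ κ) (F : (κ → J) → L)
    (hF : ∀ (f : κ → J) (σ : Equiv.Perm κ), F (fun k => f (σ k)) =
      ((Equiv.Perm.sign σ : ℤ) : L) * F f)
    (h0 : ∑ f : κ → J, F f • P (fun k => α (f (ε k))) = 0) (f₀ : κ → J)
    (hf₀ : Function.Injective f₀) : F f₀ = 0 := by
  classical
  -- the complement
  let C : Finset J := (Finset.univ.image f₀)ᶜ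
  have hC : C.card = Fintype.card J - r := by
    rw [Finset.card_compl, Finset.card_image_of_injective _ hf₀, Finset.card_univ,
      ← Fintype.card_congr ε, Fintype.card_fin]
  have hr : r ≤ Fintype.card J := by
    have h1 := Fintype.card_le_of_injective _ (hf₀.comp ε.injective)
    rwa [Fintype.card_fin] at h1
  let e : Fin (Fintype.card J - r) ≃ C := (Fintype.equivFinOfCardEq (by
    rw [Fintype.card_coe, hC])).symm
  let g : Fin (Fintype.card J - r) → J := fun k => (e k : J)
  have hg : ∀ k, g k ∉ Finset.univ.image f₀ := fun k => Finset.mem_compl.1 (e k).2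
  have hginj : Function.Injective g := fun a b hab => e.injective (Subtype.ext hab)
  have hgs : ∀ j, j ∉ Finset.univ.image f₀ → ∃ k, g k = j := by
    intro j hj
    refine ⟨e.symm ⟨j, Finset.mem_compl.2 hj⟩, ?_⟩
    change ((e (e.symm ⟨j, Finset.mem_compl.2 hj⟩) : C) : J) = j
    rw [Equiv.apply_symm_apply]
  have hP : ∀ f : κ → J, P (fun k => α (f (ε k))) * P (fun k => α (g k)) =
      P (fun k => α (Fin.append (fun k => f (ε k)) g k)) := by
    intro f
    rw [← P_append]
    congr 1
    funext k
    refine Fin.addCases (fun i => ?_) (fun i => ?_) k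
    · rw [Fin.append_left, Fin.append_left]
    · rw [Fin.append_right, Fin.append_right]
  -- the terms
  have key : ∀ f : κ → J, F f • (P (fun k => α (f (ε k))) * P (fun k => α (g k))) =
      if ∃ σ : Equiv.Perm κ, f = fun k => f₀ (σ k) then
        F f₀ • (P (fun k => α (f₀ (ε k))) * P (fun k => α (g k))) else 0 := by
    intro f
    split_ifs with h
    · obtain ⟨σ, rfl⟩ := h
      rw [hF f₀ σ]
      have h1 : (fun k => α (f₀ (σ (ε k)))) =
          fun k => α ((fun i => f₀ (ε i)) ((ε.trans (σ.trans ε.symm)) k)) := by
        funext k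
        change _ = α (f₀ (ε (ε.symm (σ (ε k)))))
        rw [Equiv.apply_symm_apply]
      have h2 := P_perm L hα (fun i => f₀ (ε i)) (ε.trans (σ.trans ε.symm))
      have h3 : Equiv.Perm.sign (ε.trans (σ.trans ε.symm)) = Equiv.Perm.sign σ :=
        Equiv.Perm.sign_trans_trans_symm σ ε
      rw [h1, h2, h3, smul_mul_assoc, smul_smul]
      congr 1
      rcases Int.units_eq_one_or (Equiv.Perm.sign σ) with h | h
      · rw [h]; simp
      · rw [h]; simp
    · rw [hP]
      by_cases hinj : Function.Injective (Fin.append (fun k => f (ε k)) g)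
      · exfalso
        apply h
        have h1 : ∀ k : κ, ∃ k', f₀ k' = f k := by
          intro k
          by_contra hcon
          have h2 : f k ∉ Finset.univ.image f₀ := by
            intro h3
            obtain ⟨k', _, hk'⟩ := Finset.mem_image.1 h3
            exact hcon ⟨k', hk'⟩
          obtain ⟨i, hi⟩ := hgs _ h2
          have h3 : Fin.append (fun k => f (ε k)) g (Fin.castAdd _ (ε.symm k)) =
              Fin.append (fun k => f (ε k)) g (Fin.natAdd _ i) := by
            rw [Fin.append_left, Fin.append_right, Equiv.apply_symm_apply, hi]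
          have h4 := hinj h3
          have h5 := congrArg Fin.val h4
          rw [Fin.val_castAdd, Fin.val_natAdd] at h5
          have h6 := (ε.symm k).2
          omega
        choose τ hτ using h1
        have hfi : Function.Injective f := by
          intro a b hab
          have h2 : Fin.append (fun k => f (ε k)) g (Fin.castAdd _ (ε.symm a)) =
              Fin.append (fun k => f (ε k)) g (Fin.castAdd _ (ε.symm b)) := by
            rw [Fin.append_left, Fin.append_left, Equiv.apply_symm_apply, Equiv.apply_symm_apply,
              hab]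
          exact ε.symm.injective (Fin.castAdd_injective _ _ (hinj h2))
        have hτi : Function.Injective τ := by
          intro a b hab
          apply hfi
          rw [← hτ, ← hτ, hab]
        have hτb : Function.Bijective τ := Finite.injective_iff_bijective.1 hτi
        refine ⟨Equiv.ofBijective τ hτb, ?_⟩
        funext k
        exact (hτ k).symm
      · rw [P_notinj L hα hinj, smul_zero]
  have h1 : ∑ f : κ → J, F f • (P (fun k => α (f (ε k))) * P (fun k => α (g k))) = 0 := by
    have h2 := congrArg (fun x => x * P (fun k => α (g k))) h0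
    simp only [zero_mul, Finset.sum_mul, smul_mul_assoc] at h2
    exact h2
  rw [Finset.sum_congr rfl fun f _ => key f, Finset.sum_ite, Finset.sum_const_zero, add_zero,
    Finset.sum_const, ← Nat.cast_smul_eq_nsmul L, smul_smul] at h1
  have hcard : (Finset.univ.filter fun f : κ → J => ∃ σ : Equiv.Perm κ, f =
      fun k => f₀ (σ k)).card ≠ 0 := by
    apply Finset.card_ne_zero_of_mem (a := f₀)
    rw [Finset.mem_filter]
    exact ⟨Finset.mem_univ _, 1, rfl⟩
  rcases smul_eq_zero.1 h1 with h2 | h2
  · rcases mul_eq_zero.1 h2 with h3 | h3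
    · exact absurd (Nat.cast_eq_zero.1 h3) hcard
    · exact h3
  · exfalso
    rw [hP] at h2
    refine top_ne L hα ht (f := Fin.append (fun k => f₀ (ε k)) g) ?_ (by omega) h2
    intro a b
    refine Fin.addCases (fun i => ?_) (fun i => ?_) a
    · refine Fin.addCases (fun j => ?_) (fun j => ?_) b
      · rw [Fin.append_left, Fin.append_left]
        intro h
        rw [ε.injective (hf₀ h)]
      · rw [Fin.append_left, Fin.append_right]
        intro h
        exact absurd (Finset.mem_image.2 ⟨_, Finset.mem_univ _, h⟩) (hg j)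
    · refine Fin.addCases (fun j => ?_) (fun j => ?_) b
      · rw [Fin.append_left, Fin.append_right]
        intro h
        exact absurd (Finset.mem_image.2 ⟨_, Finset.mem_univ _, h.symm⟩) (hg i)
      · rw [Fin.append_right, Fin.append_right]
        intro h
        rw [hginj h]

end anti

end Pool.Agent.V7H7.TP
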